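import Mathlib

/-! FP project, module M5: real analysis. -/

set_option autoImplicit false

open Set

namespace Pool.Agent.helper88.FPM

private lemma neg_log_lower {t : ℝ} (ht : t < 1) : t ≤ - Real.log (1 - t) := by
  have := Real.log_le_sub_one_of_pos (x := 1 - t) (by linarith)
  linarith

private lemma neg_log_upper {t : ℝ} (ht : t < 1) : - Real.log (1 - t) ≤ t / (1 - t) := by
  have hpos : (0:ℝ) < 1 - t := by linarith
  have h1 := Real.one_sub_inv_le_log_of_pos hpos
  have h2 : t / (1 - t) = (1 - t)⁻¹ - 1 := by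
    field_simp
    ring
  rw [h2]
  linarith

/-- one step: `M = M(p1,h)` is compared at the level `p` with `chi(p) = X`, `s = (p1-p)/(1-p)` -/
theorem calc_step {D s h M X κ η : ℝ} (hκ : κ = 1 / 40) (hη0 : 0 < η) (hη : η ≤ κ / 960) (hD : 4 / η ≤ D)
    (hs : 0 ≤ s) (hsD : s ≤ 1 / D) (hX : 10 ≤ X) (h0 : 0 ≤ h) (h1 : h ≤ 1 / 2) (hM0 : 0 < M)
    (hM1 : M ≤ κ / 10) (hXM : X * M = κ) (hsX1 : 2 * D * s * X ≤ 1 + 2 * η) (hsX2 : 1 / 2 ≤ 2 * D * s * X)
    (hmain : ∀ l : ℝ, l = - Real.log (1 - h) - 2 * D * Real.log (1 - s * M) →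
      M ≤ l * X - 0.2 * l ^ 2 * X ^ 3 + 0.5 * l ^ 3 * X ^ 5) :
    M ≤ 22 * Real.sqrt h := by
  subst hκ
  have hDpos : 0 < D := lt_of_lt_of_le (by positivity) hD
  have hsη : s ≤ η / 4 := by
    refine hsD.trans ?_
    rw [div_le_div_iff₀ hDpos (by norm_num)]
    rw [div_le_iff₀ hη0] at hD
    linarith
  have hη' : η ≤ 1 / 38400 := by linarith
  -- enough: M ^ 2 ≤ 484 h
  suffices hsuff : M ^ 2 ≤ 484 * h by
    have : M ^ 2 ≤ (22 * Real.sqrt h) ^ 2 := by
      rw [mul_pow, Real.sq_sqrt h0]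
      linarith
    exact le_of_sq_le_sq this (by positivity)
  by_cases hA : M ^ 2 ≤ h / 40
  · linarith
  push Not at hA
  have hXpos : 0 < X := by linarith
  set l := - Real.log (1 - h) - 2 * D * Real.log (1 - s * M) with hl
  have hmain' := hmain l rfl
  have hsM0 : 0 ≤ s * M := by positivity
  have hsM1 : s * M ≤ 1 / 400 * s := by nlinarith
  have hsM2 : s * M < 1 := by nlinarith
  have hlow : 2 * D * (s * M) ≤ l := by
    have e1 := neg_log_lower (t := h) (by linarith)
    have e2 := neg_log_lower (t := s * M) hsM2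
    have e3 : 2 * D * (s * M) ≤ 2 * D * (- Real.log (1 - s * M)) :=
      mul_le_mul_of_nonneg_left e2 (by positivity)
    rw [hl]
    linarith
  have hupp : l ≤ 2 * h + 2 * D * (s * M) * (1 + s) := by
    have e1 := neg_log_upper (t := h) (by linarith)
    have e2 := neg_log_upper (t := s * M) hsM2
    have e1' : h / (1 - h) ≤ 2 * h := by
      rw [div_le_iff₀ (by linarith)]
      nlinarith
    have e2' : s * M / (1 - s * M) ≤ s * M * (1 + s) := by
      rw [div_le_iff₀ (by linarith)]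
      have : 1 ≤ (1 + s) * (1 - s * M) := by
        nlinarith [mul_nonneg hs hs, mul_nonneg hs hsM0]
      nlinarith
    have e3 : 2 * D * (- Real.log (1 - s * M)) ≤ 2 * D * (s * M * (1 + s)) :=
      mul_le_mul_of_nonneg_left (e2.trans e2') (by positivity)
    rw [hl]
    nlinarith
  have hl0 : 0 ≤ l := le_trans (by positivity) hlow
  -- l * X bound
  have hlX : l * X ≤ 2 * h * X + (1 + 4 * η) * M := by
    have e1 : l * X ≤ (2 * h + 2 * D * (s * M) * (1 + s)) * X :=
      mul_le_mul_of_nonneg_right hupp hXpos.le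
    have e2 : (2 * h + 2 * D * (s * M) * (1 + s)) * X = 2 * h * X + (2 * D * s * X) * ((1 + s) * M) := by ring
    have e3 : (2 * D * s * X) * ((1 + s) * M) ≤ (1 + 2 * η) * ((1 + s) * M) :=
      mul_le_mul_of_nonneg_right hsX1 (by positivity)
    have e4 : (1 + 2 * η) * (1 + s) ≤ 1 + 4 * η := by nlinarith
    have e5 : (1 + 2 * η) * ((1 + s) * M) ≤ (1 + 4 * η) * M := by
      rw [← mul_assoc]
      exact mul_le_mul_of_nonneg_right e4 hM0.le
    linarith
  have hhX : h * X ^ 2 ≤ 40 * (1 / 40) ^ 2 := by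
    have e1 : h * X ^ 2 ≤ (40 * M ^ 2) * X ^ 2 :=
      mul_le_mul_of_nonneg_right (by linarith) (by positivity)
    have e2 : (40 * M ^ 2) * X ^ 2 = 40 * (X * M) ^ 2 := by ring
    rw [e2, hXM] at e1
    exact e1
  have hlX2 : l * X ^ 2 ≤ 0.1 := by
    have e1 : l * X ^ 2 = (l * X) * X := by ring
    have e2 : (l * X) * X ≤ (2 * h * X + (1 + 4 * η) * M) * X := mul_le_mul_of_nonneg_right hlX hXpos.le
    have e3 : (2 * h * X + (1 + 4 * η) * M) * X = 2 * (h * X ^ 2) + (1 + 4 * η) * (X * M) := by ring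
    rw [hXM] at e3
    rw [e1]
    refine e2.trans ?_
    rw [e3]
    norm_num at hhX ⊢
    linarith
  have h2 : (1/4) * (M ^ 2 * X) ≤ l ^ 2 * X ^ 3 := by
    have e1 : 2 * D * (s * M) * X ≤ l * X := mul_le_mul_of_nonneg_right hlow hXpos.le
    have e2 : (1/2) * M ≤ l * X := by
      have : (1/2) * M ≤ (2 * D * s * X) * M := mul_le_mul_of_nonneg_right hsX2 hM0.le
      linarith
    have e3 : ((1/2) * M) ^ 2 ≤ (l * X) ^ 2 := pow_le_pow_left₀ (by positivity) e2 2
    have e4 : ((1/2) * M) ^ 2 * X ≤ (l * X) ^ 2 * X := mul_le_mul_of_nonneg_right e3 hXpos.le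
    nlinarith
  have h3 : l ^ 3 * X ^ 5 ≤ 0.1 * (l ^ 2 * X ^ 3) := by
    have e1 : l ^ 3 * X ^ 5 = (l * X ^ 2) * (l ^ 2 * X ^ 3) := by ring
    rw [e1]
    exact mul_le_mul_of_nonneg_right hlX2 (by positivity)
  have h4 : M ≤ 2 * h * X + (1 + 4 * η) * M - 0.15 * ((1/4) * (M ^ 2 * X)) := by
    have : M ≤ l * X - 0.15 * (l ^ 2 * X ^ 3) := by
      norm_num at hmain' h3 ⊢
      linarith
    norm_num at this ⊢
    linarith
  -- multiply by M
  have h5 : 0.0375 * (M * (M ^ 2 * X)) ≤ 2 * h * (X * M) + 4 * η * M ^ 2 := by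
    have := mul_le_mul_of_nonneg_right h4 hM0.le
    norm_num at this ⊢
    nlinarith
  have h6 : M * (M ^ 2 * X) = M ^ 2 * (X * M) := by ring
  rw [h6, hXM] at h5
  have h7 : 4 * η * M ^ 2 ≤ 4 * (1 / 38400) * M ^ 2 := by
    apply mul_le_mul_of_nonneg_right _ (by positivity)
    linarith
  norm_num at h5 h7
  linarith

/-- the whole comparison argument at a fixed level `p1 < pc` -/
theorem calc_main {D κ η p1 : ℝ} {χ M : ℝ → ℝ} (hκ : κ = 1 / 40) (hη0 : 0 < η) (hη : η ≤ κ / 960)
    (hD : 4 / η ≤ D) (hp1 : 0 ≤ p1) (hp1D : 2 * D * p1 ≤ 1 + η) (hχ0 : χ 0 = 1)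
    (hχ1 : ∀ p, 0 ≤ p → p ≤ p1 → 1 ≤ χ p)
    (hup : ∀ p q, 0 ≤ p → p ≤ q → q ≤ p1 → 1 / χ p - 1 / χ q ≤ 2 * D * (q - p))
    (hlow : ∀ p q, 0 ≤ p → p ≤ q → q ≤ p1 → 2 * D * (1 - η) * (q - p) ≤ 1 / χ p - 1 / χ q)
    (hlip : ∀ h h' : ℝ, 0 ≤ h → h ≤ h' → h' ≤ 1 → |M h' - M h| ≤ χ p1 * (h' - h)) (hM0 : M 0 = 0)
    (hM1 : ∀ h, 0 ≤ h → h ≤ 1 → 0 ≤ M h ∧ M h ≤ 1)
    (hmain : ∀ p, 0 ≤ p → p < p1 → 10 ≤ χ p → ∀ h, 0 < h → h ≤ 1 / 2 → ∀ l : ℝ,
      l = - Real.log (1 - h) - 2 * D * Real.log (1 - (p1 - p) / (1 - p) * M h) →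
      M h ≤ l * χ p - 0.2 * l ^ 2 * χ p ^ 3 + 0.5 * l ^ 3 * χ p ^ 5)
    (h20 : 20 ≤ χ p1) {h : ℝ} (hh : 0 < h) (hh0 : h < (κ / 220) ^ 2) :
    M h ≤ max (22 * Real.sqrt h) (2 * κ / χ p1) := by
  have hDpos : 0 < D := lt_of_lt_of_le (by positivity) hD
  have hη' : η ≤ 1 / 38400 := by rw [hκ] at hη; linarith
  have hDη : 4 ≤ D * η := by
    rw [div_le_iff₀ hη0] at hD
    exact hD
  have hp1s : p1 ≤ η * (1 + η) / 8 := by
    have e1 : 2 * D * p1 * η ≤ (1 + η) * η := mul_le_mul_of_nonneg_right hp1D hη0.le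
    have e2 : 8 * p1 ≤ 2 * D * p1 * η := by
      have := mul_le_mul_of_nonneg_left hDη hp1
      nlinarith
    linarith
  have hp1small : p1 ≤ 1 / 2 := by nlinarith
  have hp1D' : p1 ≤ 1 / D := by
    rw [le_div_iff₀ hDpos]
    nlinarith
  have hκpos : 0 < κ := by rw [hκ]; norm_num
  -- continuity of 1/χ
  have hcont : ContinuousOn (fun p => 1 / χ p) (Icc 0 p1) := by
    have hL : LipschitzOnWith (Real.toNNReal (2 * D)) (fun p => 1 / χ p) (Icc 0 p1) := by
      apply LipschitzOnWith.of_dist_le_mul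
      intro x hx y hy
      rw [Real.coe_toNNReal _ (by positivity)]
      rcases le_total x y with hxy | hxy
      · have e1 := hup x y hx.1 hxy hy.2
        have e2 := hlow x y hx.1 hxy hy.2
        have e3 : 0 ≤ 2 * D * (1 - η) * (y - x) := by
          have : 0 ≤ 1 - η := by linarith
          have : 0 ≤ y - x := by linarith
          positivity
        rw [Real.dist_eq, Real.dist_eq, abs_of_nonneg (by linarith), abs_sub_comm,
          abs_of_nonneg (by linarith)]
        exact e1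
      · have e1 := hup y x hy.1 hxy hx.2
        have e2 := hlow y x hy.1 hxy hx.2
        have e3 : 0 ≤ 2 * D * (1 - η) * (x - y) := by
          have : 0 ≤ 1 - η := by linarith
          have : 0 ≤ x - y := by linarith
          positivity
        rw [Real.dist_eq, Real.dist_eq, abs_sub_comm, abs_of_nonneg (by linarith),
          abs_of_nonneg (by linarith)]
        exact e1
    exact hL.continuousOn
  have hχ1pos : 0 < χ p1 := by linarith
  -- the core
  have core : ∀ g : ℝ, 0 < g → g ≤ 1 / 2 → M g ≤ κ / 10 → 2 * κ / χ p1 ≤ M g → M g ≤ 22 * Real.sqrt g := by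
    intro g hg0 hg1 hm1 hm2
    have hmpos : 0 < M g := lt_of_lt_of_le (by positivity) hm2
    have hmem : M g / κ ∈ Icc (1 / χ p1) (1 / χ 0) := by
      constructor
      · rw [div_le_div_iff₀ hχ1pos hκpos]
        rw [div_le_iff₀ hχ1pos] at hm2
        nlinarith
      · rw [hχ0, div_le_iff₀ hκpos]
        linarith
    obtain ⟨p, hp, hpe⟩ := intermediate_value_Icc' hp1 hcont hmem
    simp only at hpe
    have hχppos : 0 < χ p := lt_of_lt_of_le one_pos (hχ1 p hp.1 hp.2)
    have hXM : χ p * M g = κ := by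
      rw [div_eq_div_iff hχppos.ne' hκpos.ne'] at hpe
      linarith
    have hX10 : 10 ≤ χ p := by
      by_contra hcon
      push Not at hcon
      have : χ p * M g < 10 * (κ / 10) := by
        calc χ p * M g < 10 * M g := mul_lt_mul_of_pos_right hcon hmpos
          _ ≤ 10 * (κ / 10) := by linarith
      rw [hXM] at this
      linarith
    -- 2 χ p ≤ χ p1
    have h2X : 2 * χ p ≤ χ p1 := by
      rw [div_le_iff₀ hχ1pos] at hm2
      have : 2 * (χ p * M g) ≤ M g * χ p1 := by rw [hXM]; exact hm2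
      have h3 : M g * (2 * χ p) ≤ M g * χ p1 := by linarith
      exact le_of_mul_le_mul_left h3 hmpos
    have hplt : p < p1 := by
      rcases lt_or_eq_of_le hp.2 with h | h
      · exact h
      · exfalso
        rw [h] at h2X
        linarith
    have hp1' : 0 < 1 - p := by linarith [hp.2]
    have hsle : (p1 - p) / (1 - p) ≤ p1 := by
      rw [div_le_iff₀ hp1']
      nlinarith [hp.1]
    have hsge : p1 - p ≤ (p1 - p) / (1 - p) := by
      rw [le_div_iff₀ hp1']
      nlinarith [hp.1]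
    apply calc_step (D := D) (s := (p1 - p) / (1 - p)) (X := χ p) hκ hη0 hη hD
      (div_nonneg (by linarith) hp1'.le) (hsle.trans hp1D') hX10 hg0.le hg1 hmpos hm1 hXM
    · -- 2 D s X ≤ 1 + 2 η
      have e1 := hlow p p1 hp.1 hplt.le le_rfl
      have e2 : 0 < 1 / χ p1 := by positivity
      have e3 : 2 * D * (1 - η) * (p1 - p) ≤ 1 / χ p := by linarith
      have e4 : 2 * D * (1 - η) * (p1 - p) * χ p ≤ 1 := by
        rw [le_div_iff₀ hχppos] at e3
        exact e3
      have e5 : 2 * D * ((p1 - p) / (1 - p)) * χ p = (2 * D * (p1 - p) * χ p) / (1 - p) := by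
        field_simp
      rw [e5, div_le_iff₀ hp1']
      -- (1+2η)(1-p) ≥ 1/(1-η)
      have e6 : 1 ≤ (1 + 2 * η) * (1 - p) * (1 - η) := by
        have hpη : p ≤ η / 4 := by
          have : η * (1 + η) / 8 ≤ η / 4 := by nlinarith
          linarith [hp.2]
        have f1 : (1 + 2 * η) * (1 - η / 4) * (1 - η) ≤ (1 + 2 * η) * (1 - p) * (1 - η) := by
          apply mul_le_mul_of_nonneg_right _ (by linarith)
          apply mul_le_mul_of_nonneg_left _ (by linarith)
          linarith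
        have f2 : 1 ≤ (1 + 2 * η) * (1 - η / 4) * (1 - η) := by
          have : (1 + 2 * η) * (1 - η / 4) * (1 - η) = 1 + (3/4) * η - (9/4) * η ^ 2 + (1/2) * η ^ 3 := by ring
          rw [this]
          have g1 : 0 ≤ η ^ 3 := by positivity
          nlinarith
        linarith
      have e7 : (1 - η) * (2 * D * (p1 - p) * χ p) ≤ (1 - η) * ((1 + 2 * η) * (1 - p)) := by
        have : (1 - η) * (2 * D * (p1 - p) * χ p) = 2 * D * (1 - η) * (p1 - p) * χ p := by ring
        rw [this]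
        linarith
      exact le_of_mul_le_mul_left e7 (by linarith)
    · have e1 := hup p p1 hp.1 hplt.le le_rfl
      have e2 : 2 * D * (p1 - p) ≤ 2 * D * ((p1 - p) / (1 - p)) :=
        mul_le_mul_of_nonneg_left hsge (by positivity)
      have e3 : 1 / χ p1 ≤ 1 / (2 * χ p) := one_div_le_one_div_of_le (by positivity) h2X
      have e4 : 1 / (2 * χ p) ≤ 2 * D * ((p1 - p) / (1 - p)) := by
        have : 1 / χ p = 1 / (2 * χ p) + 1 / (2 * χ p) := by
          field_simp
          norm_num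
        linarith
      rw [div_le_iff₀ (by positivity)] at e4
      linarith
    · intro l hl
      exact hmain p hp.1 hplt hX10 g hg0 hg1 l hl
  rw [le_max_iff]
  by_contra hcon
  push Not at hcon
  obtain ⟨hc1, hc2⟩ := hcon
  have hhsmall : h ≤ 1 / 2 := by
    rw [hκ] at hh0
    norm_num at hh0
    linarith
  rcases le_total (M h) (κ / 10) with hm | hm
  · exact absurd (core h hh hhsmall hm hc2.le) (not_le.mpr hc1)
  · -- IVT in h
    have hcM : ContinuousOn M (Icc 0 h) := by
      have hL : LipschitzOnWith (Real.toNNReal (χ p1)) M (Icc 0 h) := by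
        apply LipschitzOnWith.of_dist_le_mul
        intro x hx y hy
        rw [Real.coe_toNNReal _ hχ1pos.le]
        rcases le_total x y with hxy | hxy
        · have e1 := hlip x y hx.1 hxy (by linarith [hy.2])
          rw [Real.dist_eq, Real.dist_eq, abs_sub_comm, abs_sub_comm x y, abs_of_nonneg (a := y - x) (by linarith)]
          exact e1
        · have e1 := hlip y x hy.1 hxy (by linarith [hx.2])
          rw [Real.dist_eq, Real.dist_eq, abs_of_nonneg (a := x - y) (by linarith)]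
          exact e1
      exact hL.continuousOn
    have hmem : κ / 10 ∈ Icc (M 0) (M h) := by
      rw [hM0]
      exact ⟨by positivity, hm⟩
    obtain ⟨g, hg, hge⟩ := intermediate_value_Icc hh.le hcM hmem
    have hg0 : 0 < g := by
      rcases lt_or_eq_of_le hg.1 with h' | h'
      · exact h'
      · exfalso
        rw [← h', hM0] at hge
        linarith
    have h1 := core g hg0 (by linarith [hg.2]) hge.le (by
      rw [hge, div_le_div_iff₀ hχ1pos (by norm_num)]
      nlinarith)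
    rw [hge] at h1
    have h2 : Real.sqrt g ≤ Real.sqrt h := Real.sqrt_le_sqrt hg.2
    have h3 : Real.sqrt h < κ / 220 := by
      rw [Real.sqrt_lt' (by positivity)]
      exact hh0
    linarith

end Pool.Agent.helper88.FPM
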