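import Pool.Agent.helper88.FPM.MBasic

/-! FP project, module M1: moments of the cluster size (tree-graph bounds), triangle error terms. -/

set_option autoImplicit false

open MeasureTheory Set
open scoped ENNReal

namespace Pool.Agent.helper88.FPM

open Pool.Agent.helper55.FP

variable {d : ℕ}

namespace MTree_aux

/-- `n`-fold disjoint occurrence -/
def djn {n : ℕ} (𝒜 : Fin n → Set (Finset (E d))) : Set (Finset (E d)) :=
  {M | ∃ K : Fin n → Finset (E d), (∀ j, K j ∈ 𝒜 j) ∧ (∀ i j, i ≠ j → Disjoint (K i) (K j)) ∧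
    ∀ j, K j ⊆ M}

theorem bkn (p : ℝ) : ∀ {n : ℕ} (𝒜 : Fin n → Set (Finset (E d))),
    P d (Ev p (djn 𝒜)) ≤ ∏ j, P d (Ev p (𝒜 j))
  | 0, 𝒜 => by
    rw [Fin.prod_univ_zero]
    exact prob_le_one
  | n + 1, 𝒜 => by
    classical
    have hsub : Ev p (djn 𝒜) ⊆ Ev p (dj (𝒜 0) (djn fun j : Fin n => 𝒜 j.succ)) := by
      rintro U ⟨M, ⟨K, hK, hdis, hM⟩, hU⟩
      refine ⟨M, ⟨K 0, hK 0, Finset.univ.biUnion fun j : Fin n => K j.succ,
        ⟨fun j => K j.succ, fun j => hK _, fun i j hij => hdis _ _ ?_, fun j => ?_⟩, ?_, hM 0, ?_⟩,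
        hU⟩
      · exact fun h => hij (Fin.succ_injective _ h)
      · exact Finset.subset_biUnion_of_mem (fun j : Fin n => K j.succ) (Finset.mem_univ j)
      · rw [Finset.disjoint_biUnion_right]
        intro j _
        exact hdis _ _ (Fin.succ_ne_zero j).symm
      · rw [Finset.biUnion_subset]
        exact fun j _ => hM _
    rw [Fin.prod_univ_succ]
    refine (measure_mono hsub).trans ((bkE p _ _).trans ?_)
    exact mul_le_mul_right (bkn p fun j : Fin n => 𝒜 j.succ) _

theorem P_cw (p : ℝ) (a b : V d) : P d (Ev p (cw univ a b)) = tE p (b - a) := by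
  rw [← cE_univ]
  unfold cE
  congr 1
  ext U
  exact conn_op_iff.symm

theorem sum_sub (f : V d → ℝ≥0∞) (v : V d) : ∑' x, f (x - v) = ∑' x, f x :=
  (Equiv.subRight v).tsum_eq f

theorem sum_add (f : V d → ℝ≥0∞) (v : V d) : ∑' x, f (x + v) = ∑' x, f x :=
  (Equiv.addRight v).tsum_eq f

theorem sum_tE (p : ℝ) (v : V d) : ∑' x, tE p (x - v) = XE d p := sum_sub (tE p) v

theorem sum_tE' (p : ℝ) (v : V d) : ∑' x, tE p (v - x) = XE d p := by
  rw [← sum_tE p v]
  refine tsum_congr fun x => ?_
  rw [← tE_neg, neg_sub]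

theorem tE_comm (p : ℝ) (a b : V d) : tE p (a - b) = tE p (b - a) := by
  rw [← tE_neg, neg_sub]

/-- five disjoint connections, via `Fin 5` -/
theorem five {n : ℕ} (p : ℝ) (a b : Fin n → V d) :
    P d (Ev p (djn fun j => cw univ (a j) (b j))) ≤ ∏ j, tE p (b j - a j) := by
  refine (bkn p _).trans (le_of_eq ?_)
  exact Finset.prod_congr rfl fun j _ => P_cw p _ _

/-- the combinatorial part of the 4-point tree graph inequality -/
theorem tree4 {M : Finset (E d)} {x y z : V d} (hx : M ∈ cw univ 0 x) (hy : M ∈ cw univ 0 y)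
    (hz : M ∈ cw univ 0 z) : ∃ s s' : V d,
      M ∈ djn (fun j => cw univ (![0, s', s, s, s'] j) (![s', s, x, y, z] j : V d)) ∨
      M ∈ djn (fun j => cw univ (![0, s, s', s, s'] j) (![s, s', x, y, z] j : V d)) ∨
      M ∈ djn (fun j => cw univ (![0, s, s', s, s'] j) (![s, s', y, x, z] j : V d)) := by
  classical
  obtain ⟨s, -, K1, hK1, N, ⟨K2, hK2, K3, hK3, h23, h2N, h3N⟩, h1N, hK1M, hNM⟩ := tree_dj hx hy
  have h12 : Disjoint K1 K2 := h1N.mono_right h2N
  have h13 : Disjoint K1 K3 := h1N.mono_right h3N
  obtain ⟨K', hK', i, s', -, L, hLM, hLK, hL, A, hA, B, hB, hAB, hAK, hBK⟩ :=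
    attach_dj (W := univ) (n := 3) (K := ![K1, K2, K3]) (a := ![0, s, s]) (b := ![s, x, y])
      (by intro j; fin_cases j <;> [exact hK1; exact hK2; exact hK3])
      (by
        intro i j hij
        fin_cases i <;> fin_cases j <;> first
          | exact absurd rfl hij
          | exact h12
          | exact h13
          | exact h23
          | exact h12.symm
          | exact h13.symm
          | exact h23.symm)
      (M := M) (by
        intro j
        fin_cases j <;> [exact hK1M; exact h2N.trans hNM; exact h3N.trans hNM])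
      (c := z) 0 hz
  have s0 : K' 0 ⊆ K1 := (hK' 0).1
  have s1 : K' 1 ⊆ K2 := (hK' 1).1
  have s2 : K' 2 ⊆ K3 := (hK' 2).1
  have c0 : K' 0 ∈ cw univ 0 s := (hK' 0).2
  have c1 : K' 1 ∈ cw univ s x := (hK' 1).2
  have c2 : K' 2 ∈ cw univ s y := (hK' 2).2
  have d01 : Disjoint (K' 0) (K' 1) := h12.mono s0 s1
  have d02 : Disjoint (K' 0) (K' 2) := h13.mono s0 s2
  have d12 : Disjoint (K' 1) (K' 2) := h23.mono s1 s2
  have m0 : K' 0 ⊆ M := s0.trans hK1M
  have m1 : K' 1 ⊆ M := s1.trans (h2N.trans hNM)
  have m2 : K' 2 ⊆ M := s2.trans (h3N.trans hNM)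
  have l0 := hLK 0
  have l1 := hLK 1
  have l2 := hLK 2
  refine ⟨s, s', ?_⟩
  fin_cases i
  · left
    have hA' : A ∈ cw univ 0 s' := hA
    have hB' : B ∈ cw univ s' s := hB
    have hAK' : A ⊆ K' 0 := hAK
    have hBK' : B ⊆ K' 0 := hBK
    refine ⟨![A, B, K' 1, K' 2, L], ?_, ?_, ?_⟩
    · intro j
      fin_cases j <;> [exact hA'; exact hB'; exact c1; exact c2; exact hL]
    · have e1 : Disjoint A (K' 1) := d01.mono_left hAK'
      have e2 : Disjoint A (K' 2) := d02.mono_left hAK'
      have e3 : Disjoint A L := (l0.mono_right hAK').symm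
      have e4 : Disjoint B (K' 1) := d01.mono_left hBK'
      have e5 : Disjoint B (K' 2) := d02.mono_left hBK'
      have e6 : Disjoint B L := (l0.mono_right hBK').symm
      intro i j hij
      fin_cases i <;> fin_cases j <;> first
        | exact absurd rfl hij
        | exact hAB
        | exact hAB.symm
        | exact e1
        | exact e2
        | exact e3
        | exact e4
        | exact e5
        | exact e6
        | exact e1.symm
        | exact e2.symm
        | exact e3.symm
        | exact e4.symm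
        | exact e5.symm
        | exact e6.symm
        | exact d12
        | exact d12.symm
        | exact l1
        | exact l1.symm
        | exact l2
        | exact l2.symm
    · intro j
      fin_cases j <;> [exact hAK'.trans m0; exact hBK'.trans m0; exact m1; exact m2; exact hLM]
  · right; left
    have hA' : A ∈ cw univ s s' := hA
    have hB' : B ∈ cw univ s' x := hB
    have hAK' : A ⊆ K' 1 := hAK
    have hBK' : B ⊆ K' 1 := hBK
    refine ⟨![K' 0, A, B, K' 2, L], ?_, ?_, ?_⟩
    · intro j
      fin_cases j <;> [exact c0; exact hA'; exact hB'; exact c2; exact hL]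
    · have e1 : Disjoint (K' 0) A := d01.mono_right hAK'
      have e2 : Disjoint A (K' 2) := d12.mono_left hAK'
      have e3 : Disjoint A L := (l1.mono_right hAK').symm
      have e4 : Disjoint (K' 0) B := d01.mono_right hBK'
      have e5 : Disjoint B (K' 2) := d12.mono_left hBK'
      have e6 : Disjoint B L := (l1.mono_right hBK').symm
      intro i j hij
      fin_cases i <;> fin_cases j <;> first
        | exact absurd rfl hij
        | exact hAB
        | exact hAB.symm
        | exact e1
        | exact e2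
        | exact e3
        | exact e4
        | exact e5
        | exact e6
        | exact e1.symm
        | exact e2.symm
        | exact e3.symm
        | exact e4.symm
        | exact e5.symm
        | exact e6.symm
        | exact d02
        | exact d02.symm
        | exact l0
        | exact l0.symm
        | exact l2
        | exact l2.symm
    · intro j
      fin_cases j <;> [exact m0; exact hAK'.trans m1; exact hBK'.trans m1; exact m2; exact hLM]
  · right; right
    have hA' : A ∈ cw univ s s' := hA
    have hB' : B ∈ cw univ s' y := hB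
    have hAK' : A ⊆ K' 2 := hAK
    have hBK' : B ⊆ K' 2 := hBK
    refine ⟨![K' 0, A, B, K' 1, L], ?_, ?_, ?_⟩
    · intro j
      fin_cases j <;> [exact c0; exact hA'; exact hB'; exact c1; exact hL]
    · have e1 : Disjoint (K' 0) A := d02.mono_right hAK'
      have e2 : Disjoint A (K' 1) := (d12.mono_right hAK').symm
      have e3 : Disjoint A L := (l2.mono_right hAK').symm
      have e4 : Disjoint (K' 0) B := d02.mono_right hBK'
      have e5 : Disjoint B (K' 1) := (d12.mono_right hBK').symm
      have e6 : Disjoint B L := (l2.mono_right hBK').symm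
      intro i j hij
      fin_cases i <;> fin_cases j <;> first
        | exact absurd rfl hij
        | exact hAB
        | exact hAB.symm
        | exact e1
        | exact e2
        | exact e3
        | exact e4
        | exact e5
        | exact e6
        | exact e1.symm
        | exact e2.symm
        | exact e3.symm
        | exact e4.symm
        | exact e5.symm
        | exact e6.symm
        | exact d01
        | exact d01.symm
        | exact l0
        | exact l0.symm
        | exact l1
        | exact l1.symm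
    · intro j
      fin_cases j <;> [exact m0; exact hAK'.trans m2; exact hBK'.trans m2; exact m1; exact hLM]

theorem prod5 (p : ℝ) (a b : Fin 5 → V d) : ∏ j, tE p (b j - a j) =
    tE p (b 0 - a 0) * tE p (b 1 - a 1) * tE p (b 2 - a 2) * tE p (b 3 - a 3) *
      tE p (b 4 - a 4) := by
  rw [Fin.prod_univ_five]

/-- 4-point tree graph inequality -/
theorem prob4 (p : ℝ) (x y z : V d) :
    P d {U | Conn (op p U) univ 0 x ∧ Conn (op p U) univ 0 y ∧ Conn (op p U) univ 0 z} ≤
      ∑' s : V d, ∑' s' : V d,
        (tE p s' * tE p (s - s') * tE p (x - s) * tE p (y - s) * tE p (z - s') +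
        (tE p s * tE p (s' - s) * tE p (x - s') * tE p (y - s) * tE p (z - s') +
        tE p s * tE p (s' - s) * tE p (y - s') * tE p (x - s) * tE p (z - s'))) := by
  have hsub : {U | Conn (op p U) univ 0 x ∧ Conn (op p U) univ 0 y ∧ Conn (op p U) univ 0 z} ⊆
      ⋃ s : V d, ⋃ s' : V d,
        (Ev p (djn (fun j => cw univ (![0, s', s, s, s'] j) (![s', s, x, y, z] j : V d))) ∪
        (Ev p (djn (fun j => cw univ (![0, s, s', s, s'] j) (![s, s', x, y, z] j : V d))) ∪
        Ev p (djn (fun j => cw univ (![0, s, s', s, s'] j) (![s, s', y, x, z] j : V d))))) := by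
    classical
    rintro U ⟨hx, hy, hz⟩
    obtain ⟨K1, h1, k1⟩ := conn_iff_wit.1 hx
    obtain ⟨K2, h2, k2⟩ := conn_iff_wit.1 hy
    obtain ⟨K3, h3, k3⟩ := conn_iff_wit.1 hz
    obtain ⟨s, s', h⟩ := tree4 (M := K1 ∪ (K2 ∪ K3))
      (cw_mono h1 Finset.subset_union_left)
      (cw_mono h2 (Finset.subset_union_left.trans Finset.subset_union_right))
      (cw_mono h3 (Finset.subset_union_right.trans Finset.subset_union_right))
    have hU : ∀ e ∈ K1 ∪ (K2 ∪ K3), U e ≤ p := by
      intro e he
      rcases Finset.mem_union.1 he with he | he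
      · exact k1 he
      · rcases Finset.mem_union.1 he with he | he
        · exact k2 he
        · exact k3 he
    refine mem_iUnion.2 ⟨s, mem_iUnion.2 ⟨s', ?_⟩⟩
    rcases h with h | h | h
    · exact Or.inl ⟨_, h, hU⟩
    · exact Or.inr (Or.inl ⟨_, h, hU⟩)
    · exact Or.inr (Or.inr ⟨_, h, hU⟩)
  refine (measure_mono hsub).trans ((measure_iUnion_le _).trans
    (ENNReal.tsum_le_tsum fun s => (measure_iUnion_le _).trans
      (ENNReal.tsum_le_tsum fun s' => ?_)))
  refine (measure_union_le _ _).trans (add_le_add ?_ ((measure_union_le _ _).trans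
    (add_le_add ?_ ?_)))
  · refine (five p _ _).trans (le_of_eq ?_)
    rw [prod5]
    simp
  · refine (five p _ _).trans (le_of_eq ?_)
    rw [prod5]
    simp
  · refine (five p _ _).trans (le_of_eq ?_)
    rw [prod5]
    simp

theorem measurable_ind (p : ℝ) (x : V d) :
    Measurable fun U : Cfg d => (Cl (op p U) univ (0 : V d)).indicator (1 : V d → ℝ≥0∞) x := by
  have h : (fun U : Cfg d => (Cl (op p U) univ (0 : V d)).indicator (1 : V d → ℝ≥0∞) x) =
      {U : Cfg d | Conn (op p U) univ 0 x}.indicator 1 := by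
    funext U
    classical
    simp only [Set.indicator_apply]
    rfl
  rw [h]
  exact measurable_one.indicator (measurableSet_conn p univ 0 x)

open Classical in
theorem ind_mul (S : Set (V d)) (x y : V d) : S.indicator (1 : V d → ℝ≥0∞) x *
    S.indicator (1 : V d → ℝ≥0∞) y = if x ∈ S ∧ y ∈ S then 1 else 0 := by
  classical
  simp only [Set.indicator_apply]
  by_cases hx : x ∈ S <;> by_cases hy : y ∈ S <;> simp [hx, hy]

end MTree_aux

open MTree_aux

theorem m2_eq (p : ℝ) : m2 d p = ∑' x : V d, ∑' y : V d,
    P d {U | Conn (op p U) univ 0 x ∧ Conn (op p U) univ 0 y} := by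
  classical
  unfold m2
  have h1 : ∀ U : Cfg d, sz (Cl (op p U) univ (0 : V d)) ^ 2 = ∑' x : V d, ∑' y : V d,
      (Cl (op p U) univ (0 : V d)).indicator (1 : V d → ℝ≥0∞) x *
        (Cl (op p U) univ (0 : V d)).indicator (1 : V d → ℝ≥0∞) y := by
    intro U
    unfold sz
    rw [sq, ← ENNReal.tsum_mul_right]
    exact tsum_congr fun x => ENNReal.tsum_mul_left.symm
  simp only [h1]
  have hm : ∀ x y : V d, Measurable fun U : Cfg d =>
      (Cl (op p U) univ (0 : V d)).indicator (1 : V d → ℝ≥0∞) x *
        (Cl (op p U) univ (0 : V d)).indicator (1 : V d → ℝ≥0∞) y :=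
    fun x y => (measurable_ind p x).mul (measurable_ind p y)
  rw [lintegral_tsum fun x => (Measurable.ennreal_tsum fun y => hm x y).aemeasurable]
  refine tsum_congr fun x => ?_
  rw [lintegral_tsum fun y => (hm x y).aemeasurable]
  refine tsum_congr fun y => ?_
  have h2 : (fun U : Cfg d => (Cl (op p U) univ (0 : V d)).indicator (1 : V d → ℝ≥0∞) x *
        (Cl (op p U) univ (0 : V d)).indicator (1 : V d → ℝ≥0∞) y) =
      {U : Cfg d | Conn (op p U) univ 0 x ∧ Conn (op p U) univ 0 y}.indicator 1 := by
    funext U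
    rw [ind_mul, Set.indicator_apply]
    rfl
  rw [h2, lintegral_indicator_one]
  exact (measurableSet_conn p univ 0 x).inter (measurableSet_conn p univ 0 y)

theorem MTree_aux.m3_eq (p : ℝ) : m3 d p = ∑' x : V d, ∑' y : V d, ∑' z : V d,
    P d {U | Conn (op p U) univ 0 x ∧ Conn (op p U) univ 0 y ∧ Conn (op p U) univ 0 z} := by
  classical
  unfold m3
  have h1 : ∀ U : Cfg d, sz (Cl (op p U) univ (0 : V d)) ^ 3 = ∑' x : V d, ∑' y : V d, ∑' z : V d,
      (Cl (op p U) univ (0 : V d)).indicator (1 : V d → ℝ≥0∞) x *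
        ((Cl (op p U) univ (0 : V d)).indicator (1 : V d → ℝ≥0∞) y *
        (Cl (op p U) univ (0 : V d)).indicator (1 : V d → ℝ≥0∞) z) := by
    intro U
    unfold sz
    rw [pow_succ', sq, ← ENNReal.tsum_mul_right]
    refine tsum_congr fun x => ?_
    rw [← ENNReal.tsum_mul_right, ← ENNReal.tsum_mul_left]
    refine tsum_congr fun y => ?_
    rw [← ENNReal.tsum_mul_left, ← ENNReal.tsum_mul_left]
  simp only [h1]
  have hm : ∀ x y z : V d, Measurable fun U : Cfg d =>
      (Cl (op p U) univ (0 : V d)).indicator (1 : V d → ℝ≥0∞) x *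
        ((Cl (op p U) univ (0 : V d)).indicator (1 : V d → ℝ≥0∞) y *
        (Cl (op p U) univ (0 : V d)).indicator (1 : V d → ℝ≥0∞) z) :=
    fun x y z => (measurable_ind p x).mul ((measurable_ind p y).mul (measurable_ind p z))
  rw [lintegral_tsum fun x => (Measurable.ennreal_tsum fun y =>
    Measurable.ennreal_tsum fun z => hm x y z).aemeasurable]
  refine tsum_congr fun x => ?_
  rw [lintegral_tsum fun y => (Measurable.ennreal_tsum fun z => hm x y z).aemeasurable]
  refine tsum_congr fun y => ?_
  rw [lintegral_tsum fun z => (hm x y z).aemeasurable]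
  refine tsum_congr fun z => ?_
  have h2 : (fun U : Cfg d => (Cl (op p U) univ (0 : V d)).indicator (1 : V d → ℝ≥0∞) x *
        ((Cl (op p U) univ (0 : V d)).indicator (1 : V d → ℝ≥0∞) y *
        (Cl (op p U) univ (0 : V d)).indicator (1 : V d → ℝ≥0∞) z)) =
      {U : Cfg d | Conn (op p U) univ 0 x ∧ Conn (op p U) univ 0 y ∧
        Conn (op p U) univ 0 z}.indicator 1 := by
    funext U
    rw [ind_mul]
    simp only [Set.indicator_apply, Pi.one_apply]
    by_cases hx : x ∈ Cl (op p U) univ (0 : V d)
    · have hx' : Conn (op p U) univ 0 x := hx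
      simp only [hx, if_true, one_mul, mem_setOf_eq, hx', true_and]
      rfl
    · have hx' : ¬ Conn (op p U) univ 0 x := hx
      simp [hx, hx']
  rw [h2, lintegral_indicator_one]
  exact (measurableSet_conn p univ 0 x).inter
    ((measurableSet_conn p univ 0 y).inter (measurableSet_conn p univ 0 z))

theorem m2_le (p : ℝ) : m2 d p ≤ XE d p ^ 3 := by
  rw [m2_eq]
  calc ∑' x : V d, ∑' y : V d, P d {U | Conn (op p U) univ 0 x ∧ Conn (op p U) univ 0 y}
      ≤ ∑' x : V d, ∑' y : V d, ∑' s : V d, tE p (s - 0) * tE p (x - s) * tE p (y - s) :=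
        ENNReal.tsum_le_tsum fun x => ENNReal.tsum_le_tsum fun y => tree3 p 0 x y
    _ = ∑' x : V d, ∑' s : V d, ∑' y : V d, tE p (s - 0) * tE p (x - s) * tE p (y - s) :=
        tsum_congr fun x => ENNReal.tsum_comm
    _ = ∑' x : V d, ∑' s : V d, tE p s * tE p (x - s) * XE d p := by
        refine tsum_congr fun x => tsum_congr fun s => ?_
        rw [ENNReal.tsum_mul_left, sum_tE, sub_zero]
    _ = ∑' s : V d, ∑' x : V d, tE p s * tE p (x - s) * XE d p := ENNReal.tsum_comm
    _ = ∑' s : V d, tE p s * XE d p * XE d p := by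
        refine tsum_congr fun s => ?_
        rw [ENNReal.tsum_mul_right, ENNReal.tsum_mul_left, sum_tE]
    _ = XE d p ^ 3 := by
        rw [ENNReal.tsum_mul_right, ENNReal.tsum_mul_right]
        unfold XE
        ring

theorem m3_le (p : ℝ) : m3 d p ≤ 3 * XE d p ^ 5 := by
  rw [MTree_aux.m3_eq]
  have hb : ∀ x y : V d, ∑' z : V d, P d {U | Conn (op p U) univ 0 x ∧ Conn (op p U) univ 0 y ∧
      Conn (op p U) univ 0 z} ≤ ∑' s : V d, ∑' s' : V d,
        (tE p s' * tE p (s - s') * tE p (x - s) * tE p (y - s) * XE d p +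
        (tE p s * tE p (s' - s) * tE p (x - s') * tE p (y - s) * XE d p +
        tE p s * tE p (s' - s) * tE p (y - s') * tE p (x - s) * XE d p)) := by
    intro x y
    refine (ENNReal.tsum_le_tsum fun z => prob4 p x y z).trans (le_of_eq ?_)
    rw [ENNReal.tsum_comm]
    refine tsum_congr fun s => ?_
    rw [ENNReal.tsum_comm]
    refine tsum_congr fun s' => ?_
    rw [ENNReal.tsum_add, ENNReal.tsum_add, ENNReal.tsum_mul_left, ENNReal.tsum_mul_left,
      ENNReal.tsum_mul_left, sum_tE]
  have hc : ∀ x : V d, ∑' y : V d, ∑' z : V d, P d {U | Conn (op p U) univ 0 x ∧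
      Conn (op p U) univ 0 y ∧ Conn (op p U) univ 0 z} ≤ ∑' s : V d, ∑' s' : V d,
        (tE p s' * tE p (s - s') * tE p (x - s) * XE d p * XE d p +
        (tE p s * tE p (s' - s) * tE p (x - s') * XE d p * XE d p +
        tE p s * tE p (s' - s) * XE d p * tE p (x - s) * XE d p)) := by
    intro x
    refine (ENNReal.tsum_le_tsum fun y => hb x y).trans (le_of_eq ?_)
    rw [ENNReal.tsum_comm]
    refine tsum_congr fun s => ?_
    rw [ENNReal.tsum_comm]
    refine tsum_congr fun s' => ?_
    rw [ENNReal.tsum_add, ENNReal.tsum_add, ENNReal.tsum_mul_right, ENNReal.tsum_mul_right,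
      ENNReal.tsum_mul_right, ENNReal.tsum_mul_left, ENNReal.tsum_mul_left,
      ENNReal.tsum_mul_right, ENNReal.tsum_mul_left, sum_tE, sum_tE]
  refine (ENNReal.tsum_le_tsum fun x => hc x).trans (le_of_eq ?_)
  rw [ENNReal.tsum_comm]
  have h1 : ∀ s : V d, ∑' x : V d, ∑' s' : V d,
        (tE p s' * tE p (s - s') * tE p (x - s) * XE d p * XE d p +
        (tE p s * tE p (s' - s) * tE p (x - s') * XE d p * XE d p +
        tE p s * tE p (s' - s) * XE d p * tE p (x - s) * XE d p)) = ∑' s' : V d,
        (tE p s' * tE p (s - s') * XE d p * XE d p * XE d p +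
        (tE p s * tE p (s' - s) * XE d p * XE d p * XE d p +
        tE p s * tE p (s' - s) * XE d p * XE d p * XE d p)) := by
    intro s
    rw [ENNReal.tsum_comm]
    refine tsum_congr fun s' => ?_
    rw [ENNReal.tsum_add, ENNReal.tsum_add]
    simp only [ENNReal.tsum_mul_right, ENNReal.tsum_mul_left, sum_tE]
  rw [tsum_congr h1]
  have h2 : ∀ s : V d, ∑' s' : V d,
        (tE p s' * tE p (s - s') * XE d p * XE d p * XE d p +
        (tE p s * tE p (s' - s) * XE d p * XE d p * XE d p +
        tE p s * tE p (s' - s) * XE d p * XE d p * XE d p)) =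
      (∑' s' : V d, tE p s' * tE p (s - s')) * XE d p * XE d p * XE d p +
        (tE p s * XE d p * XE d p * XE d p * XE d p +
        tE p s * XE d p * XE d p * XE d p * XE d p) := by
    intro s
    rw [ENNReal.tsum_add, ENNReal.tsum_add]
    simp only [ENNReal.tsum_mul_right, ENNReal.tsum_mul_left, sum_tE]
  rw [tsum_congr h2, ENNReal.tsum_add, ENNReal.tsum_add]
  simp only [ENNReal.tsum_mul_right]
  have h3 : ∑' s : V d, ∑' s' : V d, tE p s' * tE p (s - s') = XE d p * XE d p := by
    rw [ENNReal.tsum_comm]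
    simp only [ENNReal.tsum_mul_left, sum_tE, ENNReal.tsum_mul_right]
    rfl
  have h4 : ∑' s : V d, tE p s = XE d p := rfl
  rw [h3, h4]
  ring

/-- error term: both `u` and `a` in the cluster of `0`, `a` connected to `u + e` -/
theorem tri_err (p : ℝ) (e : V d) :
    ∑' u : V d, ∑' a : V d, P d {U | Conn (op p U) univ 0 u ∧ Conn (op p U) univ 0 a} *
      tE p (a - (u + e)) ≤ XE d p * T3 p e := by
  calc ∑' u : V d, ∑' a : V d, P d {U | Conn (op p U) univ 0 u ∧ Conn (op p U) univ 0 a} *
      tE p (a - (u + e))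
      ≤ ∑' u : V d, ∑' a : V d, (∑' s : V d, tE p (s - 0) * tE p (u - s) * tE p (a - s)) *
        tE p (a - (u + e)) := ENNReal.tsum_le_tsum fun u => ENNReal.tsum_le_tsum fun a =>
          mul_le_mul_left (tree3 p 0 u a) _
    _ = ∑' u : V d, ∑' a : V d, ∑' s : V d, tE p s * (tE p (u - s) * tE p (a - s) *
        tE p (a - (u + e))) := by
        refine tsum_congr fun u => tsum_congr fun a => ?_
        rw [← ENNReal.tsum_mul_right]
        refine tsum_congr fun s => ?_
        rw [sub_zero]
        ring
    _ = ∑' u : V d, ∑' s : V d, ∑' a : V d, tE p s * (tE p (u - s) * tE p (a - s) *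
        tE p (a - (u + e))) := tsum_congr fun u => ENNReal.tsum_comm
    _ = ∑' s : V d, ∑' u : V d, ∑' a : V d, tE p s * (tE p (u - s) * tE p (a - s) *
        tE p (a - (u + e))) := ENNReal.tsum_comm
    _ = ∑' s : V d, tE p s * T3 p e := by
        refine tsum_congr fun s => ?_
        simp only [ENNReal.tsum_mul_left]
        congr 1
        have hshift : ∀ u : V d, ∑' a : V d, tE p (u - s) * tE p (a - s) * tE p (a - (u + e)) =
            (fun u' : V d => ∑' a' : V d, tE p a' * tE p (u' + e - a') * tE p u') (u - s) := by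
          intro u
          show _ = ∑' a' : V d, tE p a' * tE p (u - s + e - a') * tE p (u - s)
          rw [← sum_sub (fun a' : V d => tE p a' * tE p (u - s + e - a') * tE p (u - s)) s]
          refine tsum_congr fun a => ?_
          rw [tE_comm p a (u + e)]
          rw [show u - s + e - (a - s) = u + e - a by abel]
          ring
        rw [tsum_congr hshift,
          sum_sub (fun u' : V d => ∑' a' : V d, tE p a' * tE p (u' + e - a') * tE p u') s]
        unfold T3
        rw [ENNReal.tsum_comm]
        refine tsum_congr fun x => ?_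
        rw [← sum_add (fun y : V d => tE p x * tE p (y - x) * tE p (e - y)) e]
        refine tsum_congr fun y => ?_
        rw [show e - (y + e) = -y by abel, tE_neg]
    _ = XE d p * T3 p e := by rw [ENNReal.tsum_mul_right]; rfl

/-- error term: `a, x` in the cluster of `v`, `a` connected to `v'` -/
theorem tri_err' (p : ℝ) (v v' : V d) :
    ∑' x : V d, ∑' a : V d, P d {U | Conn (op p U) univ v x ∧ Conn (op p U) univ v a} *
      tE p (a - v') ≤ XE d p * T3 p (v' - v) := by
  calc ∑' x : V d, ∑' a : V d, P d {U | Conn (op p U) univ v x ∧ Conn (op p U) univ v a} *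
      tE p (a - v')
      ≤ ∑' x : V d, ∑' a : V d, (∑' s : V d, tE p (s - v) * tE p (x - s) * tE p (a - s)) *
        tE p (a - v') := ENNReal.tsum_le_tsum fun u => ENNReal.tsum_le_tsum fun a =>
          mul_le_mul_left (tree3 p v u a) _
    _ = ∑' x : V d, ∑' a : V d, ∑' s : V d, tE p (x - s) * (tE p (s - v) * tE p (a - s) *
        tE p (a - v')) := by
        refine tsum_congr fun u => tsum_congr fun a => ?_
        rw [← ENNReal.tsum_mul_right]
        refine tsum_congr fun s => ?_
        ring
    _ = ∑' a : V d, ∑' x : V d, ∑' s : V d, tE p (x - s) * (tE p (s - v) * tE p (a - s) *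
        tE p (a - v')) := ENNReal.tsum_comm
    _ = ∑' a : V d, ∑' s : V d, ∑' x : V d, tE p (x - s) * (tE p (s - v) * tE p (a - s) *
        tE p (a - v')) := tsum_congr fun a => ENNReal.tsum_comm
    _ = ∑' a : V d, ∑' s : V d, XE d p * (tE p (s - v) * tE p (a - s) * tE p (a - v')) := by
        refine tsum_congr fun a => tsum_congr fun s => ?_
        rw [ENNReal.tsum_mul_right, sum_tE]
    _ = XE d p * ∑' a : V d, ∑' s : V d, tE p (s - v) * tE p (a - s) * tE p (a - v') := by
        simp only [ENNReal.tsum_mul_left]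
    _ = XE d p * T3 p (v' - v) := by
        congr 1
        rw [ENNReal.tsum_comm]
        unfold T3
        rw [← sum_sub (fun x : V d => ∑' y : V d, tE p x * tE p (y - x) * tE p (v' - v - y)) v]
        refine tsum_congr fun s => ?_
        rw [← sum_sub (fun y : V d => tE p (s - v) * tE p (y - (s - v)) * tE p (v' - v - y)) v]
        refine tsum_congr fun a => ?_
        rw [tE_comm p a v', show a - v - (s - v) = a - s by abel,
          show v' - v - (a - v) = v' - a by abel]

end Pool.Agent.helper88.FPM
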