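import Pool.Agent.helper88.FPM.MBasic
import Pool.Agent.helper88.FPM.MTree

/-! FP project, module M3b: lower bound of the increments of the susceptibility. -/

set_option autoImplicit false

open MeasureTheory Set
open scoped ENNReal

namespace Pool.Agent.helper88.FPM

open Pool.Agent.helper55.FP

variable {d : ℕ}

namespace Low

/-! ### a Bonferroni inequality -/

theorem bonf {ι Ω : Type*} [Countable ι] [DecidableEq ι] [MeasurableSpace Ω] (μ : Measure Ω) (A : ι → Set Ω)
    (hA : ∀ i, MeasurableSet (A i)) :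
    ∑' i, μ (A i) ≤ μ (⋃ i, A i) + ∑' i, ∑' j, (if i = j then 0 else μ (A i ∩ A j)) := by
  have h1 : ∑' i, μ (A i) = ∫⁻ ω, ∑' i, (A i).indicator 1 ω ∂μ := by
    rw [lintegral_tsum fun i => (measurable_one.indicator (hA i)).aemeasurable]
    exact tsum_congr fun i => (lintegral_indicator_one (hA i)).symm
  have h2 : μ (⋃ i, A i) = ∫⁻ ω, (⋃ i, A i).indicator 1 ω ∂μ :=
    (lintegral_indicator_one (MeasurableSet.iUnion hA)).symm
  have hm : ∀ i j, Measurable fun ω => (if i = j then 0 else (A i ∩ A j).indicator 1 ω : ℝ≥0∞) := by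
    intro i j
    by_cases h : i = j
    · simp [h]
    · simp only [h, if_false]
      exact measurable_one.indicator ((hA i).inter (hA j))
  have h3 : ∑' i, ∑' j, (if i = j then 0 else μ (A i ∩ A j))
      = ∫⁻ ω, ∑' i, ∑' j, (if i = j then 0 else (A i ∩ A j).indicator 1 ω) ∂μ := by
    rw [lintegral_tsum fun i => (Measurable.tsum (hm i)).aemeasurable]
    refine tsum_congr fun i => ?_
    rw [lintegral_tsum fun j => (hm i j).aemeasurable]
    refine tsum_congr fun j => ?_
    by_cases h : i = j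
    · simp [h]
    · simp only [h, if_false]
      exact (lintegral_indicator_one ((hA i).inter (hA j))).symm
  rw [h1, h2, h3, ← lintegral_add_left (measurable_one.indicator (MeasurableSet.iUnion hA))]
  refine lintegral_mono fun ω => ?_
  by_cases hω : ω ∈ ⋃ i, A i
  · obtain ⟨i0, hi0⟩ := mem_iUnion.1 hω
    rw [indicator_of_mem hω, Pi.one_apply]
    have h4 : ∀ i, (A i).indicator (1 : Ω → ℝ≥0∞) ω = (if i = i0 then 1 else 0) +
        (if i = i0 then 0 else (A i).indicator 1 ω) := by
      intro i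
      by_cases h : i = i0
      · subst h
        rw [if_pos rfl, if_pos rfl, add_zero, indicator_of_mem hi0]
        rfl
      · rw [if_neg h, if_neg h, zero_add]
    rw [tsum_congr h4, ENNReal.tsum_add, tsum_ite_eq]
    refine add_le_add le_rfl (ENNReal.tsum_le_tsum fun i => ?_)
    refine le_trans ?_ (ENNReal.le_tsum i0)
    by_cases h : i = i0
    · simp [h]
    · simp only [h, if_false]
      by_cases hi : ω ∈ A i
      · rw [indicator_of_mem hi]
        exact (indicator_of_mem (s := A i ∩ A i0) ⟨hi, hi0⟩ (1 : Ω → ℝ≥0∞)).ge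
      · simp [hi]
  · have : ∀ i, (A i).indicator (1 : Ω → ℝ≥0∞) ω = 0 := fun i =>
      indicator_of_notMem (fun h => hω (mem_iUnion.2 ⟨i, h⟩)) _
    simp_rw [this]
    simp

/-! ### closing edges -/

open Classical in
/-- close the edges of `S` -/
noncomputable def cls (p : ℝ) (S : Set (E d)) (U : Cfg d) : Cfg d :=
  fun e => if e ∈ S then p + 1 else U e

theorem measurable_cls (p : ℝ) (S : Set (E d)) : Measurable (cls p S) := by
  refine measurable_pi_iff.2 fun e => ?_
  by_cases h : e ∈ S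
  · simp [cls, h]
  · simpa [cls, h] using measurable_pi_apply e

theorem op_cls_sub (p : ℝ) (S : Set (E d)) (U : Cfg d) : op p (cls p S U) ⊆ op p U := by
  intro e he
  have he' : cls p S U e ≤ p := he
  by_cases h : e ∈ S
  · simp only [cls, h, if_true] at he'
    linarith
  · show U e ≤ p
    simpa only [cls, h, if_false] using he'

theorem op_cls_eq {p : ℝ} {S : Set (E d)} {U : Cfg d} (hS : ∀ e ∈ S, p < U e) :
    op p (cls p S U) = op p U := by
  refine Subset.antisymm (op_cls_sub p S U) fun e he => ?_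
  have he' : U e ≤ p := he
  have h : e ∉ S := fun h => absurd (hS e h) (not_lt.2 he')
  show cls p S U e ≤ p
  simpa only [cls, h, if_false] using he'

theorem cls_congr {p : ℝ} {S : Set (E d)} {U U' : Cfg d} (h : ∀ e ∈ Sᶜ, U e = U' e) :
    cls p S U = cls p S U' := by
  funext e
  by_cases he : e ∈ S
  · simp [cls, he]
  · simp [cls, he, h e he]

theorem interE {A B : Set (Cfg d)} {S T : Set (E d)} (hA : MeasurableSet A)
    (hB : MeasurableSet B) (hAS : DependsOn (fun U => U ∈ A) S)
    (hBT : DependsOn (fun U => U ∈ B) T) (hST : Disjoint S T) :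
    P d (A ∩ B) = P d A * P d B := by
  have h := congrArg ENNReal.ofReal (prob_inter hA hB hAS hBT hST)
  rwa [ENNReal.ofReal_mul measureReal_nonneg, ofReal_measureReal, ofReal_measureReal,
    ofReal_measureReal] at h

/-- the level of the edge `f` is in `(p, q]` -/
def Lv (p q : ℝ) (f : E d) : Set (Cfg d) := {U | p < U f ∧ U f ≤ q}

theorem measurableSet_Lv (p q : ℝ) (f : E d) : MeasurableSet (Lv p q f) :=
  (measurableSet_lt measurable_const (measurable_pi_apply f)).inter
    (measurableSet_le (measurable_pi_apply f) measurable_const)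

theorem dependsOn_Lv (p q : ℝ) (f : E d) : DependsOn (fun U => U ∈ Lv p q f) {f} := by
  intro U U' h
  have := h f rfl
  simp only [Lv, mem_ofPred_eq, this]

theorem prob_Lv (f : E d) {p q : ℝ} (hp : 0 ≤ p) (hpq : p ≤ q) (hq : q ≤ 1) :
    P d (Lv p q f) = ENNReal.ofReal (q - p) := by
  have := congrArg ENNReal.ofReal (prob_level f hp hpq hq)
  rwa [ofReal_measureReal] at this

theorem single_ge {p q : ℝ} (hp : 0 ≤ p) (hpq : p ≤ q) (hq : q ≤ 1) (f : E d)
    {Q : Set (E d) → Prop} (hB : MeasurableSet {U : Cfg d | Q (op p U)})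
    (hcl : ∀ U : Cfg d, Q (op p U) → p < U f) :
    ENNReal.ofReal (q - p) * P d {U : Cfg d | Q (op p U)} ≤
      P d (Lv p q f ∩ {U : Cfg d | Q (op p U)}) := by
  have hB' : MeasurableSet (cls p {f} ⁻¹' {U : Cfg d | Q (op p U)}) := measurable_cls p {f} hB
  have hdep : DependsOn (fun U => U ∈ cls p {f} ⁻¹' {U : Cfg d | Q (op p U)}) ({f}ᶜ : Set (E d)) := by
    intro U U' h
    simp only [mem_preimage, cls_congr h]
  have h1 := interE (measurableSet_Lv p q f) hB' (dependsOn_Lv p q f) hdep
    (disjoint_compl_right)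
  rw [prob_Lv f hp hpq hq] at h1
  calc ENNReal.ofReal (q - p) * P d {U : Cfg d | Q (op p U)}
      ≤ ENNReal.ofReal (q - p) * P d (cls p {f} ⁻¹' {U : Cfg d | Q (op p U)}) := by
        gcongr
        intro U hU
        have hU' : Q (op p U) := hU
        show Q (op p (cls p {f} U))
        rwa [op_cls_eq]
        intro e he
        rw [mem_singleton_iff.1 he]
        exact hcl U hU'
    _ = P d (Lv p q f ∩ cls p {f} ⁻¹' {U : Cfg d | Q (op p U)}) := h1.symm
    _ ≤ P d (Lv p q f ∩ {U : Cfg d | Q (op p U)}) := by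
        refine measure_mono fun U hU => ⟨hU.1, ?_⟩
        have hU' : Q (op p (cls p {f} U)) := hU.2
        rwa [op_cls_eq] at hU'
        intro e he
        rw [mem_singleton_iff.1 he]
        exact hU.1.1

theorem pair_le {p q : ℝ} (hp : 0 ≤ p) (hpq : p ≤ q) (hq : q ≤ 1) {f f' : E d} (hff : f ≠ f')
    {Q : Set (E d) → Prop} (hB : MeasurableSet {U : Cfg d | Q (op p U)}) :
    P d (Lv p q f ∩ Lv p q f' ∩ {U : Cfg d | Q (op p U)}) ≤
      ENNReal.ofReal (q - p) ^ 2 * P d {U : Cfg d | Q (op p (cls p {f, f'} U))} := by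
  have hB' : MeasurableSet (cls p {f, f'} ⁻¹' {U : Cfg d | Q (op p U)}) :=
    measurable_cls p {f, f'} hB
  have hdep : DependsOn (fun U => U ∈ cls p {f, f'} ⁻¹' {U : Cfg d | Q (op p U)})
      ({f, f'}ᶜ : Set (E d)) := by
    intro U U' h
    simp only [mem_preimage, cls_congr h]
  have hL : DependsOn (fun U => U ∈ Lv p q f ∩ Lv p q f') ({f, f'} : Set (E d)) := by
    intro U U' h
    have h1 := h f (by simp)
    have h2 := h f' (by simp)
    simp only [Lv, mem_inter_iff, mem_ofPred_eq, h1, h2]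
  have h1 := interE ((measurableSet_Lv p q f).inter (measurableSet_Lv p q f')) hB' hL hdep
    (disjoint_compl_right)
  have h2 := interE (measurableSet_Lv p q f) (measurableSet_Lv p q f') (dependsOn_Lv p q f)
    (dependsOn_Lv p q f') (disjoint_singleton.2 hff)
  rw [prob_Lv f hp hpq hq, prob_Lv f' hp hpq hq, ← sq] at h2
  rw [h2] at h1
  have h3 : P d (Lv p q f ∩ Lv p q f' ∩ {U : Cfg d | Q (op p U)}) ≤
      P d (Lv p q f ∩ Lv p q f' ∩ cls p {f, f'} ⁻¹' {U : Cfg d | Q (op p U)}) := by
    refine measure_mono fun U hU => ⟨hU.1, ?_⟩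
    show Q (op p (cls p {f, f'} U))
    rw [op_cls_eq]
    · exact hU.2
    · rintro e (rfl | he)
      · exact hU.1.1.1
      · rw [mem_singleton_iff.1 he]
        exact hU.1.2.1
  exact h3.trans h1.le

/-! ### witnesses inside clusters -/

theorem conn_inner {O : Set (E d)} {a b : V d} (h : Conn O univ a b) :
    Conn (O ∩ inner (Cl O univ a)) univ a b := by
  obtain ⟨-, h⟩ := h
  induction h with
  | refl => exact Conn.refl (mem_univ a)
  | @tail c b hac hs ih =>
    have hc : Conn O univ a c := ⟨mem_univ a, hac⟩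
    have hb : Conn O univ a b := hc.snoc hs
    obtain ⟨h1, h2, e, he, hj⟩ := hs
    refine ih.snoc ⟨h1, h2, e, ⟨he, ?_⟩, hj⟩
    rcases hj with ⟨h3, h4⟩ | ⟨h3, h4⟩
    · exact ⟨h3 ▸ hc, h4 ▸ hb⟩
    · exact ⟨h3 ▸ hb, h4 ▸ hc⟩

theorem two_clusters_dj {O O' : Set (E d)} (hO : O ⊆ O') {u u' v x : V d}
    (h1 : Conn O univ 0 u) (h2 : Conn O univ 0 u') (h3 : Conn O univ v x)
    (h4 : ¬ Conn O univ 0 v) :
    ∃ M ∈ dj (cw univ 0 u ∩ cw univ 0 u') (cw univ v x), (↑M : Set (E d)) ⊆ O' := by
  classical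
  obtain ⟨K1, hK1, hK1O⟩ := conn_iff_wit.1 (conn_inner h1)
  obtain ⟨K2, hK2, hK2O⟩ := conn_iff_wit.1 (conn_inner h2)
  obtain ⟨K3, hK3, hK3O⟩ := conn_iff_wit.1 (conn_inner h3)
  refine ⟨(K1 ∪ K2) ∪ K3, ⟨K1 ∪ K2, ⟨?_, ?_⟩, K3, hK3, ?_, Finset.subset_union_left,
    Finset.subset_union_right⟩, ?_⟩
  · exact cw_mono hK1 Finset.subset_union_left
  · exact cw_mono hK2 Finset.subset_union_right
  · rw [Finset.disjoint_left]
    intro e he he3
    have hv : e.1 ∈ Cl O univ v := (hK3O he3).2.1
    have h0 : e.1 ∈ Cl O univ 0 := by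
      rcases Finset.mem_union.1 he with he | he
      · exact (hK1O he).2.1
      · exact (hK2O he).2.1
    exact h4 (Conn.trans h0 (Conn.symm hv))
  · intro e he
    simp only [Finset.coe_union, mem_union, Finset.mem_coe] at he
    rcases he with (he | he) | he
    · exact hO (hK1O he).1
    · exact hO (hK2O he).1
    · exact hO (hK3O he).1

/-- `P(0 ↔ u, 0 ↔ u')` -/
noncomputable def P2 (p : ℝ) (u u' : V d) : ℝ≥0∞ :=
  P d {U | Conn (op p U) univ 0 u ∧ Conn (op p U) univ 0 u'}

theorem pair_bk (p : ℝ) (S : Set (E d)) (u u' v x : V d) :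
    P d {U : Cfg d | Conn (op p (cls p S U)) univ 0 u ∧ Conn (op p (cls p S U)) univ 0 u' ∧
      Conn (op p (cls p S U)) univ v x ∧ ¬ Conn (op p (cls p S U)) univ 0 v} ≤
      P2 p u u' * tE p (x - v) := by
  refine le_trans (measure_mono ?_) (le_trans (bkE p (cw univ 0 u ∩ cw univ 0 u') (cw univ v x)) ?_)
  · rintro U ⟨h1, h2, h3, h4⟩
    obtain ⟨M, hM, hMO⟩ := two_clusters_dj (op_cls_sub p S U) h1 h2 h3 h4
    exact ⟨M, hM, fun e he => hMO he⟩
  · have e1 : P d (Ev p (cw univ 0 u ∩ cw univ 0 u')) ≤ P2 p u u' := by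
      refine measure_mono ?_
      rintro U ⟨K, ⟨hK1, hK2⟩, hK⟩
      exact ⟨conn_iff_wit.2 ⟨K, hK1, fun e he => hK e he⟩,
        conn_iff_wit.2 ⟨K, hK2, fun e he => hK e he⟩⟩
    have e2 : P d (Ev p (cw univ v x)) = tE p (x - v) := by
      rw [← cE_univ, cE]
      congr 1
      ext U
      exact conn_op_iff.symm
    rw [e2]
    gcongr

/-! ### exploration of the cluster of `0` -/

/-- `u` in the cluster of `0`, `v` not, `x` in the cluster of `v` -/
def QB (u v x : V d) (O : Set (E d)) : Prop :=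
  Conn O univ 0 u ∧ ¬ Conn O univ 0 v ∧ Conn O univ v x

theorem measurableSet_QB (p : ℝ) (u v x : V d) : MeasurableSet {U : Cfg d | QB u v x (op p U)} :=
  (measurableSet_conn p univ 0 u).inter
    ((measurableSet_conn p univ 0 v).compl.inter (measurableSet_conn p univ v x))

/-- probability of the value `F` of the cluster of `0` -/
noncomputable def wF (p : ℝ) (F : Finset (V d)) : ℝ≥0∞ :=
  P d {U | Cl (op p U) univ (0 : V d) = (↑F : Set (V d))}

theorem cl_mem {p : ℝ} {U : Cfg d} {F : Finset (V d)}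
    (hU : Cl (op p U) univ (0 : V d) = (↑F : Set (V d))) (u : V d) :
    Conn (op p U) univ 0 u ↔ u ∈ F := by
  rw [← Finset.mem_coe, ← hU]
  rfl

open Classical in
theorem sum_one {p : ℝ} (hX : XE d p ≠ ∞) (u : V d) :
    ∑' F : Finset (V d), (if u ∈ F then wF p F else 0) = tE p u := by
  rw [tE, cE, ← explore_sum p hX univ 0 (measurableSet_conn p univ 0 u)]
  refine tsum_congr fun F => ?_
  split_ifs with h
  · rw [wF]
    congr 1
    ext U
    exact ⟨fun hU => ⟨hU, (cl_mem hU u).2 h⟩, fun hU => hU.1⟩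
  · symm
    have : ({U | Cl (op p U) univ (0 : V d) = (↑F : Set (V d))} ∩ {U | Conn (op p U) univ 0 u}) = ∅ :=
      eq_empty_of_forall_notMem fun U hU => h ((cl_mem hU.1 u).1 hU.2)
    rw [this, measure_empty]

open Classical in
theorem sum_two {p : ℝ} (hX : XE d p ≠ ∞) (u a : V d) :
    ∑' F : Finset (V d), (if u ∈ F then (if a ∈ F then wF p F else 0) else 0) = P2 p u a := by
  refine Eq.trans ?_ (explore_sum p hX univ 0 ((measurableSet_conn p univ 0 u).inter
    (measurableSet_conn p univ 0 a)))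
  refine tsum_congr fun F => ?_
  split_ifs with h h'
  · rw [wF]
    congr 1
    ext U
    exact ⟨fun hU => ⟨hU, (cl_mem hU u).2 h, (cl_mem hU a).2 h'⟩, fun hU => hU.1⟩
  · symm
    have : ({U | Cl (op p U) univ (0 : V d) = (↑F : Set (V d))} ∩
        ({U | Conn (op p U) univ 0 u} ∩ {U | Conn (op p U) univ 0 a})) = ∅ :=
      eq_empty_of_forall_notMem fun U hU => h' ((cl_mem hU.1 a).1 hU.2.2)
    exact (congrArg (P d) this).trans measure_empty
  · symm
    have : ({U | Cl (op p U) univ (0 : V d) = (↑F : Set (V d))} ∩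
        ({U | Conn (op p U) univ 0 u} ∩ {U | Conn (op p U) univ 0 a})) = ∅ :=
      eq_empty_of_forall_notMem fun U hU => h ((cl_mem hU.1 u).1 hU.2.1)
    exact (congrArg (P d) this).trans measure_empty

open Classical in
theorem sum_QB {p : ℝ} (hX : XE d p ≠ ∞) (u v x : V d) :
    ∑' F : Finset (V d), (if u ∈ F then wF p F * cE p ((↑F : Set (V d))ᶜ) v x else 0)
      = P d {U : Cfg d | QB u v x (op p U)} := by
  rw [← explore_sum p hX univ 0 (measurableSet_QB p u v x)]
  refine tsum_congr fun F => ?_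
  split_ifs with h
  · by_cases hv : v ∈ F
    · have h1 : cE p ((↑F : Set (V d))ᶜ) v x = 0 := by
        have : {U : Cfg d | Conn (op p U) ((↑F : Set (V d))ᶜ) v x} = ∅ :=
          eq_empty_of_forall_notMem fun U hU => hU.left (by simpa using hv)
        rw [cE, this, measure_empty]
      have h2 : ({U | Cl (op p U) univ (0 : V d) = (↑F : Set (V d))} ∩
          {U : Cfg d | QB u v x (op p U)}) = ∅ :=
        eq_empty_of_forall_notMem fun U hU => hU.2.2.1 ((cl_mem hU.1 v).2 hv)
      rw [h1, h2, measure_empty, mul_zero]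
    · rw [wF, cE, ← explore_mul p (↑F : Set (V d)) (mem_univ (0 : V d))
        (measurableSet_conn p ((↑F : Set (V d))ᶜ) v x)
        (dependsOn_conn p ((↑F : Set (V d))ᶜ) v x)]
      congr 1
      ext U
      constructor
      · rintro ⟨hU, hUx⟩
        refine ⟨hU, (cl_mem hU u).2 h, fun hc => hv ((cl_mem hU v).1 hc), ?_⟩
        rw [conn_off hU (by simpa using hv), ← compl_eq_univ_sdiff]
        exact hUx
      · rintro ⟨hU, -, -, hUx⟩
        refine ⟨hU, ?_⟩
        rw [conn_off hU (by simpa using hv), ← compl_eq_univ_sdiff] at hUx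
        exact hUx
  · symm
    have : ({U | Cl (op p U) univ (0 : V d) = (↑F : Set (V d))} ∩
        {U : Cfg d | QB u v x (op p U)}) = ∅ :=
      eq_empty_of_forall_notMem fun U hU => h ((cl_mem hU.1 u).1 hU.2.1)
    rw [this, measure_empty]

theorem tsum_sub (p : ℝ) (v : V d) : ∑' x : V d, tE p (x - v) = XE d p :=
  (Equiv.subRight v).tsum_eq (fun x => tE p x)

open Classical in
theorem off_sum (p : ℝ) (F : Finset (V d)) (v : V d) :
    XE d p ≤ ∑' x : V d, cE p ((↑F : Set (V d))ᶜ) v x +
      XE d p * ∑' a : V d, (if a ∈ F then tE p (a - v) else 0) := by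
  calc XE d p = ∑' x : V d, tE p (x - v) := (tsum_sub p v).symm
    _ ≤ ∑' x : V d, (cE p ((↑F : Set (V d))ᶜ) v x + ∑' a : V d,
        (↑F : Set (V d)).indicator (fun a => tE p (a - v) * tE p (x - a)) a) :=
        ENNReal.tsum_le_tsum fun x => cE_off p _ v x
    _ = ∑' x : V d, cE p ((↑F : Set (V d))ᶜ) v x + ∑' a : V d, ∑' x : V d,
        (↑F : Set (V d)).indicator (fun a => tE p (a - v) * tE p (x - a)) a := by
        rw [ENNReal.tsum_add, ENNReal.tsum_comm]
    _ = _ := by
        congr 1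
        rw [← ENNReal.tsum_mul_left]
        refine tsum_congr fun a => ?_
        by_cases ha : a ∈ F
        · have : ∀ x : V d, (↑F : Set (V d)).indicator (fun a => tE p (a - v) * tE p (x - a)) a
              = tE p (a - v) * tE p (x - a) := fun x =>
            indicator_of_mem (Finset.mem_coe.2 ha) (fun a => tE p (a - v) * tE p (x - a))
          rw [if_pos ha, tsum_congr this, ENNReal.tsum_mul_left, tsum_sub, mul_comm]
        · have : ∀ x : V d, (↑F : Set (V d)).indicator (fun a => tE p (a - v) * tE p (x - a)) a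
              = 0 := fun x =>
            indicator_of_notMem (fun h => ha (Finset.mem_coe.1 h)) _
          rw [if_neg ha, tsum_congr this, tsum_zero, mul_zero]

open Classical in
theorem low_fix {p : ℝ} (hX : XE d p ≠ ∞) (u v : V d) :
    tE p u * XE d p ≤ ∑' x : V d, P d {U : Cfg d | QB u v x (op p U)} +
      XE d p * ∑' a : V d, P2 p u a * tE p (a - v) := by
  have e1 : tE p u * XE d p = ∑' F : Finset (V d), (if u ∈ F then wF p F * XE d p else 0) := by
    rw [← sum_one hX u, ← ENNReal.tsum_mul_right]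
    exact tsum_congr fun F => by rw [ite_mul, zero_mul]
  have e2 : ∑' x : V d, P d {U : Cfg d | QB u v x (op p U)} = ∑' F : Finset (V d),
      (if u ∈ F then wF p F * ∑' x : V d, cE p ((↑F : Set (V d))ᶜ) v x else 0) := by
    rw [tsum_congr fun x => (sum_QB hX u v x).symm, ENNReal.tsum_comm]
    refine tsum_congr fun F => ?_
    split_ifs with h
    · rw [ENNReal.tsum_mul_left]
    · simp
  have e3 : XE d p * ∑' a : V d, P2 p u a * tE p (a - v) = ∑' F : Finset (V d),
      (if u ∈ F then wF p F * (XE d p * ∑' a : V d, (if a ∈ F then tE p (a - v) else 0)) else 0) := by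
    have : ∀ a : V d, P2 p u a * tE p (a - v) = ∑' F : Finset (V d),
        (if u ∈ F then wF p F * (if a ∈ F then tE p (a - v) else 0) else 0) := by
      intro a
      rw [← sum_two hX u a, ← ENNReal.tsum_mul_right]
      refine tsum_congr fun F => ?_
      split_ifs <;> simp
    rw [tsum_congr this, ENNReal.tsum_comm, ← ENNReal.tsum_mul_left]
    refine tsum_congr fun F => ?_
    split_ifs with h
    · rw [ENNReal.tsum_mul_left]
      ring
    · simp
  rw [e1, e2, e3, ← ENNReal.tsum_add]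
  refine ENNReal.tsum_le_tsum fun F => ?_
  split_ifs with h
  · rw [← mul_add]
    gcongr
    exact off_sum p F v
  · simp

/-- lower bound of the sum over `u`, `x`, in direction `e` -/
theorem low_dir {p : ℝ} (hX : XE d p ≠ ∞) (e : V d) {η : ℝ≥0∞} (hη : T3 p e ≤ η) :
    XE d p ^ 2 ≤ ∑' u : V d, ∑' x : V d, P d {U : Cfg d | QB u (u + e) x (op p U)} +
      η * XE d p ^ 2 := by
  calc XE d p ^ 2 = ∑' u : V d, tE p u * XE d p := by rw [ENNReal.tsum_mul_right, sq]; rfl
    _ ≤ ∑' u : V d, (∑' x : V d, P d {U : Cfg d | QB u (u + e) x (op p U)} +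
        XE d p * ∑' a : V d, P2 p u a * tE p (a - (u + e))) :=
        ENNReal.tsum_le_tsum fun u => low_fix hX u (u + e)
    _ = ∑' u : V d, ∑' x : V d, P d {U : Cfg d | QB u (u + e) x (op p U)} +
        XE d p * ∑' u : V d, ∑' a : V d, P2 p u a * tE p (a - (u + e)) := by
        rw [ENNReal.tsum_add, ENNReal.tsum_mul_left]
    _ ≤ ∑' u : V d, ∑' x : V d, P d {U : Cfg d | QB u (u + e) x (op p U)} +
        XE d p * (XE d p * T3 p e) := by
        gcongr
        exact tri_err p e
    _ ≤ ∑' u : V d, ∑' x : V d, P d {U : Cfg d | QB u (u + e) x (op p U)} +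
        XE d p * (XE d p * η) := by gcongr
    _ = _ := by ring

/-! ### the sprinkled events -/

/-- starting point and direction of an exit -/
abbrev Ix (d : ℕ) := V d × {e // e ∈ dirs d}

theorem exists_edge (i : Ix d) : ∃ f : E d, Joins f i.1 (i.1 + i.2.1) := by
  have : Adj i.1 (i.1 + i.2.1) := by
    rw [adj_iff_dirs, add_sub_cancel_left]
    exact i.2.2
  exact this

noncomputable def fe (i : Ix d) : E d := Classical.choose (exists_edge i)

theorem fe_joins (i : Ix d) : Joins (fe i) i.1 (i.1 + i.2.1) := Classical.choose_spec (exists_edge i)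

/-- the sprinkled event -/
noncomputable def AA (p q : ℝ) (x : V d) (i : Ix d) : Set (Cfg d) :=
  Lv p q (fe i) ∩ {U : Cfg d | QB i.1 (i.1 + i.2.1) x (op p U)}

theorem measurableSet_AA (p q : ℝ) (x : V d) (i : Ix d) : MeasurableSet (AA p q x i) :=
  (measurableSet_Lv p q _).inter (measurableSet_QB p _ _ x)

theorem AA_ge {p q : ℝ} (hp : 0 ≤ p) (hpq : p ≤ q) (hq : q ≤ 1) (x : V d) (i : Ix d) :
    ENNReal.ofReal (q - p) * P d {U : Cfg d | QB i.1 (i.1 + i.2.1) x (op p U)} ≤
      P d (AA p q x i) := by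
  refine single_ge hp hpq hq (fe i) (measurableSet_QB p _ _ x) ?_
  rintro U ⟨h1, h2, -⟩
  by_contra h
  rw [not_lt] at h
  exact h2 (h1.snoc ⟨mem_univ _, mem_univ _, fe i, h, fe_joins i⟩)

theorem AA_union {p q : ℝ} (hpq : p ≤ q) (x : V d) :
    tE p x + P d (⋃ i, AA p q x i) ≤ tE q x := by
  rw [tE, tE, cE, cE, ← measure_union ?_ (MeasurableSet.iUnion (measurableSet_AA p q x))]
  · refine measure_mono (union_subset ?_ (iUnion_subset fun i => ?_))
    · exact fun U hU => Conn.mono (op_mono hpq U) le_rfl hU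
    · rintro U ⟨hL, h1, h2, h3⟩
      have h4 := h1.mono (op_mono hpq U) le_rfl
      have h5 := h3.mono (op_mono hpq U) le_rfl
      exact (h4.snoc ⟨mem_univ _, mem_univ _, fe i, hL.2, fe_joins i⟩).trans h5
  · rw [disjoint_iUnion_right]
    intro i
    rw [disjoint_left]
    rintro U hU ⟨-, -, h2, h3⟩
    exact h2 (Conn.trans hU h3.symm)

theorem AA_pair {p q : ℝ} (hp : 0 ≤ p) (hpq : p ≤ q) (hq : q ≤ 1) (x : V d) {i j : Ix d}
    (hij : i ≠ j) : P d (AA p q x i ∩ AA p q x j) ≤
      ENNReal.ofReal (q - p) ^ 2 * (P2 p i.1 j.1 * tE p (x - (i.1 + i.2.1))) := by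
  by_cases hf : fe i = fe j
  · have h1 := fe_joins i
    have h2 := fe_joins j
    rw [← hf] at h2
    have h3 : j.1 = i.1 + i.2.1 := by
      rcases h1 with ⟨a1, a2⟩ | ⟨a1, a2⟩ <;> rcases h2 with ⟨b1, b2⟩ | ⟨b1, b2⟩
      · exfalso
        apply hij
        have : i.1 = j.1 := a1.trans b1.symm
        refine Prod.ext this (Subtype.ext ?_)
        have h4 : i.1 + i.2.1 = j.1 + j.2.1 := a2.trans b2.symm
        rw [this] at h4
        exact add_left_cancel h4
      · exact b2.trans a2.symm
      · exact b1.trans a1.symm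
      · exfalso
        apply hij
        have : i.1 = j.1 := a2.trans b2.symm
        refine Prod.ext this (Subtype.ext ?_)
        have h4 : i.1 + i.2.1 = j.1 + j.2.1 := a1.trans b1.symm
        rw [this] at h4
        exact add_left_cancel h4
    have : AA p q x i ∩ AA p q x j = ∅ := by
      refine eq_empty_of_forall_notMem ?_
      rintro U ⟨⟨-, -, h5, -⟩, ⟨-, h6, -⟩⟩
      rw [h3] at h6
      exact h5 h6
    rw [this, measure_empty]
    exact zero_le
  · set Q : Set (E d) → Prop := fun O => Conn O univ 0 i.1 ∧ Conn O univ 0 j.1 ∧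
      Conn O univ (i.1 + i.2.1) x ∧ ¬ Conn O univ 0 (i.1 + i.2.1) with hQ
    have hB : MeasurableSet {U : Cfg d | Q (op p U)} :=
      (measurableSet_conn p univ 0 i.1).inter ((measurableSet_conn p univ 0 j.1).inter
        ((measurableSet_conn p univ _ x).inter (measurableSet_conn p univ 0 _).compl))
    calc P d (AA p q x i ∩ AA p q x j)
        ≤ P d (Lv p q (fe i) ∩ Lv p q (fe j) ∩ {U : Cfg d | Q (op p U)}) := by
          refine measure_mono ?_
          rintro U ⟨⟨h1, h2, h3, h4⟩, ⟨h5, h6, h7, h8⟩⟩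
          exact ⟨⟨h1, h5⟩, h2, h6, h4, h3⟩
      _ ≤ ENNReal.ofReal (q - p) ^ 2 * P d {U : Cfg d | Q (op p (cls p {fe i, fe j} U))} :=
          pair_le hp hpq hq hf hB
      _ ≤ _ := by
          gcongr
          exact pair_bk p _ _ _ _ _

end Low

open Low

theorem XE_lower {p q : ℝ} (hp : 0 ≤ p) (hpq : p ≤ q) (hq : q ≤ 1) (hX : XE d q ≠ ∞) (η : ℝ≥0∞)
    (hη : ∀ z : V d, z ≠ 0 → T3 p z ≤ η) :
    XE d p + ENNReal.ofReal (q - p) * (2 * d) * XE d p ^ 2 ≤
      XE d q + ENNReal.ofReal (q - p) * (2 * d) * η * XE d p ^ 2 +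
        ENNReal.ofReal (q - p) ^ 2 * (2 * d) ^ 2 * XE d p ^ 4 := by
  classical
  have hXp : XE d p ≠ ∞ := ne_top_of_le_ne_top hX (XE_mono hpq)
  set r := ENNReal.ofReal (q - p) with hr
  have hcard : ∀ c : ℝ≥0∞, ∑' _e : {e // e ∈ dirs d}, c = 2 * d * c := by
    intro c
    rw [tsum_fintype, Finset.sum_const, Finset.card_univ, Fintype.card_coe, card_dirs,
      nsmul_eq_mul]
    push_cast
    ring
  -- lower bound of the first moments
  have s1 : r * (2 * d) * XE d p ^ 2 ≤ ∑' x : V d, ∑' i : Ix d, P d (AA p q x i) +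
      r * (2 * d) * η * XE d p ^ 2 := by
    have h1 : 2 * d * XE d p ^ 2 ≤ ∑' e : {e // e ∈ dirs d}, (∑' u : V d, ∑' x : V d,
        P d {U : Cfg d | QB u (u + e.1) x (op p U)} + η * XE d p ^ 2) := by
      rw [← hcard]
      exact ENNReal.tsum_le_tsum fun e => low_dir hXp e.1 (hη e.1 (dirs_ne_zero e.2))
    have h2 : ∑' e : {e // e ∈ dirs d}, (∑' u : V d, ∑' x : V d,
        P d {U : Cfg d | QB u (u + e.1) x (op p U)} + η * XE d p ^ 2)
        = ∑' x : V d, ∑' i : Ix d, P d {U : Cfg d | QB i.1 (i.1 + i.2.1) x (op p U)}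
          + 2 * d * (η * XE d p ^ 2) := by
      rw [ENNReal.tsum_add, hcard]
      congr 1
      rw [ENNReal.tsum_comm]
      have : ∀ u : V d, ∑' e : {e // e ∈ dirs d}, ∑' x : V d,
          P d {U : Cfg d | QB u (u + e.1) x (op p U)} = ∑' x : V d, ∑' e : {e // e ∈ dirs d},
          P d {U : Cfg d | QB u (u + e.1) x (op p U)} := fun u => ENNReal.tsum_comm
      rw [tsum_congr this, ENNReal.tsum_comm]
      exact tsum_congr fun x => (ENNReal.tsum_prod
        (f := fun (u : V d) (e : {e // e ∈ dirs d}) =>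
          P d {U : Cfg d | QB u (u + e.1) x (op p U)})).symm
    calc r * (2 * d) * XE d p ^ 2 = r * (2 * d * XE d p ^ 2) := by ring
      _ ≤ r * (∑' x : V d, ∑' i : Ix d, P d {U : Cfg d | QB i.1 (i.1 + i.2.1) x (op p U)}
          + 2 * d * (η * XE d p ^ 2)) := by
          gcongr
          exact h1.trans h2.le
      _ = ∑' x : V d, ∑' i : Ix d, r * P d {U : Cfg d | QB i.1 (i.1 + i.2.1) x (op p U)}
          + r * (2 * d) * η * XE d p ^ 2 := by
          rw [mul_add, ← ENNReal.tsum_mul_left]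
          congr 1
          · exact tsum_congr fun x => ENNReal.tsum_mul_left.symm
          · ring
      _ ≤ _ := by
          gcongr with x i
          exact AA_ge hp hpq hq x i
  -- Bonferroni
  have s2 : XE d p + ∑' x : V d, ∑' i : Ix d, P d (AA p q x i) ≤ XE d q + ∑' x : V d,
      ∑' i : Ix d, ∑' j : Ix d, (if i = j then 0 else P d (AA p q x i ∩ AA p q x j)) := by
    rw [XE, XE, ← ENNReal.tsum_add, ← ENNReal.tsum_add]
    refine ENNReal.tsum_le_tsum fun x => ?_
    calc tE p x + ∑' i : Ix d, P d (AA p q x i)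
        ≤ tE p x + (P d (⋃ i, AA p q x i) +
          ∑' i : Ix d, ∑' j : Ix d, (if i = j then 0 else P d (AA p q x i ∩ AA p q x j))) := by
          gcongr
          exact bonf (P d) (AA p q x) (measurableSet_AA p q x)
      _ = (tE p x + P d (⋃ i, AA p q x i)) +
          ∑' i : Ix d, ∑' j : Ix d, (if i = j then 0 else P d (AA p q x i ∩ AA p q x j)) := by
          rw [add_assoc]
      _ ≤ _ := by
          gcongr
          exact AA_union hpq x
  -- the pairs
  have s3 : ∑' x : V d, ∑' i : Ix d, ∑' j : Ix d,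
      (if i = j then 0 else P d (AA p q x i ∩ AA p q x j)) ≤ r ^ 2 * (2 * d) ^ 2 * XE d p ^ 4 := by
    calc ∑' x : V d, ∑' i : Ix d, ∑' j : Ix d,
        (if i = j then 0 else P d (AA p q x i ∩ AA p q x j))
        ≤ ∑' x : V d, ∑' i : Ix d, ∑' j : Ix d,
          r ^ 2 * (P2 p i.1 j.1 * tE p (x - (i.1 + i.2.1))) := by
          gcongr with x i j
          split_ifs with h
          · exact zero_le
          · exact AA_pair hp hpq hq x h
      _ = ∑' i : Ix d, ∑' j : Ix d, r ^ 2 * (P2 p i.1 j.1 * XE d p) := by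
          rw [ENNReal.tsum_comm]
          refine tsum_congr fun i => ?_
          rw [ENNReal.tsum_comm]
          refine tsum_congr fun j => ?_
          rw [ENNReal.tsum_mul_left, ENNReal.tsum_mul_left, tsum_sub]
      _ = r ^ 2 * (2 * d) ^ 2 * XE d p * ∑' u : V d, ∑' u' : V d, P2 p u u' := by
          have : ∀ i : Ix d, ∑' j : Ix d, r ^ 2 * (P2 p i.1 j.1 * XE d p)
              = ∑' u' : V d, 2 * d * (r ^ 2 * (P2 p i.1 u' * XE d p)) := by
            intro i
            rw [ENNReal.tsum_prod (f := fun u' _ => r ^ 2 * (P2 p i.1 u' * XE d p))]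
            exact tsum_congr fun u' => hcard _
          rw [tsum_congr this, ENNReal.tsum_prod
            (f := fun u _ => ∑' u' : V d, 2 * d * (r ^ 2 * (P2 p u u' * XE d p)))]
          rw [← ENNReal.tsum_mul_left]
          refine tsum_congr fun u => ?_
          rw [hcard, ← ENNReal.tsum_mul_left, ← ENNReal.tsum_mul_left]
          exact tsum_congr fun u' => by ring
      _ = r ^ 2 * (2 * d) ^ 2 * XE d p * m2 d p := by
          rw [m2_eq]
          rfl
      _ ≤ r ^ 2 * (2 * d) ^ 2 * XE d p * XE d p ^ 3 := by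
          gcongr
          exact m2_le p
      _ = _ := by ring
  calc XE d p + r * (2 * d) * XE d p ^ 2
      ≤ XE d p + (∑' x : V d, ∑' i : Ix d, P d (AA p q x i) + r * (2 * d) * η * XE d p ^ 2) := by
        gcongr
    _ = (XE d p + ∑' x : V d, ∑' i : Ix d, P d (AA p q x i)) + r * (2 * d) * η * XE d p ^ 2 := by
        rw [add_assoc]
    _ ≤ (XE d q + r ^ 2 * (2 * d) ^ 2 * XE d p ^ 4) + r * (2 * d) * η * XE d p ^ 2 := by
        refine add_le_add (s2.trans ?_) le_rfl
        exact add_le_add le_rfl s3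
    _ = _ := by ring

end Pool.Agent.helper88.FPM
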