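import Pool.Agent.helper88.FPM.MUpper
import Pool.Agent.helper88.FPM.MLower

/-! FP project, module M3c: the inverse susceptibility is almost linear. -/

set_option autoImplicit false

open MeasureTheory Set
open scoped ENNReal

namespace Pool.Agent.helper88.FPM

open Pool.Agent.helper55.FP

variable {d : ℕ}

/-- real analysis: a quadratic error disappears under subdivision -/
theorem subdivide {f : ℝ → ℝ} {a b c K : ℝ}
    (h : ∀ x y, a ≤ x → x ≤ y → y ≤ b → c * (y - x) ≤ f x - f y + K * (y - x) ^ 2) (hab : a ≤ b) :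
    c * (b - a) ≤ f a - f b := by
  have key : ∀ N : ℕ, 0 < N → c * (b - a) ≤ f a - f b + K * (b - a) ^ 2 / N := by
    intro N hN
    have hN' : (0 : ℝ) < N := by exact_mod_cast hN
    have hstep : ∀ k : ℕ, k ≤ N → c * ((b - a) * (k / N)) ≤ f a - f (a + (b - a) * (k / N)) +
        k * (K * ((b - a) / N) ^ 2) := by
      intro k
      induction k with
      | zero => intro _; simp
      | succ k ih =>
        intro hk
        have ih' := ih (by omega)
        have hba : 0 ≤ b - a := sub_nonneg.2 hab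
        have hk1 : ((k : ℝ) + 1) / N ≤ 1 := by
          rw [div_le_one hN']
          exact_mod_cast hk
        have hx0 : a ≤ a + (b - a) * (k / N) := by
          have : 0 ≤ (b - a) * (k / N) := by positivity
          linarith
        have hxy : a + (b - a) * (k / N) ≤ a + (b - a) * ((k + 1 : ℕ) / N) := by
          have : (k : ℝ) / N ≤ ((k + 1 : ℕ) : ℝ) / N := by
            gcongr
            omega
          nlinarith
        have hyb : a + (b - a) * ((k + 1 : ℕ) / N) ≤ b := by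
          push_cast
          nlinarith
        have h1 := h _ _ hx0 hxy hyb
        have h2 : a + (b - a) * ((k + 1 : ℕ) / N) - (a + (b - a) * (k / N)) = (b - a) / N := by
          push_cast
          field_simp
          ring
        rw [h2] at h1
        push_cast at h1 ih' ⊢
        have h3 : c * ((b - a) * (((k : ℝ) + 1) / N)) = c * ((b - a) * (k / N)) +
            c * ((b - a) / N) := by
          field_simp
        rw [h3]
        linarith
    have hN1 := hstep N le_rfl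
    rw [div_self hN'.ne', mul_one, add_sub_cancel] at hN1
    have h4 : (N : ℝ) * (K * ((b - a) / N) ^ 2) = K * (b - a) ^ 2 / N := by
      field_simp
    rwa [h4] at hN1
  have hlim : Filter.Tendsto (fun N : ℕ => f a - f b + K * (b - a) ^ 2 / (N : ℝ)) Filter.atTop
      (nhds (f a - f b + 0)) :=
    tendsto_const_nhds.add (tendsto_const_div_atTop_nhds_zero_nat _)
  rw [add_zero] at hlim
  refine ge_of_tendsto hlim ?_
  filter_upwards [Filter.eventually_gt_atTop 0] with N hN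
  exact key N hN

private theorem chi_mono {p q : ℝ} (h : p ≤ q) (hX : XE d q ≠ ∞) : chi d p ≤ chi d q := by
  rw [← XE_toReal, ← XE_toReal]
  exact ENNReal.toReal_mono hX (XE_mono h)

private theorem chi_upper {p q : ℝ} (hp : 0 ≤ p) (hpq : p ≤ q) (hq1 : q ≤ 1) (hX : XE d q ≠ ∞) :
    chi d q ≤ chi d p + (q - p) * (2 * d) * chi d p * chi d q := by
  have hXp : XE d p ≠ ∞ := ne_top_of_le_ne_top hX (XE_mono hpq)
  have h := XE_upper (d := d) hp hpq hq1
  rw [← XE_toReal, ← XE_toReal]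
  have h2 : ENNReal.ofReal (q - p) * (2 * d) * XE d p * XE d q ≠ ∞ := by
    refine ENNReal.mul_ne_top (ENNReal.mul_ne_top (ENNReal.mul_ne_top ENNReal.ofReal_ne_top ?_)
      hXp) hX
    exact ENNReal.mul_ne_top (by simp) (by simp)
  have h3 := ENNReal.toReal_mono (ENNReal.add_ne_top.2 ⟨hXp, h2⟩) h
  rw [ENNReal.toReal_add hXp h2] at h3
  simpa only [ENNReal.toReal_mul, ENNReal.toReal_ofReal (sub_nonneg.2 hpq), ENNReal.toReal_ofNat,
    ENNReal.toReal_natCast] using h3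

theorem inv_chi_upper {pc : ℝ} (hpc : pc ≤ 1) (h : SubExp d pc) {p q : ℝ} (hp : 0 ≤ p) (hpq : p ≤ q)
    (hq : q < pc) : 1 / chi d p - 1 / chi d q ≤ 2 * d * (q - p) := by
  have hXq : XE d q ≠ ∞ := XE_ne_top h (hp.trans hpq) hq
  have hXp : XE d p ≠ ∞ := ne_top_of_le_ne_top hXq (XE_mono hpq)
  have h1 := chi_upper hp hpq (hq.le.trans hpc) hXq
  have hp1 : 0 < chi d p := lt_of_lt_of_le one_pos (one_le_chi hXp)
  have hq1 : 0 < chi d q := lt_of_lt_of_le one_pos (one_le_chi hXq)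
  rw [div_sub_div _ _ hp1.ne' hq1.ne', div_le_iff₀ (mul_pos hp1 hq1)]
  linarith

theorem inv_chi_lower {pc : ℝ} (hpc : pc ≤ 1) (h : SubExp d pc) {η : ℝ} (hη0 : 0 ≤ η) (hη1 : η ≤ 1)
    (hη : ∀ p, 0 ≤ p → p < pc → ∀ z : V d, z ≠ 0 → cpow (tau p) 3 z ≤ η) {p q : ℝ} (hp : 0 ≤ p)
    (hpq : p ≤ q) (hq : q < pc) : 2 * d * (1 - η) * (q - p) ≤ 1 / chi d p - 1 / chi d q := by
  have hXq : XE d q ≠ ∞ := XE_ne_top h (hp.trans hpq) hq
  have hD : (0 : ℝ) ≤ 2 * d := by positivity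
  refine subdivide (f := fun x => 1 / chi d x) (K := (2 * d) ^ 2 * (chi d q ^ 3 + chi d q)) ?_ hpq
  intro x y hx hxy hy
  have hx0 : 0 ≤ x := hp.trans hx
  have hy0 : 0 ≤ y := hx0.trans hxy
  have hypc : y < pc := lt_of_le_of_lt hy hq
  have hxpc : x < pc := lt_of_le_of_lt hxy hypc
  have hXy : XE d y ≠ ∞ := XE_ne_top h hy0 hypc
  have hXx : XE d x ≠ ∞ := ne_top_of_le_ne_top hXy (XE_mono hxy)
  have hy1 : y ≤ 1 := hypc.le.trans hpc
  have hup := chi_upper hx0 hxy hy1 hXy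
  have hlow := XE_lower (d := d) hx0 hxy hy1 hXy (ENNReal.ofReal η)
    (fun z hz => T3_le hXx (hη x hx0 hxpc z hz))
  have hs : 0 ≤ y - x := sub_nonneg.2 hxy
  set s := y - x with hsdef
  have h1 : XE d x + ENNReal.ofReal s * (2 * d) * XE d x ^ 2 ≠ ∞ := by
    refine ENNReal.add_ne_top.2 ⟨hXx, ENNReal.mul_ne_top (ENNReal.mul_ne_top ENNReal.ofReal_ne_top
      (ENNReal.mul_ne_top (by simp) (by simp))) (ENNReal.pow_ne_top hXx)⟩
  have h2 : ENNReal.ofReal s * (2 * d) * ENNReal.ofReal η * XE d x ^ 2 ≠ ∞ :=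
    ENNReal.mul_ne_top (ENNReal.mul_ne_top (ENNReal.mul_ne_top ENNReal.ofReal_ne_top
      (ENNReal.mul_ne_top (by simp) (by simp))) ENNReal.ofReal_ne_top) (ENNReal.pow_ne_top hXx)
  have h3 : ENNReal.ofReal s ^ 2 * (2 * d) ^ 2 * XE d x ^ 4 ≠ ∞ :=
    ENNReal.mul_ne_top (ENNReal.mul_ne_top (ENNReal.pow_ne_top ENNReal.ofReal_ne_top)
      (ENNReal.pow_ne_top (ENNReal.mul_ne_top (by simp) (by simp)))) (ENNReal.pow_ne_top hXx)
  have h4 : XE d y + ENNReal.ofReal s * (2 * d) * ENNReal.ofReal η * XE d x ^ 2 ≠ ∞ :=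
    ENNReal.add_ne_top.2 ⟨hXy, h2⟩
  have h5 := ENNReal.toReal_mono (ENNReal.add_ne_top.2 ⟨h4, h3⟩) hlow
  rw [ENNReal.toReal_add hXx (ENNReal.add_ne_top.1 h1).2, ENNReal.toReal_add h4 h3,
    ENNReal.toReal_add hXy h2] at h5
  simp only [ENNReal.toReal_mul, ENNReal.toReal_pow, ENNReal.toReal_ofReal hs,
    ENNReal.toReal_ofReal hη0, ENNReal.toReal_ofNat, ENNReal.toReal_natCast, XE_toReal] at h5
  have cx1 : 1 ≤ chi d x := one_le_chi hXx
  have cy1 : 1 ≤ chi d y := one_le_chi hXy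
  have cxq : chi d x ≤ chi d q := chi_mono (hxy.trans hy) hXq
  have hxp : 0 < chi d x := lt_of_lt_of_le one_pos cx1
  have hyp : 0 < chi d y := lt_of_lt_of_le one_pos cy1
  set X := chi d x with hX
  set Y := chi d y with hY
  set Q := chi d q with hQ
  -- `X / Y ≥ 1 - 2 d s X`
  have h6 : 1 - s * (2 * d) * X ≤ X / Y := by
    rw [le_div_iff₀ hyp]
    nlinarith
  -- `2 d s (1 - η) X / Y ≤ 1 / X - 1 / Y + s² (2 d)² X³ / Y`
  have h7 : s * (2 * d) * (1 - η) * (X / Y) ≤ 1 / X - 1 / Y + s ^ 2 * (2 * d) ^ 2 * (X ^ 3 / Y) := by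
    have h8 : 1 / X - 1 / Y + s ^ 2 * (2 * d) ^ 2 * (X ^ 3 / Y) - s * (2 * d) * (1 - η) * (X / Y)
        = (Y - X + s ^ 2 * (2 * d) ^ 2 * X ^ 4 - s * (2 * d) * (1 - η) * X ^ 2) / (X * Y) := by
      field_simp
    have h9 : 0 ≤ (Y - X + s ^ 2 * (2 * d) ^ 2 * X ^ 4 - s * (2 * d) * (1 - η) * X ^ 2) / (X * Y) := by
      refine div_nonneg ?_ (mul_pos hxp hyp).le
      nlinarith
    linarith
  have h10 : X ^ 3 / Y ≤ Q ^ 3 := by
    rw [div_le_iff₀ hyp]
    have h11 : X ^ 3 ≤ Q ^ 3 := pow_le_pow_left₀ hxp.le cxq 3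
    have h12 : 0 ≤ Q ^ 3 := (pow_nonneg hxp.le 3).trans h11
    nlinarith
  have h13 : s * (2 * d) * (1 - η) * (1 - s * (2 * d) * X) ≤ s * (2 * d) * (1 - η) * (X / Y) := by
    refine mul_le_mul_of_nonneg_left h6 ?_
    have : 0 ≤ 1 - η := sub_nonneg.2 hη1
    positivity
  have h14 : s ^ 2 * (2 * d) ^ 2 * (X ^ 3 / Y) ≤ s ^ 2 * (2 * d) ^ 2 * Q ^ 3 :=
    mul_le_mul_of_nonneg_left h10 (by positivity)
  have h15 : s ^ 2 * (2 * d) ^ 2 * ((1 - η) * X) ≤ s ^ 2 * (2 * d) ^ 2 * Q := by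
    refine mul_le_mul_of_nonneg_left ?_ (by positivity)
    nlinarith
  have goal' : 2 * d * (1 - η) * s ≤ 1 / X - 1 / Y + (2 * d) ^ 2 * (Q ^ 3 + Q) * s ^ 2 := by
    nlinarith
  exact goal'

end Pool.Agent.helper88.FPM
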