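import Pool.Agent.helper88.FPM.MHarris
import Pool.Agent.helper88.FPM.MTree
import Pool.Agent.helper55.FP.LeftCont

/-! FP project, module M6: the magnetisation, its relations with tails and moments. -/

set_option autoImplicit false

open MeasureTheory Set Filter Topology
open scoped ENNReal

namespace Pool.Agent.helper88.FPM

open Pool.Agent.helper55.FP

variable {d : ℕ}

/-! ### pointwise facts on `pw` -/

private theorem pw_fin {s : ℝ} {S : Set (V d)} (h : S.Finite) : pw s S = s ^ S.ncard := by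
  unfold pw; rw [if_pos h]

private theorem pw_inf {s : ℝ} {S : Set (V d)} (h : ¬ S.Finite) : pw s S = 0 := by
  unfold pw; rw [if_neg h]

private theorem le_encard_iff {S : Set (V d)} (h : S.Finite) (n : ℕ) :
    (n : ℕ∞) ≤ S.encard ↔ n ≤ S.ncard := by
  rw [← h.cast_ncard_eq]; exact_mod_cast Iff.rfl

private theorem le_encard_inf {S : Set (V d)} (h : ¬ S.Finite) (n : ℕ) :
    (n : ℕ∞) ≤ S.encard := by
  have h' : S.Infinite := h
  rw [h'.encard_eq]; exact le_top

open Classical in
private theorem hasSum_pw {h : ℝ} (h0 : 0 < h) (h1 : h ≤ 1) (S : Set (V d)) :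
    HasSum (fun n : ℕ => h * (1 - h) ^ n * (if ((n + 1 : ℕ) : ℕ∞) ≤ S.encard then (1 : ℝ) else 0))
      (1 - pw (1 - h) S) := by
  by_cases hS : S.Finite
  · rw [pw_fin hS]
    have h2 : ∀ n ∉ Finset.range S.ncard,
        h * (1 - h) ^ n * (if ((n + 1 : ℕ) : ℕ∞) ≤ S.encard then (1 : ℝ) else 0) = 0 := by
      intro n hn
      rw [if_neg, mul_zero]
      rw [le_encard_iff hS]
      simp at hn
      omega
    have h3 : HasSum (fun n : ℕ => h * (1 - h) ^ n * (if ((n + 1 : ℕ) : ℕ∞) ≤ S.encard then (1 : ℝ) else 0))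
        (∑ n ∈ Finset.range S.ncard,
          h * (1 - h) ^ n * (if ((n + 1 : ℕ) : ℕ∞) ≤ S.encard then (1 : ℝ) else 0)) :=
      hasSum_sum_of_ne_finset_zero h2
    have h4 : ∑ n ∈ Finset.range S.ncard,
        h * (1 - h) ^ n * (if ((n + 1 : ℕ) : ℕ∞) ≤ S.encard then (1 : ℝ) else 0) =
        1 - (1 - h) ^ S.ncard := by
      have h5 : ∀ n ∈ Finset.range S.ncard,
          h * (1 - h) ^ n * (if ((n + 1 : ℕ) : ℕ∞) ≤ S.encard then (1 : ℝ) else 0) =
          h * (1 - h) ^ n := by
        intro n hn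
        rw [if_pos, mul_one]
        rw [le_encard_iff hS]
        simp at hn
        omega
      rw [Finset.sum_congr rfl h5]
      clear h2 h3 h5
      induction S.ncard with
      | zero => simp
      | succ k ih => rw [Finset.sum_range_succ, ih]; ring
    rwa [h4] at h3
  · rw [pw_inf hS]
    have h5 : (fun n : ℕ => h * (1 - h) ^ n * (if ((n + 1 : ℕ) : ℕ∞) ≤ S.encard then (1 : ℝ) else 0)) =
        fun n : ℕ => h * (1 - h) ^ n := by
      funext n
      rw [if_pos (le_encard_inf hS _), mul_one]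
    rw [h5]
    have h6 := (hasSum_geometric_of_lt_one (r := 1 - h) (by linarith) (by linarith)).mul_left h
    have h7 : h * (1 - (1 - h))⁻¹ = 1 - 0 := by
      rw [show 1 - (1 - h) = h by ring, mul_inv_cancel₀ h0.ne', sub_zero]
    rwa [h7] at h6

private theorem int_ind (p : ℝ) (n : ℕ) (c : ℝ) :
    ∫ U, c * ({U : Cfg d | (n : ℕ∞) ≤ (Cl (op p U) univ (0 : V d)).encard}.indicator (fun _ => (1 : ℝ)) U) ∂(P d)
      = c * tail d p n := by
  rw [integral_const_mul, integral_indicator (measurableSet_encard_nat p univ 0 n)]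
  simp [tail, tailW]

theorem MM_tail (p : ℝ) {h : ℝ} (h0 : 0 < h) (h1 : h ≤ 1) :
    MM d p h = ∑' n : ℕ, h * (1 - h) ^ n * tail d p (n + 1) := by
  classical
  set A : ℕ → Set (Cfg d) := fun n => {U : Cfg d | (n : ℕ∞) ≤ (Cl (op p U) univ (0 : V d)).encard} with hA
  have hAm : ∀ n, MeasurableSet (A n) := fun n => measurableSet_encard_nat p univ 0 n
  have e1 : MM d p h = ∫ U, (1 - pw (1 - h) (Cl (op p U) (univ : Set (V d)) 0)) ∂(P d) := by
    rw [integral_sub (integrable_const _) (integrable_pw_cl (by linarith) (by linarith) p univ 0)]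
    simp [MM]
  have e2 : ∀ U : Cfg d, 1 - pw (1 - h) (Cl (op p U) (univ : Set (V d)) 0) =
      ∑' n : ℕ, h * (1 - h) ^ n * (A (n + 1)).indicator (fun _ => (1 : ℝ)) U := by
    intro U
    rw [← (hasSum_pw h0 h1 (Cl (op p U) (univ : Set (V d)) 0)).tsum_eq]
    refine tsum_congr fun n => ?_
    congr 1
    rw [indicator_apply]
    rfl
  have hle : ∀ n : ℕ, 0 ≤ h * (1 - h) ^ n := fun n => mul_nonneg h0.le (pow_nonneg (by linarith) n)
  have e3 : ∀ n : ℕ, Integrable (fun U : Cfg d => h * (1 - h) ^ n * (A (n + 1)).indicator (fun _ => (1 : ℝ)) U)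
      (P d) := by
    intro n
    exact ((integrable_const (1 : ℝ)).indicator (hAm (n + 1))).const_mul _
  have hs : Summable fun n : ℕ => h * (1 - h) ^ n :=
    (summable_geometric_of_lt_one (r := 1 - h) (by linarith) (by linarith)).mul_left h
  have e4 : Summable fun n : ℕ =>
      ∫ U, ‖h * (1 - h) ^ n * (A (n + 1)).indicator (fun _ => (1 : ℝ)) U‖ ∂(P d) := by
    refine Summable.of_nonneg_of_le (fun n => integral_nonneg fun U => norm_nonneg _) (fun n => ?_) hs
    have : ∀ U : Cfg d, ‖h * (1 - h) ^ n * (A (n + 1)).indicator (fun _ => (1 : ℝ)) U‖ ≤ h * (1 - h) ^ n := by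
      intro U
      rw [norm_mul, Real.norm_of_nonneg (hle n)]
      refine mul_le_of_le_one_right (hle n) ?_
      by_cases hU : U ∈ A (n + 1)
      · simp [hU]
      · simp [hU]
    calc ∫ U, ‖h * (1 - h) ^ n * (A (n + 1)).indicator (fun _ => (1 : ℝ)) U‖ ∂(P d)
        ≤ ∫ U : Cfg d, h * (1 - h) ^ n ∂(P d) :=
          integral_mono (e3 n).norm (integrable_const _) this
      _ = h * (1 - h) ^ n := by simp
  rw [e1]
  simp_rw [e2]
  rw [← integral_tsum_of_summable_integral_norm e3 e4]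
  refine tsum_congr fun n => ?_
  exact int_ind p (n + 1) _

private theorem tail_nonneg (p : ℝ) (n : ℕ) : 0 ≤ tail d p n := by
  unfold tail tailW; exact measureReal_nonneg

private theorem tail_le_one (p : ℝ) (n : ℕ) : tail d p n ≤ 1 := by
  unfold tail tailW; exact measureReal_le_one

theorem MM_left_cont (p : ℝ) {h : ℝ} (h0 : 0 < h) (h1 : h ≤ 1) :
    Tendsto (fun q => MM d q h) (𝓝[<] p) (𝓝 (MM d p h)) := by
  have hs : Summable fun n : ℕ => h * (1 - h) ^ n :=
    (summable_geometric_of_lt_one (r := 1 - h) (by linarith) (by linarith)).mul_left h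
  have hle : ∀ n : ℕ, 0 ≤ h * (1 - h) ^ n := fun n => mul_nonneg h0.le (pow_nonneg (by linarith) n)
  have key : Tendsto (fun q => ∑' n : ℕ, h * (1 - h) ^ n * tail d q (n + 1)) (𝓝[<] p)
      (𝓝 (∑' n : ℕ, h * (1 - h) ^ n * tail d p (n + 1))) := by
    refine tendsto_tsum_of_dominated_convergence hs (fun n => ?_) ?_
    · exact (tail_left_cont p (n + 1)).const_mul _
    · refine Filter.Eventually.of_forall fun q n => ?_
      rw [norm_mul, Real.norm_of_nonneg (hle n), Real.norm_of_nonneg (tail_nonneg q (n + 1))]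
      exact mul_le_of_le_one_right (hle n) (tail_le_one q (n + 1))
  rw [MM_tail p h0 h1]
  refine key.congr fun q => ?_
  rw [MM_tail q h0 h1]

theorem MM_mono_h (p : ℝ) {h h' : ℝ} (h0 : 0 ≤ h) (hh : h ≤ h') (h1 : h' ≤ 1) : MM d p h ≤ MM d p h' := by
  unfold MM
  refine sub_le_sub_left ?_ 1
  refine integral_mono (integrable_pw_cl (by linarith) (by linarith) p univ 0)
    (integrable_pw_cl (by linarith) (by linarith) p univ 0) fun U => ?_
  by_cases hS : (Cl (op p U) (univ : Set (V d)) 0).Finite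
  · simp only [pw_fin hS]
    exact pow_le_pow_left₀ (by linarith) (by linarith) _
  · simp only [pw_inf hS]; exact le_rfl

theorem MM_zero {p : ℝ} (hX : XE d p ≠ ∞) : MM d p 0 = 0 := by
  unfold MM
  have h1 : ∫ U, pw (1 - 0) (Cl (op p U) (univ : Set (V d)) 0) ∂(P d) = ∫ U : Cfg d, (1 : ℝ) ∂(P d) := by
    refine integral_congr_ae ?_
    filter_upwards [ae_finite hX univ 0] with U hU
    rw [pw_fin hU]; simp
  rw [h1]; simp

private theorem int_sz {p : ℝ} (hX : XE d p ≠ ∞) :
    Integrable (fun U : Cfg d => (sz (Cl (op p U) univ (0 : V d))).toReal) (P d) ∧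
      ∫ U, (sz (Cl (op p U) univ (0 : V d))).toReal ∂(P d) = chi d p := by
  have h1 : ∫⁻ U, sz (Cl (op p U) univ (0 : V d)) ∂(P d) = XE d p := by
    rw [sz_cl]; rfl
  refine ⟨integrable_toReal_of_lintegral_ne_top (measurable_sz_cl p univ 0).aemeasurable (by rw [h1]; exact hX), ?_⟩
  rw [integral_toReal (measurable_sz_cl p univ 0).aemeasurable, h1, XE_toReal]
  filter_upwards [ae_finite hX univ 0] with U hU
  rw [sz_finite hU]
  exact ENNReal.natCast_lt_top _

private theorem pow_lip {a b : ℝ} (ha : 0 ≤ b) (hab : b ≤ a) (ha1 : a ≤ 1) (n : ℕ) :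
    a ^ n - b ^ n ≤ n * (a - b) := by
  induction n with
  | zero => simp
  | succ k ih =>
    have h1 : a ^ (k + 1) - b ^ (k + 1) = a * (a ^ k - b ^ k) + b ^ k * (a - b) := by ring
    have h2 : a * (a ^ k - b ^ k) ≤ a ^ k - b ^ k := by
      have : 0 ≤ a ^ k - b ^ k := sub_nonneg.2 (pow_le_pow_left₀ ha hab k)
      nlinarith
    have h3 : b ^ k * (a - b) ≤ a - b := by
      have : b ^ k ≤ 1 := pow_le_one₀ ha (by linarith)
      nlinarith
    rw [h1]; push_cast; linarith

theorem MM_lip {p : ℝ} (hX : XE d p ≠ ∞) {h h' : ℝ} (h0 : 0 ≤ h) (hh : h ≤ h') (h1 : h' ≤ 1) :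
    |MM d p h' - MM d p h| ≤ chi d p * (h' - h) := by
  rw [abs_of_nonneg (sub_nonneg.2 (MM_mono_h p h0 hh h1))]
  obtain ⟨hi, he⟩ := int_sz hX
  have e1 : MM d p h' - MM d p h = ∫ U, (pw (1 - h) (Cl (op p U) (univ : Set (V d)) 0) -
      pw (1 - h') (Cl (op p U) (univ : Set (V d)) 0)) ∂(P d) := by
    rw [integral_sub (integrable_pw_cl (by linarith) (by linarith) p univ 0)
      (integrable_pw_cl (by linarith) (by linarith) p univ 0)]
    unfold MM; ring
  rw [e1, ← he, ← integral_mul_const]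
  refine integral_mono_ae ((integrable_pw_cl (by linarith) (by linarith) p univ 0).sub
    (integrable_pw_cl (by linarith) (by linarith) p univ 0)) (hi.mul_const _) ?_
  filter_upwards [ae_finite hX univ 0] with U hU
  rw [pw_fin hU, pw_fin hU, sz_finite hU]
  have := pow_lip (a := 1 - h) (b := 1 - h') (by linarith) (by linarith) (by linarith)
    (Cl (op p U) (univ : Set (V d)) 0).ncard
  simpa using this

private theorem exp_taylor {x : ℝ} (hx : 0 ≤ x) : 1 - Real.exp (-x) ≤ x - x ^ 2 / 2 + x ^ 3 / 6 := by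
  have hd1 : ∀ y : ℝ, HasDerivAt (fun y : ℝ => 1 - y + y ^ 2 / 2 - Real.exp (-y))
      (-1 + y + Real.exp (-y)) y := by
    intro y
    have h1 : HasDerivAt (fun y : ℝ => Real.exp (-y)) (Real.exp (-y) * (-1)) y :=
      (hasDerivAt_neg y).exp
    have h2 : HasDerivAt (fun y : ℝ => 1 - y + y ^ 2 / 2) (-1 + y) y := by
      have := (((hasDerivAt_id' y).const_sub 1).add ((hasDerivAt_pow 2 y).div_const 2))
      refine this.congr_deriv ?_
      norm_num
    refine (h2.sub h1).congr_deriv ?_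
    ring
  have hmono1 : MonotoneOn (fun y : ℝ => 1 - y + y ^ 2 / 2 - Real.exp (-y)) (Ici 0) := by
    refine monotoneOn_of_deriv_nonneg (convex_Ici 0) (fun y _ => (hd1 y).continuousAt.continuousWithinAt)
      (fun y _ => (hd1 y).differentiableAt.differentiableWithinAt) fun y hy => ?_
    rw [(hd1 y).deriv]
    have := Real.add_one_le_exp (-y)
    linarith
  have h1 : ∀ y : ℝ, 0 ≤ y → 0 ≤ 1 - y + y ^ 2 / 2 - Real.exp (-y) := by
    intro y hy
    have := hmono1 (mem_Ici.2 le_rfl) (mem_Ici.2 hy) hy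
    simpa using this
  have hd2 : ∀ y : ℝ, HasDerivAt (fun y : ℝ => y - y ^ 2 / 2 + y ^ 3 / 6 - 1 + Real.exp (-y))
      (1 - y + y ^ 2 / 2 - Real.exp (-y)) y := by
    intro y
    have h1 : HasDerivAt (fun y : ℝ => Real.exp (-y)) (Real.exp (-y) * (-1)) y :=
      (hasDerivAt_neg y).exp
    have h2 : HasDerivAt (fun y : ℝ => y - y ^ 2 / 2 + y ^ 3 / 6 - 1) (1 - y + y ^ 2 / 2) y := by
      have := ((((hasDerivAt_id' y).sub ((hasDerivAt_pow 2 y).div_const 2))).add
        ((hasDerivAt_pow 3 y).div_const 6)).sub_const 1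
      refine this.congr_deriv ?_
      norm_num
      ring
    refine (h2.add h1).congr_deriv ?_
    ring
  have hmono2 : MonotoneOn (fun y : ℝ => y - y ^ 2 / 2 + y ^ 3 / 6 - 1 + Real.exp (-y)) (Ici 0) := by
    refine monotoneOn_of_deriv_nonneg (convex_Ici 0) (fun y _ => (hd2 y).continuousAt.continuousWithinAt)
      (fun y _ => (hd2 y).differentiableAt.differentiableWithinAt) fun y hy => ?_
    rw [(hd2 y).deriv]
    refine h1 y ?_
    rw [interior_Ici] at hy
    exact le_of_lt hy
  have := hmono2 (mem_Ici.2 le_rfl) (mem_Ici.2 hx) hx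
  simp at this
  linarith

/-- second order expansion (Taylor with remainder for `exp (-x)`) -/
theorem MM_expand {p : ℝ} (hX : XE d p ≠ ∞) {l : ℝ} (hl : 0 ≤ l) :
    MM d p (1 - Real.exp (-l)) ≤ l * chi d p - l ^ 2 / 2 * (m2 d p).toReal + l ^ 3 / 6 * (m3 d p).toReal := by
  have hm2 : m2 d p ≠ ∞ := ne_top_of_le_ne_top (ENNReal.pow_ne_top hX) (m2_le p)
  have hm3 : m3 d p ≠ ∞ :=
    ne_top_of_le_ne_top (ENNReal.mul_ne_top (by norm_num) (ENNReal.pow_ne_top hX)) (m3_le p)
  obtain ⟨hi, he⟩ := int_sz hX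
  set N : Cfg d → ℝ≥0∞ := fun U => sz (Cl (op p U) univ (0 : V d)) with hN
  have hNm : Measurable N := measurable_sz_cl p univ 0
  have hfin : ∀ᵐ U ∂(P d), N U < ∞ := by
    filter_upwards [ae_finite hX univ 0] with U hU
    rw [hN]; simp only
    rw [sz_finite hU]
    exact ENNReal.natCast_lt_top _
  have hi2 : Integrable (fun U : Cfg d => (N U ^ 2).toReal) (P d) :=
    integrable_toReal_of_lintegral_ne_top (hNm.pow_const 2).aemeasurable hm2
  have hi3 : Integrable (fun U : Cfg d => (N U ^ 3).toReal) (P d) :=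
    integrable_toReal_of_lintegral_ne_top (hNm.pow_const 3).aemeasurable hm3
  have he2 : ∫ U, (N U ^ 2).toReal ∂(P d) = (m2 d p).toReal := by
    rw [integral_toReal (hNm.pow_const 2).aemeasurable]
    · rfl
    · filter_upwards [hfin] with U hU
      exact ENNReal.pow_lt_top hU
  have he3 : ∫ U, (N U ^ 3).toReal ∂(P d) = (m3 d p).toReal := by
    rw [integral_toReal (hNm.pow_const 3).aemeasurable]
    · rfl
    · filter_upwards [hfin] with U hU
      exact ENNReal.pow_lt_top hU
  have hexp0 : 0 ≤ Real.exp (-l) := (Real.exp_pos _).le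
  have hexp1 : Real.exp (-l) ≤ 1 := Real.exp_le_one_iff.2 (by linarith)
  have e1 : MM d p (1 - Real.exp (-l)) = ∫ U, (1 - pw (Real.exp (-l)) (Cl (op p U) (univ : Set (V d)) 0)) ∂(P d) := by
    rw [integral_sub (integrable_const _) (integrable_pw_cl hexp0 hexp1 p univ 0)]
    simp [MM]
  have e2 : ∫ U, (l * (N U).toReal - l ^ 2 / 2 * (N U ^ 2).toReal + l ^ 3 / 6 * (N U ^ 3).toReal) ∂(P d) =
      l * chi d p - l ^ 2 / 2 * (m2 d p).toReal + l ^ 3 / 6 * (m3 d p).toReal := by
    have a1 : Integrable (fun U : Cfg d => l * (N U).toReal) (P d) := hi.const_mul _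
    have a2 : Integrable (fun U : Cfg d => l ^ 2 / 2 * (N U ^ 2).toReal) (P d) := hi2.const_mul _
    have a3 : Integrable (fun U : Cfg d => l ^ 3 / 6 * (N U ^ 3).toReal) (P d) := hi3.const_mul _
    have a12 : Integrable (fun U : Cfg d => l * (N U).toReal - l ^ 2 / 2 * (N U ^ 2).toReal) (P d) := a1.sub a2
    rw [integral_add a12 a3, integral_sub a1 a2, integral_const_mul, integral_const_mul,
      integral_const_mul, he, he2, he3]
  rw [e1, ← e2]
  refine integral_mono_ae ((integrable_const _).sub (integrable_pw_cl hexp0 hexp1 p univ 0))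
    (((hi.const_mul _).sub (hi2.const_mul _)).add (hi3.const_mul _)) ?_
  filter_upwards [ae_finite hX univ 0] with U hU
  rw [hN]
  simp only
  rw [pw_fin hU, sz_finite hU]
  have h1 := exp_taylor (x := l * (Cl (op p U) (univ : Set (V d)) 0).ncard) (by positivity)
  have h2 : Real.exp (-(l * (Cl (op p U) (univ : Set (V d)) 0).ncard)) =
      Real.exp (-l) ^ (Cl (op p U) (univ : Set (V d)) 0).ncard := by
    rw [← Real.exp_nat_mul]; congr 1; ring
  rw [h2] at h1
  rw [ENNReal.toReal_pow, ENNReal.toReal_pow, ENNReal.toReal_natCast]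
  refine h1.trans (le_of_eq ?_)
  ring

/-- Chebyshev -/
theorem tail_le_MM (p : ℝ) {h : ℝ} (h0 : 0 ≤ h) (h1 : h ≤ 1) (n : ℕ) :
    (1 - (1 - h) ^ n) * tail d p n ≤ MM d p h := by
  have e1 : MM d p h = ∫ U, (1 - pw (1 - h) (Cl (op p U) (univ : Set (V d)) 0)) ∂(P d) := by
    rw [integral_sub (integrable_const _) (integrable_pw_cl (by linarith) (by linarith) p univ 0)]
    simp [MM]
  rw [e1, ← int_ind p n]
  refine integral_mono (((integrable_const (1 : ℝ)).indicator (measurableSet_encard_nat p univ 0 n)).const_mul _)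
    ((integrable_const _).sub (integrable_pw_cl (by linarith) (by linarith) p univ 0)) fun U => ?_
  simp only
  have hpw1 : pw (1 - h) (Cl (op p U) (univ : Set (V d)) 0) ≤ 1 := pw_le_one (by linarith) (by linarith) _
  by_cases hU : (n : ℕ∞) ≤ (Cl (op p U) (univ : Set (V d)) 0).encard
  · rw [indicator_of_mem (by exact hU)]
    by_cases hS : (Cl (op p U) (univ : Set (V d)) 0).Finite
    · rw [pw_fin hS]
      have h2 := (le_encard_iff hS n).1 hU
      have h3 : (1 - h) ^ (Cl (op p U) (univ : Set (V d)) 0).ncard ≤ (1 - h) ^ n :=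
        pow_le_pow_of_le_one (by linarith) (by linarith) h2
      linarith
    · rw [pw_inf hS]
      have : 0 ≤ (1 - h) ^ n := pow_nonneg (by linarith) n
      linarith
  · rw [indicator_of_notMem (by exact hU)]
    linarith

end Pool.Agent.helper88.FPM
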