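import Pool.Agent.helper88.FPM.MDefs
import Pool.Agent.helper55.FP.Harris
import Pool.Agent.helper55.FP.Conn
import Pool.Agent.helper55.FP.Meas
import Pool.Agent.helper55.FP.Indep
import Pool.Agent.helper55.FP.Resample
import Pool.Agent.helper55.FP.Symm

/-! FP project, module M4: comparison of the magnetisations at two levels (Harris). -/

set_option autoImplicit false
set_option linter.all false

open MeasureTheory Set
open scoped ENNReal

namespace Pool.Agent.helper88.FPM

open Pool.Agent.helper55.FP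

variable {d : ℕ}

theorem pw_nonneg {s : ℝ} (hs : 0 ≤ s) (S : Set (V d)) : 0 ≤ pw s S := by
  unfold pw
  split_ifs
  · exact pow_nonneg hs _
  · exact le_rfl

theorem pw_le_one {s : ℝ} (hs : 0 ≤ s) (hs1 : s ≤ 1) (S : Set (V d)) : pw s S ≤ 1 := by
  unfold pw
  split_ifs
  · exact pow_le_one₀ hs hs1
  · exact zero_le_one

theorem pw_anti {s : ℝ} (hs : 0 ≤ s) (hs1 : s ≤ 1) {S T : Set (V d)} (h : S ⊆ T) :
    pw s T ≤ pw s S := by
  by_cases hT : T.Finite
  · have hS := hT.subset h
    unfold pw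
    rw [if_pos hT, if_pos hS]
    exact pow_le_pow_of_le_one hs hs1 (Set.ncard_le_ncard h hT)
  · have : pw s T = 0 := by unfold pw; rw [if_neg hT]
    rw [this]
    exact pw_nonneg hs S

theorem pw_union {s : ℝ} (hs : 0 ≤ s) (hs1 : s ≤ 1) (S T : Set (V d)) :
    pw s S * pw s T ≤ pw s (S ∪ T) := by
  by_cases hS : S.Finite
  · by_cases hT : T.Finite
    · unfold pw
      rw [if_pos hS, if_pos hT, if_pos (hS.union hT), ← pow_add]
      exact pow_le_pow_of_le_one hs hs1 (Set.ncard_union_le S T)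
    · have : pw s T = 0 := by unfold pw; rw [if_neg hT]
      rw [this, mul_zero]
      exact pw_nonneg hs _
  · have : pw s S = 0 := by unfold pw; rw [if_neg hS]
    rw [this, zero_mul]
    exact pw_nonneg hs _

theorem MH.measurable_encard_cl (p : ℝ) (W : Set (V d)) (a : V d) :
    Measurable fun U : Cfg d => (Cl (op p U) W a).encard := by
  refine measurable_to_countable' fun n => ?_
  induction n using ENat.recTopCoe with
  | top =>
    have h : (fun U : Cfg d => (Cl (op p U) W a).encard) ⁻¹' {⊤} =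
        {U : Cfg d | ⊤ ≤ (Cl (op p U) W a).encard} := by
      ext U
      simp [top_le_iff]
    rw [h]
    exact measurableSet_encard p W a ⊤
  | coe n =>
    have h : (fun U : Cfg d => (Cl (op p U) W a).encard) ⁻¹' {(n : ℕ∞)} =
        {U : Cfg d | (n : ℕ∞) ≤ (Cl (op p U) W a).encard} \
          {U : Cfg d | ((n + 1 : ℕ) : ℕ∞) ≤ (Cl (op p U) W a).encard} := by
      ext U
      have key : ∀ x : ℕ∞, x = (n : ℕ∞) ↔ ((n : ℕ∞) ≤ x ∧ ¬ (((n + 1 : ℕ) : ℕ∞) ≤ x)) := by
        intro x
        rw [not_le]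
        constructor
        · rintro rfl
          exact ⟨le_rfl, by exact_mod_cast Nat.lt_succ_self n⟩
        · rintro ⟨h1, h2⟩
          refine le_antisymm ?_ h1
          have h3 : ((n + 1 : ℕ) : ℕ∞) = (n : ℕ∞) + 1 := by push_cast; rfl
          rw [h3] at h2
          exact Order.le_of_lt_add_one h2
      exact key _
    rw [h]
    exact (measurableSet_encard p W a _).diff (measurableSet_encard p W a _)

theorem measurable_pw_cl (s p : ℝ) (W : Set (V d)) (a : V d) :
    Measurable fun U : Cfg d => pw s (Cl (op p U) W a) := by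
  classical
  have h1 : (fun U : Cfg d => pw s (Cl (op p U) W a)) =
      (fun n : ℕ∞ => if n = ⊤ then (0 : ℝ) else s ^ n.toNat) ∘
        (fun U : Cfg d => (Cl (op p U) W a).encard) := by
    funext U
    simp only [Function.comp_apply]
    unfold pw
    by_cases h : (Cl (op p U) W a).Finite
    · rw [if_pos h, if_neg (Set.encard_ne_top_iff.2 h)]
      rfl
    · rw [if_neg h, if_pos (Set.encard_eq_top_iff.2 h)]
  rw [h1]
  exact (Measurable.of_discrete).comp (MH.measurable_encard_cl p W a)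

theorem integrable_pw_cl {s : ℝ} (hs : 0 ≤ s) (hs1 : s ≤ 1) (p : ℝ) (W : Set (V d)) (a : V d) :
    Integrable (fun U : Cfg d => pw s (Cl (op p U) W a)) (P d) := by
  refine Integrable.of_bound (measurable_pw_cl s p W a).aestronglyMeasurable 1
    (Filter.Eventually.of_forall fun U => ?_)
  rw [Real.norm_eq_abs, abs_of_nonneg (pw_nonneg hs _)]
  exact pw_le_one hs hs1 _

theorem MM_nonneg (p : ℝ) {h : ℝ} (h0 : 0 ≤ h) (h1 : h ≤ 1) : 0 ≤ MM d p h := by
  unfold MM
  have h2 : ∫ U, pw (1 - h) (Cl (op p U) (univ : Set (V d)) 0) ∂(P d) ≤ ∫ U, (1 : ℝ) ∂(P d) := by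
    refine integral_mono (integrable_pw_cl (by linarith) (by linarith) p univ 0)
      (integrable_const _) fun U => ?_
    exact pw_le_one (by linarith) (by linarith) _
  rw [integral_const, smul_eq_mul, mul_one, probReal_univ] at h2
  linarith

theorem MM_le_one (p : ℝ) {h : ℝ} (h0 : 0 ≤ h) (h1 : h ≤ 1) : MM d p h ≤ 1 := by
  unfold MM
  have h2 : 0 ≤ ∫ U, pw (1 - h) (Cl (op p U) (univ : Set (V d)) 0) ∂(P d) :=
    integral_nonneg fun U => pw_nonneg (by linarith) _
  linarith

theorem MH.pw_preimage (s : ℝ) (φ : V d ≃ V d) (S : Set (V d)) : pw s (φ ⁻¹' S) = pw s S := by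
  unfold pw
  have h1 : (φ ⁻¹' S).Finite ↔ S.Finite := by
    constructor
    · intro h
      have := h.image φ
      rwa [φ.image_preimage] at this
    · intro h
      exact h.preimage φ.injective.injOn
  have h2 : (φ ⁻¹' S).ncard = S.ncard := by
    have := Set.ncard_image_of_injective (φ ⁻¹' S) φ.injective
    rw [φ.image_preimage] at this
    exact this.symm
  by_cases h : S.Finite
  · rw [if_pos h, if_pos (h1.2 h), h2]
  · rw [if_neg h, if_neg (fun hh => h (h1.1 hh))]

/-- clusters in `W` are smaller -/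
theorem MM_W (p : ℝ) {h : ℝ} (h0 : 0 ≤ h) (h1 : h ≤ 1) (W : Set (V d)) (a : V d) :
    1 - ∫ U, pw (1 - h) (Cl (op p U) W a) ∂(P d) ≤ MM d p h := by
  unfold MM
  obtain ⟨A, hA⟩ := exists_translation (d := d) a
  have h2 : ∫ U, pw (1 - h) (Cl (op p U) (univ : Set (V d)) 0) ∂(P d)
      = ∫ U, pw (1 - h) (Cl (op p U) (univ : Set (V d)) a) ∂(P d) := by
    rw [Harris.integral_mp (measurePreserving_comp A.ψ) (measurable_pw_cl (1 - h) p univ 0)]
    refine integral_congr_ae (Filter.Eventually.of_forall fun U => ?_)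
    have h3 := cl_aut A p U univ 0
    rw [preimage_univ, hA, zero_add] at h3
    show pw (1 - h) (Cl (op p (fun e => U (A.ψ e))) univ 0) = _
    rw [h3, MH.pw_preimage]
  rw [h2]
  have h4 : ∫ U, pw (1 - h) (Cl (op p U) (univ : Set (V d)) a) ∂(P d)
      ≤ ∫ U, pw (1 - h) (Cl (op p U) W a) ∂(P d) := by
    refine integral_mono (integrable_pw_cl (by linarith) (by linarith) p univ a)
      (integrable_pw_cl (by linarith) (by linarith) p W a) fun U => ?_
    exact pw_anti (by linarith) (by linarith) (cl_mono subset_rfl (subset_univ W) a)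
  linarith

/-! ### boundary edges -/

namespace MH

open Classical in
/-- edges touching the finite set `F` -/
noncomputable def T (F : Finset (V d)) : Finset (E d) :=
  (F ×ˢ (Finset.univ : Finset (Fin d))) ∪
    (F ×ˢ (Finset.univ : Finset (Fin d))).image fun z => (z.1 - Pi.single z.2 1, z.2)

open Classical in
/-- boundary edges -/
noncomputable def bd (F : Finset (V d)) : Finset (E d) :=
  (T F).filter fun e => (e.1 ∈ F ∧ tip e ∉ F) ∨ (e.1 ∉ F ∧ tip e ∈ F)

open Classical in
/-- the end off `F` of a boundary edge -/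
noncomputable def vE (F : Finset (V d)) (e : E d) : V d := if e.1 ∈ F then tip e else e.1

theorem card_bd (F : Finset (V d)) : (bd F).card ≤ 2 * d * F.card := by
  classical
  have h1 : (bd F).card ≤ (T F).card := Finset.card_filter_le _ _
  have h2 : (T F).card ≤ F.card * d + F.card * d := by
    refine (Finset.card_union_le _ _).trans ?_
    refine add_le_add ?_ ?_
    · rw [Finset.card_product, Finset.card_univ, Fintype.card_fin]
    · refine Finset.card_image_le.trans ?_
      rw [Finset.card_product, Finset.card_univ, Fintype.card_fin]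
  calc (bd F).card ≤ F.card * d + F.card * d := h1.trans h2
    _ = 2 * d * F.card := by ring

theorem mem_T {F : Finset (V d)} {e : E d} (h : e.1 ∈ F ∨ tip e ∈ F) : e ∈ T F := by
  classical
  unfold T
  rw [Finset.mem_union]
  rcases h with h | h
  · left
    rw [Finset.mem_product]
    exact ⟨h, Finset.mem_univ _⟩
  · right
    rw [Finset.mem_image]
    refine ⟨(tip e, e.2), ?_, ?_⟩
    · rw [Finset.mem_product]
      exact ⟨h, Finset.mem_univ _⟩
    · refine Prod.ext ?_ rfl
      show tip e - Pi.single e.2 1 = e.1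
      unfold tip
      exact add_sub_cancel_right _ _

theorem mem_bd {F : Finset (V d)} {e : E d} :
    e ∈ bd F ↔ (e.1 ∈ F ∧ tip e ∉ F) ∨ (e.1 ∉ F ∧ tip e ∈ F) := by
  classical
  unfold bd
  rw [Finset.mem_filter]
  constructor
  · exact fun h => h.2
  · intro h
    refine ⟨mem_T ?_, h⟩
    rcases h with h | h
    · exact Or.inl h.1
    · exact Or.inr h.2

theorem bd_of_joins {F : Finset (V d)} {e : E d} {a b : V d} (h : Joins e a b) (ha : a ∈ F)
    (hb : b ∉ F) : e ∈ bd F ∧ vE F e = b := by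
  rcases h with ⟨h1, h2⟩ | ⟨h1, h2⟩
  · subst h1 h2
    exact ⟨mem_bd.2 (Or.inl ⟨ha, hb⟩), by unfold vE; rw [if_pos ha]⟩
  · subst h1 h2
    exact ⟨mem_bd.2 (Or.inr ⟨hb, ha⟩), by unfold vE; rw [if_neg hb]⟩

theorem joins_of_bd {F : Finset (V d)} {e : E d} (h : e ∈ bd F) :
    ∃ a ∈ F, Joins e a (vE F e) ∧ vE F e ∉ F := by
  rcases mem_bd.1 h with ⟨h1, h2⟩ | ⟨h1, h2⟩
  · refine ⟨e.1, h1, ?_, ?_⟩
    · unfold vE; rw [if_pos h1]; exact Or.inl ⟨rfl, rfl⟩
    · unfold vE; rw [if_pos h1]; exact h2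
  · refine ⟨tip e, h2, ?_, ?_⟩
    · unfold vE; rw [if_neg h1]; exact Or.inr ⟨rfl, rfl⟩
    · unfold vE; rw [if_neg h1]; exact h1

/-- the event `C_p(0) = F` -/
theorem cl_eq_iff {p : ℝ} {U : Cfg d} {F : Finset (V d)} (h0 : (0 : V d) ∈ F) :
    Cl (op p U) univ 0 = (↑F : Set (V d)) ↔
      Cl (op p U) (↑F : Set (V d)) 0 = (↑F : Set (V d)) ∧ ∀ e ∈ bd F, p < U e := by
  constructor
  · intro h
    have hmem : ∀ x, Conn (op p U) univ 0 x → x ∈ F := by
      intro x hx
      have : x ∈ Cl (op p U) univ 0 := hx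
      rw [h] at this
      exact_mod_cast this
    have hmem' : ∀ x, x ∈ F → Conn (op p U) univ 0 x := by
      intro x hx
      have : x ∈ (↑F : Set (V d)) := by exact_mod_cast hx
      rw [← h] at this
      exact this
    refine ⟨?_, ?_⟩
    · refine Set.Subset.antisymm (fun x hx => ?_) (fun x hx => ?_)
      · exact Conn.right (a := 0) hx
      · have hx' := hmem' x (by exact_mod_cast hx)
        have := hx'.2
        show Conn (op p U) (↑F : Set (V d)) 0 x
        clear hx hx'
        induction this with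
        | refl => exact Conn.refl (by exact_mod_cast h0)
        | @tail y z hy hyz ih =>
          have hz : z ∈ F := hmem z ⟨mem_univ _, hy.tail hyz⟩
          refine ih.snoc ⟨ih.right, by exact_mod_cast hz, hyz.2.2⟩
    · intro e he
      by_contra hne
      rw [not_lt] at hne
      obtain ⟨a, ha, hj, hv⟩ := joins_of_bd he
      have := hmem' a ha
      exact hv (hmem _ (this.snoc ⟨mem_univ _, mem_univ _, e, hne, hj⟩))
  · rintro ⟨h1, h2⟩
    refine Set.Subset.antisymm (fun x hx => ?_) (fun x hx => ?_)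
    · have := Conn.symm hx |>.symm
      have hr := this.2
      clear this hx
      induction hr with
      | refl => exact_mod_cast h0
      | @tail y z hy hyz ih =>
        obtain ⟨-, -, e, he, hj⟩ := hyz
        by_contra hz
        have := h2 e (bd_of_joins hj (by exact_mod_cast ih) (by exact_mod_cast hz)).1
        exact absurd he (not_le.2 this)
    · rw [← h1] at hx
      exact Conn.mono subset_rfl (subset_univ _) hx

/-- the cluster at level `p'` -/
theorem cl_subset {p' : ℝ} {U : Cfg d} {F : Finset (V d)} (h0 : (0 : V d) ∈ F) :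
    Cl (op p' U) univ 0 ⊆ (↑F : Set (V d)) ∪
      ⋃ e ∈ bd F, {x | U e ≤ p' ∧ x ∈ Cl (op p' U) (↑F : Set (V d))ᶜ (vE F e)} := by
  intro x hx
  have hr := hx.2
  clear hx
  induction hr with
  | refl => exact Or.inl (by exact_mod_cast h0)
  | @tail y z hy hyz ih =>
    by_cases hz : z ∈ F
    · exact Or.inl (by exact_mod_cast hz)
    · right
      obtain ⟨-, -, e, he, hj⟩ := hyz
      have hz' : z ∈ (↑F : Set (V d))ᶜ := fun hh => hz (by exact_mod_cast hh)
      rcases ih with hy | hy
      · obtain ⟨hb, hv⟩ := bd_of_joins hj (by exact_mod_cast hy) hz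
        refine mem_iUnion₂.2 ⟨e, hb, he, ?_⟩
        rw [hv]
        exact Conn.refl hz'
      · obtain ⟨f, hf, hfU, hc⟩ := mem_iUnion₂.1 hy
        refine mem_iUnion₂.2 ⟨f, hf, hfU, ?_⟩
        exact Conn.snoc hc ⟨Conn.right hc, hz', e, he, hj⟩

theorem pw_iUnion {s : ℝ} (hs : 0 ≤ s) (hs1 : s ≤ 1) {ι : Type*} (I : Finset ι) (S : ι → Set (V d)) :
    ∏ i ∈ I, pw s (S i) ≤ pw s (⋃ i ∈ I, S i) := by
  classical
  induction I using Finset.induction_on with
  | empty =>
    have : pw s (∅ : Set (V d)) = 1 := by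
      unfold pw
      rw [if_pos Set.finite_empty]
      simp
    simp [this]
  | insert a I ha ih =>
    rw [Finset.prod_insert ha, Finset.set_biUnion_insert]
    exact (mul_le_mul_of_nonneg_left ih (pw_nonneg hs _)).trans (pw_union hs hs1 _ _)

/-- the factor of a boundary edge -/
noncomputable def g (s p p' : ℝ) (F : Finset (V d)) (e : E d) (U : Cfg d) : ℝ :=
  if U e ≤ p then 0 else if U e ≤ p' then pw s (Cl (op p' U) (↑F : Set (V d))ᶜ (vE F e)) else 1

theorem g_nonneg {s : ℝ} (hs : 0 ≤ s) (p p' : ℝ) (F : Finset (V d)) (e : E d) (U : Cfg d) :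
    0 ≤ g s p p' F e U := by
  unfold g
  split_ifs
  · exact le_rfl
  · exact pw_nonneg hs _
  · exact zero_le_one

theorem g_le_one {s : ℝ} (hs : 0 ≤ s) (hs1 : s ≤ 1) (p p' : ℝ) (F : Finset (V d)) (e : E d)
    (U : Cfg d) : g s p p' F e U ≤ 1 := by
  unfold g
  split_ifs
  · exact zero_le_one
  · exact pw_le_one hs hs1 _
  · exact le_rfl

theorem g_mono {s : ℝ} (hs : 0 ≤ s) (hs1 : s ≤ 1) (p p' : ℝ) (F : Finset (V d)) (e : E d) :
    Monotone (g s p p' F e) := by
  intro U U' h
  by_cases h1 : U e ≤ p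
  · have : g s p p' F e U = 0 := by unfold g; rw [if_pos h1]
    rw [this]
    exact g_nonneg hs _ _ _ _ _
  · have h1' : ¬ U' e ≤ p := fun hh => h1 ((h e).trans hh)
    by_cases h2 : U' e ≤ p'
    · have h2' : U e ≤ p' := (h e).trans h2
      unfold g
      rw [if_neg h1, if_neg h1', if_pos h2, if_pos h2']
      refine pw_anti hs hs1 (cl_mono ?_ subset_rfl _)
      intro f hf
      exact (h f).trans hf
    · have : g s p p' F e U' = 1 := by unfold g; rw [if_neg h1', if_neg h2]
      rw [this]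
      exact g_le_one hs hs1 _ _ _ _ _

theorem g_measurable (s p p' : ℝ) (F : Finset (V d)) (e : E d) : Measurable (g s p p' F e) := by
  unfold g
  refine Measurable.ite ?_ measurable_const (Measurable.ite ?_ ?_ measurable_const)
  · exact measurableSet_le (measurable_pi_apply e) measurable_const
  · exact measurableSet_le (measurable_pi_apply e) measurable_const
  · exact measurable_pw_cl _ _ _ _

theorem g_dep (s p p' : ℝ) {F : Finset (V d)} {e : E d} (he : e ∈ bd F) :
    DependsOn (g s p p' F e) (inner (↑F : Set (V d)))ᶜ := by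
  intro U U' h
  have h1 : U e = U' e := by
    apply h
    rintro ⟨a, b⟩
    rcases mem_bd.1 he with ⟨c, c'⟩ | ⟨c, c'⟩
    · exact c' (by exact_mod_cast b)
    · exact c (by exact_mod_cast a)
  have h2 : Cl (op p' U) (↑F : Set (V d))ᶜ (vE F e) = Cl (op p' U') (↑F : Set (V d))ᶜ (vE F e) := by
    apply dependsOn_cl p' (↑F : Set (V d))ᶜ (vE F e)
    intro f hf
    apply h
    rintro ⟨a, b⟩
    exact hf.1 a
  unfold g
  rw [h1, h2]

/-- Harris for a finite product -/
theorem harris_prod {ι : Type*} (I : Finset ι) {f : ι → Cfg d → ℝ} (hf : ∀ i, Measurable (f i))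
    (h0 : ∀ i U, 0 ≤ f i U) (h1 : ∀ i U, f i U ≤ 1) (hm : ∀ i, Monotone (f i)) :
    ∏ i ∈ I, ∫ U, f i U ∂(P d) ≤ ∫ U, ∏ i ∈ I, f i U ∂(P d) := by
  classical
  induction I using Finset.induction_on with
  | empty => simp
  | insert a I ha ih =>
    simp only [Finset.prod_insert ha]
    have hmeas : Measurable fun U => ∏ i ∈ I, f i U :=
      Finset.measurable_prod _ fun i _ => hf i
    have hp0 : ∀ U, 0 ≤ ∏ i ∈ I, f i U := fun U => Finset.prod_nonneg fun i _ => h0 i U
    have hp1 : ∀ U, ∏ i ∈ I, f i U ≤ 1 := fun U =>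
      Finset.prod_le_one (fun i _ => h0 i U) fun i _ => h1 i U
    have hmono : Monotone fun U => ∏ i ∈ I, f i U := fun U U' h =>
      Finset.prod_le_prod (fun i _ => h0 i U) fun i _ => hm i h
    have h2 := harris (hf a) hmeas 1 (fun U => by rw [abs_of_nonneg (h0 a U)]; exact h1 a U)
      (fun U => by rw [abs_of_nonneg (hp0 U)]; exact hp1 U) (Or.inl ⟨hm a, hmono⟩)
    refine le_trans ?_ h2
    exact mul_le_mul_of_nonneg_left ih (integral_nonneg fun U => h0 a U)

/-- the probability that the finite set `I` of edges is closed at level `p` -/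
theorem prob_closed (I : Finset (E d)) {p : ℝ} (hp : 0 ≤ p) (hp1 : p ≤ 1) :
    (P d).real {U : Cfg d | ∀ e ∈ I, p < U e} = (1 - p) ^ I.card := by
  have h1 : {U : Cfg d | ∀ e ∈ I, p < U e} = Set.pi (↑I) (fun _ => Ioi p) := by
    ext U
    simp [Set.mem_pi]
  have h2 : unif (Ioi p) = ENNReal.ofReal (1 - p) := by
    unfold unif
    rw [Measure.restrict_apply measurableSet_Ioi]
    have : Ioi p ∩ Icc 0 1 = Ioc p 1 := by
      ext x
      simp only [mem_inter_iff, mem_Ioi, mem_Icc, mem_Ioc]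
      constructor
      · rintro ⟨a, b, c⟩; exact ⟨a, c⟩
      · rintro ⟨a, b⟩; exact ⟨a, by linarith, b⟩
    rw [this, Real.volume_Ioc]
  rw [h1, measureReal_def]
  unfold P
  rw [Measure.infinitePi_pi _ (fun _ _ => measurableSet_Ioi), Finset.prod_const, h2,
    ENNReal.toReal_pow, ENNReal.toReal_ofReal (by linarith)]

theorem g_int {p p' h : ℝ} (hp : 0 ≤ p) (hpp : p ≤ p') (hp' : p' ≤ 1) (h0 : 0 ≤ h) (h1 : h ≤ 1)
    {F : Finset (V d)} {e : E d} (he : e ∈ bd F) :
    (1 - p) - (p' - p) * MM d p' h ≤ ∫ U, g (1 - h) p p' F e U ∂(P d) := by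
  classical
  set C : Cfg d → ℝ := fun U => pw (1 - h) (Cl (op p' U) (↑F : Set (V d))ᶜ (vE F e)) with hC
  set A : Set (Cfg d) := {U | p < U e ∧ U e ≤ p'} with hA
  set B : Set (Cfg d) := {U | p' < U e ∧ U e ≤ 1} with hB
  have hAm : MeasurableSet A := (measurableSet_lt measurable_const (measurable_pi_apply e)).inter
    (measurableSet_le (measurable_pi_apply e) measurable_const)
  have hBm : MeasurableSet B := (measurableSet_lt measurable_const (measurable_pi_apply e)).inter
    (measurableSet_le (measurable_pi_apply e) measurable_const)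
  have hCm : Measurable C := measurable_pw_cl _ _ _ _
  have hpt : ∀ U, A.indicator (fun _ => (1 : ℝ)) U * C U + B.indicator (fun _ => (1 : ℝ)) U
      ≤ g (1 - h) p p' F e U := by
    intro U
    by_cases hU1 : U e ≤ p
    · have a1 : U ∉ A := fun hh => absurd hh.1 (not_lt.2 hU1)
      have a2 : U ∉ B := fun hh => absurd hh.1 (not_lt.2 (hU1.trans hpp))
      rw [indicator_of_notMem a1, indicator_of_notMem a2]
      simpa using g_nonneg (by linarith) _ _ _ _ _
    · by_cases hU2 : U e ≤ p'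
      · have a1 : U ∈ A := ⟨not_le.1 hU1, hU2⟩
        have a2 : U ∉ B := fun hh => absurd hh.1 (not_lt.2 hU2)
        rw [indicator_of_mem a1, indicator_of_notMem a2]
        unfold g
        rw [if_neg hU1, if_pos hU2]
        simp [hC]
      · have a1 : U ∉ A := fun hh => hU2 hh.2
        rw [indicator_of_notMem a1, zero_mul, zero_add]
        unfold g
        rw [if_neg hU1, if_neg hU2]
        exact Set.indicator_le_self' (fun _ _ => zero_le_one) U
  have hC0 : ∀ U, 0 ≤ C U := fun U => pw_nonneg (by linarith) _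
  have hC1 : ∀ U, C U ≤ 1 := fun U => pw_le_one (by linarith) (by linarith) _
  have hmA : Measurable (A.indicator (fun _ => (1 : ℝ)) : Cfg d → ℝ) :=
    measurable_const.indicator hAm
  have hmB : Measurable (B.indicator (fun _ => (1 : ℝ)) : Cfg d → ℝ) :=
    measurable_const.indicator hBm
  have hiA : ∀ (S : Set (Cfg d)) (U : Cfg d), |S.indicator (fun _ => (1 : ℝ)) U| ≤ 1 := by
    intro S U
    by_cases hh : U ∈ S
    · rw [indicator_of_mem hh]; simp
    · rw [indicator_of_notMem hh]; simp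
  have i1 : Integrable (fun U => A.indicator (fun _ => (1 : ℝ)) U * C U) (P d) :=
    Harris.int_mul hmA hCm (hiA A) (fun U => by rw [abs_of_nonneg (hC0 U)]; exact hC1 U)
  have i2 : Integrable (fun U => B.indicator (fun _ => (1 : ℝ)) U) (P d) :=
    Harris.int_of_bdd hmB (hiA B)
  have i3 : Integrable (g (1 - h) p p' F e) (P d) :=
    Harris.int_of_bdd (g_measurable _ _ _ _ _) (C := 1) fun U => by
      rw [abs_of_nonneg (g_nonneg (by linarith) _ _ _ _ _)]
      exact g_le_one (by linarith) (by linarith) _ _ _ _ _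
  have hle : ∫ U, (A.indicator (fun _ => (1 : ℝ)) U * C U + B.indicator (fun _ => (1 : ℝ)) U) ∂(P d)
      ≤ ∫ U, g (1 - h) p p' F e U ∂(P d) := integral_mono (i1.add i2) i3 hpt
  rw [integral_add i1 i2] at hle
  have hdA : DependsOn (A.indicator (fun _ => (1 : ℝ)) : Cfg d → ℝ) ({e} : Set (E d)) := by
    intro U U' hU
    have : U e = U' e := hU e rfl
    have h2 : U ∈ A ↔ U' ∈ A := by
      show (p < U e ∧ U e ≤ p') ↔ (p < U' e ∧ U' e ≤ p')
      rw [this]
    by_cases hh : U ∈ A
    · rw [indicator_of_mem hh, indicator_of_mem (h2.1 hh)]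
    · rw [indicator_of_notMem hh, indicator_of_notMem (fun h3 => hh (h2.2 h3))]
  have hdC : DependsOn C (inner ((↑F : Set (V d))ᶜ)) := by
    intro U U' hU
    have := dependsOn_cl p' (↑F : Set (V d))ᶜ (vE F e) hU
    simp only [hC]
    exact congrArg _ this
  have hdis : Disjoint ({e} : Set (E d)) (inner ((↑F : Set (V d))ᶜ)) := by
    rw [Set.disjoint_singleton_left]
    rintro ⟨a, b⟩
    rcases mem_bd.1 he with ⟨c, c'⟩ | ⟨c, c'⟩
    · exact a (by exact_mod_cast c)
    · exact b (by exact_mod_cast c')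
  rw [integral_mul_of_dependsOn hmA hCm hdA hdC hdis] at hle
  have e1 : ∫ U, A.indicator (fun _ => (1 : ℝ)) U ∂(P d) = p' - p := by
    rw [integral_indicator_const _ hAm, smul_eq_mul, mul_one]
    exact prob_level e hp hpp hp'
  have e2 : ∫ U, B.indicator (fun _ => (1 : ℝ)) U ∂(P d) = 1 - p' := by
    rw [integral_indicator_const _ hBm, smul_eq_mul, mul_one]
    exact prob_level e (hp.trans hpp) hp' le_rfl
  rw [e1, e2] at hle
  have e3 := MM_W p' h0 h1 (↑F : Set (V d))ᶜ (vE F e)
  have e4 : 1 - MM d p' h ≤ ∫ U, C U ∂(P d) := by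
    have : ∫ U, C U ∂(P d) = ∫ U, pw (1 - h) (Cl (op p' U) (↑F : Set (V d))ᶜ (vE F e)) ∂(P d) := rfl
    rw [this]
    linarith
  nlinarith [mul_le_mul_of_nonneg_left e4 (sub_nonneg.2 hpp)]

/-- the main estimate on `C_p(0) = F` -/
theorem step {p p' h : ℝ} (hp : 0 ≤ p) (hpp : p ≤ p') (hp1 : p < 1) (hp' : p' ≤ 1) (h0 : 0 ≤ h)
    (h1 : h ≤ 1) (F : Finset (V d)) :
    ∫ U in {U : Cfg d | Cl (op p U) univ 0 = (↑F : Set (V d))},
        pw ((1 - h) * (1 - (p' - p) / (1 - p) * MM d p' h) ^ (2 * d)) (Cl (op p U) univ 0) ∂(P d)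
      ≤ ∫ U in {U : Cfg d | Cl (op p U) univ 0 = (↑F : Set (V d))},
        pw (1 - h) (Cl (op p' U) univ 0) ∂(P d) := by
  classical
  set A : Set (Cfg d) := {U : Cfg d | Cl (op p U) univ 0 = (↑F : Set (V d))} with hA
  have hAm : MeasurableSet A := measurableSet_cl_eq p univ _ 0
  by_cases hF0 : (0 : V d) ∈ F
  swap
  · have : A = ∅ := by
      ext U
      simp only [hA, mem_setOf_eq, mem_empty_iff_false, iff_false]
      intro hU
      have h2 : (0 : V d) ∈ Cl (op p U) univ 0 := Conn.refl (mem_univ _)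
      rw [hU] at h2
      exact hF0 (by exact_mod_cast h2)
    rw [this]
    simp
  have hM0 := MM_nonneg (d := d) p' h0 h1
  have hM1 := MM_le_one (d := d) p' h0 h1
  set b : ℝ := 1 - (p' - p) / (1 - p) * MM d p' h with hb
  have h1p : 0 < 1 - p := by linarith
  have hs0 : 0 ≤ (p' - p) / (1 - p) := div_nonneg (by linarith) h1p.le
  have hs1 : (p' - p) / (1 - p) ≤ 1 := by rw [div_le_one h1p]; linarith
  have hb0 : 0 ≤ b := by
    have : (p' - p) / (1 - p) * MM d p' h ≤ 1 := mul_le_one₀ hs1 hM0 hM1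
    linarith
  have hb1 : b ≤ 1 := by
    have : 0 ≤ (p' - p) / (1 - p) * MM d p' h := mul_nonneg hs0 hM0
    linarith
  have h1h : 0 ≤ 1 - h := by linarith
  have h1h' : 1 - h ≤ 1 := by linarith
  have hpwF : ∀ s : ℝ, pw s (↑F : Set (V d)) = s ^ F.card := by
    intro s
    unfold pw
    rw [if_pos F.finite_toSet, Set.ncard_coe_finset]
  -- left side
  have hL : ∫ U in A, pw ((1 - h) * b ^ (2 * d)) (Cl (op p U) univ 0) ∂(P d)
      = (P d).real A * ((1 - h) * b ^ (2 * d)) ^ F.card := by
    have : ∫ U in A, pw ((1 - h) * b ^ (2 * d)) (Cl (op p U) univ 0) ∂(P d)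
        = ∫ U in A, ((1 - h) * b ^ (2 * d)) ^ F.card ∂(P d) := by
      refine setIntegral_congr_fun hAm fun U hU => ?_
      have hU' : Cl (op p U) univ 0 = (↑F : Set (V d)) := hU
      show pw ((1 - h) * b ^ (2 * d)) (Cl (op p U) univ 0) = _
      rw [hU', hpwF]
    rw [this, setIntegral_const, smul_eq_mul]
  rw [hL]
  -- the event `G_F`
  set G : Set (Cfg d) := {U | Cl (op p U) (↑F : Set (V d)) 0 = (↑F : Set (V d))} with hG
  have hGm : MeasurableSet G := measurableSet_cl_eq p _ _ 0
  have hAG : A = G ∩ {U : Cfg d | ∀ e ∈ bd F, p < U e} := by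
    ext U
    exact cl_eq_iff hF0
  have hclm : MeasurableSet {U : Cfg d | ∀ e ∈ bd F, p < U e} := by
    have : {U : Cfg d | ∀ e ∈ bd F, p < U e} = ⋂ e ∈ bd F, {U : Cfg d | p < U e} := by
      ext U; simp
    rw [this]
    exact Finset.measurableSet_biInter _ fun e _ =>
      measurableSet_lt measurable_const (measurable_pi_apply e)
  have hGdep : DependsOn (fun U => U ∈ G) (inner (↑F : Set (V d))) := by
    intro U U' hU
    have := dependsOn_cl p (↑F : Set (V d)) 0 hU
    show (Cl (op p U) (↑F : Set (V d)) 0 = (↑F : Set (V d)))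
      = (Cl (op p U') (↑F : Set (V d)) 0 = (↑F : Set (V d)))
    rw [show Cl (op p U) (↑F : Set (V d)) 0 = Cl (op p U') (↑F : Set (V d)) 0 from this]
  have hPA : (P d).real A = (P d).real G * (1 - p) ^ (bd F).card := by
    rw [hAG, prob_inter hGm hclm hGdep (T := (inner (↑F : Set (V d)))ᶜ) ?_ disjoint_compl_right,
      prob_closed _ hp hp1.le]
    intro U U' hU
    have key : ∀ e ∈ bd F, U e = U' e := by
      intro e he
      apply hU
      rintro ⟨a, b⟩
      rcases mem_bd.1 he with ⟨c, c'⟩ | ⟨c, c'⟩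
      · exact c' (by exact_mod_cast b)
      · exact c (by exact_mod_cast a)
    show (∀ e ∈ bd F, p < U e) = (∀ e ∈ bd F, p < U' e)
    refine propext (forall₂_congr fun e he => ?_)
    rw [key e he]
  -- the product
  set Gi : Cfg d → ℝ := G.indicator (fun _ => (1 : ℝ)) with hGi
  set Pr : Cfg d → ℝ := fun U => ∏ e ∈ bd F, g (1 - h) p p' F e U with hPr
  have hGim : Measurable Gi := measurable_const.indicator hGm
  have hPrm : Measurable Pr := Finset.measurable_prod _ fun e _ => g_measurable _ _ _ _ _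
  have hPr0 : ∀ U, 0 ≤ Pr U := fun U => Finset.prod_nonneg fun e _ => g_nonneg h1h _ _ _ _ _
  have hPr1 : ∀ U, Pr U ≤ 1 := fun U =>
    Finset.prod_le_one (fun e _ => g_nonneg h1h _ _ _ _ _) fun e _ => g_le_one h1h h1h' _ _ _ _ _
  have hpt : ∀ U, (1 - h) ^ F.card * (Gi U * Pr U)
      ≤ A.indicator (fun U => pw (1 - h) (Cl (op p' U) univ 0)) U := by
    intro U
    by_cases hU : U ∈ A
    · rw [indicator_of_mem hU]
      have hU2 : U ∈ G ∩ {U : Cfg d | ∀ e ∈ bd F, p < U e} := hAG ▸ hU
      have e1 : Gi U = 1 := indicator_of_mem hU2.1 _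
      have e2 : Pr U = ∏ e ∈ bd F,
          pw (1 - h) {x | U e ≤ p' ∧ x ∈ Cl (op p' U) (↑F : Set (V d))ᶜ (vE F e)} := by
        refine Finset.prod_congr rfl fun e he => ?_
        have h3 : p < U e := hU2.2 e he
        unfold g
        rw [if_neg (not_le.2 h3)]
        by_cases h4 : U e ≤ p'
        · rw [if_pos h4]
          congr 1
          ext x
          simp [h4]
        · rw [if_neg h4]
          have : {x | U e ≤ p' ∧ x ∈ Cl (op p' U) (↑F : Set (V d))ᶜ (vE F e)} = ∅ := by
            ext x; simp [h4]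
          rw [this]
          unfold pw
          rw [if_pos Set.finite_empty]
          simp
      rw [e1, one_mul, e2, ← hpwF]
      calc pw (1 - h) (↑F : Set (V d)) * ∏ e ∈ bd F,
            pw (1 - h) {x | U e ≤ p' ∧ x ∈ Cl (op p' U) (↑F : Set (V d))ᶜ (vE F e)}
          ≤ pw (1 - h) (↑F : Set (V d)) * pw (1 - h) (⋃ e ∈ bd F,
            {x | U e ≤ p' ∧ x ∈ Cl (op p' U) (↑F : Set (V d))ᶜ (vE F e)}) :=
            mul_le_mul_of_nonneg_left (pw_iUnion h1h h1h' _ _) (pw_nonneg h1h _)
        _ ≤ pw (1 - h) ((↑F : Set (V d)) ∪ ⋃ e ∈ bd F,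
            {x | U e ≤ p' ∧ x ∈ Cl (op p' U) (↑F : Set (V d))ᶜ (vE F e)}) := pw_union h1h h1h' _ _
        _ ≤ _ := pw_anti h1h h1h' (cl_subset hF0)
    · rw [indicator_of_notMem hU]
      have hU2 : U ∉ G ∩ {U : Cfg d | ∀ e ∈ bd F, p < U e} := fun hh => hU (hAG ▸ hh)
      have : Gi U * Pr U = 0 := by
        by_cases hg : U ∈ G
        · have h3 : ¬ ∀ e ∈ bd F, p < U e := fun hh => hU2 ⟨hg, hh⟩
          push Not at h3
          obtain ⟨e, he, hle⟩ := h3
          have : Pr U = 0 := Finset.prod_eq_zero he (by unfold g; rw [if_pos hle])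
          rw [this, mul_zero]
        · rw [show Gi U = 0 from indicator_of_notMem hg _, zero_mul]
      rw [this, mul_zero]
  have hiG : ∀ U, |Gi U| ≤ 1 := by
    intro U
    by_cases hh : U ∈ G
    · rw [hGi, indicator_of_mem hh]; simp
    · rw [hGi, indicator_of_notMem hh]; simp
  have i1 : Integrable (fun U => (1 - h) ^ F.card * (Gi U * Pr U)) (P d) :=
    (Harris.int_mul hGim hPrm hiG (fun U => by
      rw [abs_of_nonneg (hPr0 U)]; exact hPr1 U)).const_mul _
  have i2 : Integrable (A.indicator (fun U => pw (1 - h) (Cl (op p' U) univ 0))) (P d) :=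
    (integrable_pw_cl h1h h1h' p' univ 0).indicator hAm
  have hle := integral_mono i1 i2 hpt
  rw [integral_indicator hAm] at hle
  refine le_trans ?_ hle
  rw [integral_const_mul, integral_mul_of_dependsOn hGim hPrm (S := inner (↑F : Set (V d)))
    (T := (inner (↑F : Set (V d)))ᶜ) ?_ ?_ disjoint_compl_right]
  · have e1 : ∫ U, Gi U ∂(P d) = (P d).real G := by
      rw [hGi, integral_indicator_const _ hGm, smul_eq_mul, mul_one]
    have e2 : ((1 - p) * b) ^ (bd F).card ≤ ∫ U, Pr U ∂(P d) := by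
      refine le_trans ?_ (harris_prod (bd F) (fun e => g_measurable (1 - h) p p' F e)
        (fun e U => g_nonneg h1h _ _ _ _ _) (fun e U => g_le_one h1h h1h' _ _ _ _ _)
        (fun e => g_mono h1h h1h' _ _ _ _))
      rw [← Finset.prod_const]
      refine Finset.prod_le_prod (fun e _ => mul_nonneg h1p.le hb0) fun e he => ?_
      refine le_trans (le_of_eq ?_) (g_int hp hpp hp' h0 h1 he)
      rw [hb]
      field_simp
    rw [e1, hPA]
    have e3 : b ^ (2 * d * F.card) ≤ b ^ (bd F).card :=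
      pow_le_pow_of_le_one hb0 hb1 (card_bd F)
    have hG0 : 0 ≤ (P d).real G := measureReal_nonneg
    calc (P d).real G * (1 - p) ^ (bd F).card * ((1 - h) * b ^ (2 * d)) ^ F.card
        = ((1 - h) ^ F.card * (P d).real G * (1 - p) ^ (bd F).card) * b ^ (2 * d * F.card) := by
          rw [mul_pow, ← pow_mul]; ring
      _ ≤ ((1 - h) ^ F.card * (P d).real G * (1 - p) ^ (bd F).card) * b ^ (bd F).card := by
          refine mul_le_mul_of_nonneg_left e3 ?_
          positivity
      _ = (1 - h) ^ F.card * ((P d).real G * ((1 - p) * b) ^ (bd F).card) := by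
          rw [mul_pow]; ring
      _ ≤ (1 - h) ^ F.card * ((P d).real G * ∫ U, Pr U ∂(P d)) := by
          refine mul_le_mul_of_nonneg_left (mul_le_mul_of_nonneg_left e2 hG0) (by positivity)
  · intro U U' hU
    have h2 : (U ∈ G) = (U' ∈ G) := hGdep hU
    show Gi U = Gi U'
    by_cases hh : U ∈ G
    · rw [hGi, indicator_of_mem hh, indicator_of_mem (h2 ▸ hh)]
    · rw [hGi, indicator_of_notMem hh, indicator_of_notMem (h2 ▸ hh)]
  · intro U U' hU
    exact Finset.prod_congr rfl fun e he => g_dep _ _ _ he hU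

end MH

open MH in
theorem MM_compare {p p' h : ℝ} (hp : 0 ≤ p) (hpp : p ≤ p') (hp1 : p < 1) (hp' : p' ≤ 1) (h0 : 0 ≤ h)
    (h1 : h ≤ 1) :
    MM d p' h ≤ MM d p (1 - (1 - h) * (1 - (p' - p) / (1 - p) * MM d p' h) ^ (2 * d)) := by
  classical
  have hM0 := MM_nonneg (d := d) p' h0 h1
  have hM1 := MM_le_one (d := d) p' h0 h1
  have h1p : 0 < 1 - p := by linarith
  have hs0 : 0 ≤ (p' - p) / (1 - p) := div_nonneg (by linarith) h1p.le
  have hs1 : (p' - p) / (1 - p) ≤ 1 := by rw [div_le_one h1p]; linarith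
  have hb0 : 0 ≤ 1 - (p' - p) / (1 - p) * MM d p' h := by
    have : (p' - p) / (1 - p) * MM d p' h ≤ 1 := mul_le_one₀ hs1 hM0 hM1
    linarith
  have hb1 : 1 - (p' - p) / (1 - p) * MM d p' h ≤ 1 := by
    have : 0 ≤ (p' - p) / (1 - p) * MM d p' h := mul_nonneg hs0 hM0
    linarith
  have ha0 : 0 ≤ (1 - h) * (1 - (p' - p) / (1 - p) * MM d p' h) ^ (2 * d) :=
    mul_nonneg (by linarith) (pow_nonneg hb0 _)
  have ha1 : (1 - h) * (1 - (p' - p) / (1 - p) * MM d p' h) ^ (2 * d) ≤ 1 :=
    mul_le_one₀ (by linarith) (pow_nonneg hb0 _) (pow_le_one₀ hb0 hb1)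
  set a' : ℝ := (1 - h) * (1 - (p' - p) / (1 - p) * MM d p' h) ^ (2 * d) with ha'
  have e1 : MM d p (1 - a') = 1 - ∫ U, pw a' (Cl (op p U) (univ : Set (V d)) 0) ∂(P d) := by
    unfold MM
    rw [sub_sub_cancel]
  rw [e1]
  show 1 - ∫ U, pw (1 - h) (Cl (op p' U) (univ : Set (V d)) 0) ∂(P d) ≤ _
  refine sub_le_sub_left ?_ 1
  set A : Finset (V d) → Set (Cfg d) := fun F =>
    {U : Cfg d | Cl (op p U) univ 0 = (↑F : Set (V d))} with hA
  have hAm : ∀ F, MeasurableSet (A F) := fun F => measurableSet_cl_eq p univ _ 0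
  have hAd : Pairwise (Function.onFun Disjoint A) := by
    intro F F' hne
    refine Set.disjoint_left.2 fun U hU hU' => hne ?_
    have h2 : (↑F : Set (V d)) = ↑F' := hU.symm.trans hU'
    exact_mod_cast h2
  have i1 := integrable_pw_cl (d := d) ha0 ha1 p univ 0
  have i2 := integrable_pw_cl (d := d) (s := 1 - h) (by linarith) (by linarith) p' univ 0
  have s1 := hasSum_integral_iUnion hAm hAd i1.integrableOn
  have s2 := hasSum_integral_iUnion hAm hAd i2.integrableOn
  have h3 := hasSum_le (fun F => step hp hpp hp1 hp' h0 h1 F) s1 s2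
  have h4 : ∫ U, pw a' (Cl (op p U) (univ : Set (V d)) 0) ∂(P d)
      = ∫ U in ⋃ F, A F, pw a' (Cl (op p U) (univ : Set (V d)) 0) ∂(P d) := by
    refine (setIntegral_eq_integral_of_forall_compl_eq_zero fun U hU => ?_).symm
    unfold pw
    rw [if_neg]
    intro hfin
    exact hU (mem_iUnion.2 ⟨hfin.toFinset, by simp [hA]⟩)
  rw [h4]
  refine h3.trans ?_
  exact setIntegral_le_integral i2 (Filter.Eventually.of_forall fun U => pw_nonneg (by linarith) _)

end Pool.Agent.helper88.FPM
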