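import Pool.Agent.helper88.FPM.MSecond
import Pool.Agent.helper88.FPM.MChi
import Pool.Agent.helper88.FPM.MHarris
import Pool.Agent.helper88.FPM.MCalc
import Pool.Agent.helper88.FPM.MGen

/-! FP project, part M: assembly of the mean-field bound. -/

set_option autoImplicit false

open MeasureTheory Set Filter Topology
open scoped ENNReal

namespace Pool.Agent.helper88.FPM

open Pool.Agent.helper55.FP

variable {d : ℕ}

theorem m2_toReal_ge {pc : ℝ} (hpc1 : pc ≤ 1) (hS : SubExp d pc) {η : ℝ} (hη0 : 0 < η)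
    (hη : η ≤ 1 / 40 / 960) (hd : 4 / η ≤ d)
    (htri : ∀ p, 0 ≤ p → p < pc → ∀ z : V d, z ≠ 0 → cpow (tau p) 3 z ≤ η) {p : ℝ} (hp : 0 ≤ p)
    (hpc : p < pc) (hχ : 10 ≤ chi d p) : 0.4 * chi d p ^ 3 ≤ (m2 d p).toReal := by
  have hX := XE_ne_top hS hp hpc
  have h1 : 1 / chi d 0 - 1 / chi d p ≤ 2 * d * (p - 0) := inv_chi_upper hpc1 hS le_rfl hp hpc
  rw [chi_zero] at h1
  have hpos : 0 < chi d p := by linarith
  have h2 : 1 / chi d p ≤ 1 / 10 := one_div_le_one_div_of_le (by norm_num) hχ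
  have h3 : 9 / 10 ≤ 2 * (d : ℝ) * p := by norm_num at h1 ⊢; norm_num at h2; linarith
  have hd1 : (1000 : ℝ) ≤ d := by
    have h' : (1000 : ℝ) ≤ 4 / η := by
      rw [le_div_iff₀ hη0]; nlinarith
    linarith
  have hp1 : p ≤ 1 := by linarith
  have hm := m2_ge (d := d) (p := p) hp hp1 hX (ENNReal.ofReal η)
    (fun z hz => T3_le hX (htri p hp hpc z hz))
  have hm3 : m2 d p ≠ ∞ := ne_top_of_le_ne_top (ENNReal.pow_ne_top hX) (m2_le p)
  have hX3 : XE d p ^ 3 ≠ ∞ := ENNReal.pow_ne_top hX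
  have hcast : ((2 * d - 1 : ℕ) : ℝ) = 2 * d - 1 := by
    have : 1 ≤ 2 * d := by
      have : (1 : ℝ) ≤ d := by linarith
      have : 1 ≤ d := by exact_mod_cast this
      omega
    push_cast [Nat.cast_sub this]; ring
  have hd2 : (2 * (d : ℝ≥0∞)) ≠ ∞ := ENNReal.mul_ne_top (by simp) (by simp)
  have hm' := ENNReal.toReal_mono (by
    refine ENNReal.add_ne_top.2 ⟨hm3, ?_⟩
    refine ENNReal.mul_ne_top (ENNReal.mul_ne_top (ENNReal.mul_ne_top (ENNReal.mul_ne_top ?_ hd2) ?_) ?_) hX3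
    · exact ENNReal.pow_ne_top ENNReal.ofReal_ne_top
    · exact ENNReal.natCast_ne_top _
    · exact ENNReal.mul_ne_top (by simp) ENNReal.ofReal_ne_top) hm
  rw [ENNReal.toReal_add hm3 (by
    refine ENNReal.mul_ne_top (ENNReal.mul_ne_top (ENNReal.mul_ne_top (ENNReal.mul_ne_top ?_ hd2) ?_) ?_) hX3
    · exact ENNReal.pow_ne_top ENNReal.ofReal_ne_top
    · exact ENNReal.natCast_ne_top _
    · exact ENNReal.mul_ne_top (by simp) ENNReal.ofReal_ne_top)] at hm'
  simp only [ENNReal.toReal_mul, ENNReal.toReal_pow, XE_toReal, ENNReal.toReal_ofReal hp,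
    ENNReal.toReal_natCast, hcast, ENNReal.toReal_ofReal hη0.le, ENNReal.toReal_ofNat] at hm'
  -- c chi^3 (1 - 3 eta) ≤ m2
  have hc : (0.9 : ℝ) * 0.85 ≤ p ^ 2 * (2 * d) * (2 * d - 1) := by
    have e1 : p ^ 2 * (2 * (d : ℝ)) * (2 * d - 1) = (2 * d * p) * ((2 * d * p) * (1 - 1 / (2 * d))) := by
      field_simp
    have e2 : (999 / 1000 : ℝ) ≤ 1 - 1 / (2 * d) := by
      have : 1 / (2 * (d : ℝ)) ≤ 1 / 2000 := one_div_le_one_div_of_le (by norm_num) (by linarith)
      linarith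
    have e3 : (0.85 : ℝ) ≤ (2 * d * p) * (1 - 1 / (2 * d)) := by nlinarith
    rw [e1]
    nlinarith
  have hχ3 : 0 < chi d p ^ 3 := by positivity
  have h4 : p ^ 2 * (2 * (d : ℝ)) * (2 * d - 1) * (1 - 3 * η) * chi d p ^ 3 ≤ (m2 d p).toReal := by
    nlinarith [hm']
  have h5 : (0.4 : ℝ) ≤ p ^ 2 * (2 * (d : ℝ)) * (2 * d - 1) * (1 - 3 * η) := by
    have : (0.9 : ℝ) ≤ 1 - 3 * η := by linarith
    nlinarith
  calc 0.4 * chi d p ^ 3 ≤ p ^ 2 * (2 * (d : ℝ)) * (2 * d - 1) * (1 - 3 * η) * chi d p ^ 3 :=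
        mul_le_mul_of_nonneg_right h5 hχ3.le
    _ ≤ _ := h4

theorem m3_toReal_le {p : ℝ} (hX : XE d p ≠ ∞) : (m3 d p).toReal ≤ 3 * chi d p ^ 5 := by
  have h := ENNReal.toReal_mono (ENNReal.mul_ne_top (by simp) (ENNReal.pow_ne_top hX)) (m3_le (d := d) p)
  simpa [ENNReal.toReal_mul, ENNReal.toReal_pow, XE_toReal] using h

theorem chi_mono {p q : ℝ} (h : p ≤ q) (hX : XE d q ≠ ∞) : chi d p ≤ chi d q := by
  rw [← XE_toReal, ← XE_toReal]
  exact ENNReal.toReal_mono hX (XE_mono h)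

/-- the bound at the levels below `pc` -/
theorem MM_below {pc : ℝ} (hpc1 : pc ≤ 1) (hS : SubExp d pc) {η : ℝ} (hη0 : 0 < η)
    (hη : η ≤ 1 / 40 / 960) (hd : 4 / η ≤ d) (hL : LaceOut d η pc) {p1 : ℝ} (hp0 : 0 ≤ p1) (hp1 : p1 < pc)
    (h20 : 20 ≤ chi d p1) {h : ℝ} (hh : 0 < h) (hh0 : h < (1 / 40 / 220) ^ 2) :
    MM d p1 h ≤ max (22 * Real.sqrt h) (2 * (1 / 40) / chi d p1) := by
  have hX1 := XE_ne_top hS hp0 hp1
  have hd1 : (1000 : ℝ) ≤ d := by
    have h' : (1000 : ℝ) ≤ 4 / η := by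
      rw [le_div_iff₀ hη0]; nlinarith
    linarith
  have hpcle := hL.pc_le
  refine calc_main (D := d) (κ := 1 / 40) (η := η) (p1 := p1) (χ := chi d) (M := MM d p1) rfl hη0 hη hd hp0
    ?_ chi_zero ?_ ?_ ?_ ?_ (MM_zero hX1) ?_ ?_ h20 hh hh0
  · have : 2 * (d : ℝ) * p1 ≤ 2 * d * pc := by
      apply mul_le_mul_of_nonneg_left hp1.le; positivity
    linarith
  · intro p h0 h1
    exact one_le_chi (XE_ne_top hS h0 (lt_of_le_of_lt h1 hp1))
  · intro p q h0 h1 h2
    exact inv_chi_upper hpc1 hS h0 h1 (lt_of_le_of_lt h2 hp1)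
  · intro p q h0 h1 h2
    exact inv_chi_lower hpc1 hS hη0.le (by linarith) hL.tri h0 h1 (lt_of_le_of_lt h2 hp1)
  · intro h h' h0 h1 h2
    exact MM_lip hX1 h0 h1 h2
  · intro h h0 h1
    exact ⟨MM_nonneg p1 h0 h1, MM_le_one p1 h0 h1⟩
  · intro p h0 h1 h10 h hh hh2 l hl
    have hX := XE_ne_top hS h0 (h1.trans hp1)
    have hM0 : 0 ≤ MM d p1 h := MM_nonneg p1 hh.le (by linarith)
    have hM1 : MM d p1 h ≤ 1 := MM_le_one p1 hh.le (by linarith)
    have hp1' : p1 < 1 := lt_of_lt_of_le hp1 hpc1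
    have hp' : p < 1 := h1.trans hp1'
    set s := (p1 - p) / (1 - p) with hs
    have hs0 : 0 ≤ s := div_nonneg (by linarith) (by linarith)
    have hs1 : s < 1 := by rw [hs, div_lt_one (by linarith)]; linarith
    have hsM : s * MM d p1 h < 1 := by nlinarith
    have hsM0 : 0 ≤ s * MM d p1 h := mul_nonneg hs0 hM0
    have hcmp := MM_compare (d := d) h0 h1.le hp' hp1'.le hh.le (by linarith : h ≤ 1)
    rw [← hs] at hcmp
    have hexp : (1 - h) * (1 - s * MM d p1 h) ^ (2 * d) = Real.exp (-l) := by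
      have e1 : 0 < 1 - h := by linarith
      have e2 : 0 < 1 - s * MM d p1 h := by linarith
      have : -l = Real.log ((1 - h) * (1 - s * MM d p1 h) ^ (2 * d)) := by
        rw [Real.log_mul e1.ne' (pow_pos e2 _).ne', Real.log_pow, hl]; push_cast; ring
      rw [this, Real.exp_log (mul_pos e1 (pow_pos e2 _))]
    rw [hexp] at hcmp
    have hl0 : 0 ≤ l := by
      have e1 : Real.log (1 - h) ≤ 0 := Real.log_nonpos (by linarith) (by linarith)
      have e2 : Real.log (1 - s * MM d p1 h) ≤ 0 := Real.log_nonpos (by linarith) (by linarith)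
      rw [hl]; nlinarith
    have hex := MM_expand hX hl0
    have hm2 := m2_toReal_ge hpc1 hS hη0 hη hd hL.tri h0 (h1.trans hp1) h10
    have hm3 := m3_toReal_le hX
    have hl2 : 0 ≤ l ^ 2 / 2 := by positivity
    have hl3 : 0 ≤ l ^ 3 / 6 := by positivity
    have a1 := mul_le_mul_of_nonneg_left hm2 hl2
    have a2 := mul_le_mul_of_nonneg_left hm3 hl3
    calc MM d p1 h ≤ _ := hcmp
      _ ≤ _ := hex
      _ ≤ l * chi d p - l ^ 2 / 2 * (0.4 * chi d p ^ 3) + l ^ 3 / 6 * (3 * chi d p ^ 5) := by linarith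
      _ = _ := by ring

/-- the bound at `pc` -/
theorem MM_at {pc : ℝ} (_hpc0 : 0 < pc) (hpc1 : pc ≤ 1) (hS : SubExp d pc) {η : ℝ} (hη0 : 0 < η)
    (hη : η ≤ 1 / 40 / 960) (hd : 4 / η ≤ d) (hL : LaceOut d η pc)
    (hdiv : ∀ K : ℝ, ∃ p, 0 ≤ p ∧ p < pc ∧ K ≤ chi d p) {h : ℝ} (hh : 0 < h)
    (hh0 : h < (1 / 40 / 220) ^ 2) : MM d pc h ≤ 22 * Real.sqrt h := by
  have hs : 0 < Real.sqrt h := Real.sqrt_pos.2 hh
  have hh1 : h ≤ 1 := by norm_num at hh0 ⊢; linarith
  refine le_of_tendsto (MM_left_cont pc hh hh1) ?_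
  obtain ⟨p, hp0, hpc, hK⟩ := hdiv (max 20 (2 * (1 / 40) / (22 * Real.sqrt h)))
  have hmem : Ioo p pc ∈ 𝓝[<] pc := Ioo_mem_nhdsLT hpc
  filter_upwards [hmem] with q hq
  have hq0 : 0 ≤ q := hp0.trans hq.1.le
  have hXq := XE_ne_top hS hq0 hq.2
  have hχ : chi d p ≤ chi d q := chi_mono hq.1.le hXq
  have h20 : 20 ≤ chi d q := (le_max_left _ _).trans (hK.trans hχ)
  have hb := MM_below hpc1 hS hη0 hη hd hL hq0 hq.2 h20 hh hh0
  refine hb.trans (max_le le_rfl ?_)
  have h2 : 2 * (1 / 40) / (22 * Real.sqrt h) ≤ chi d q := (le_max_right _ _).trans (hK.trans hχ)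
  rw [div_le_iff₀ (by positivity)] at h2
  rw [div_le_iff₀ (by linarith)]
  linarith

theorem tail_le_one (p : ℝ) (n : ℕ) : tail d p n ≤ 1 := measureReal_le_one

theorem tail_bound : ∃ η > 0, ∃ d₁ : ℕ, ∀ d ≥ d₁, ∀ pc : ℝ, 0 < pc → pc ≤ 1 → SubExp d pc →
    (∀ K : ℝ, ∃ p, 0 ≤ p ∧ p < pc ∧ K ≤ chi d p) → LaceOut d η pc →
    ∃ C > 0, ∀ δ ≥ 0, pc + δ ≤ 1 → ∀ n : ℕ, 1 ≤ n → tail d (pc + δ) n ≤ C * (δ + 1 / Real.sqrt n) := by
  refine ⟨1 / 40 / 960, by norm_num, 153600, ?_⟩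
  intro d hd pc hpc0 hpc1 hS hdiv hL
  have hdR : (153600 : ℝ) ≤ d := by exact_mod_cast hd
  have hd' : 4 / (1 / 40 / 960 : ℝ) ≤ d := by norm_num; linarith
  set h0 : ℝ := (1 / 40 / 220) ^ 2 with hh0
  have hh0pos : 0 < h0 := by rw [hh0]; positivity
  have hpc2 : pc ≤ 1 / 2 := by
    have := hL.pc_le
    nlinarith
  set C : ℝ := max (2 * (22 + 1936 * d)) (max (Real.sqrt (2 / h0)) (8 * d / h0)) with hC
  have hCpos : 0 < C := lt_of_lt_of_le (by positivity) (le_max_left _ _)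
  refine ⟨C, hCpos, ?_⟩
  intro δ hδ hδ1 n hn
  have hnR : (1 : ℝ) ≤ n := by exact_mod_cast hn
  have hn0 : (0 : ℝ) < n := by linarith
  have hsn : 0 < Real.sqrt n := Real.sqrt_pos.2 hn0
  have hrhs : 0 ≤ δ + 1 / Real.sqrt n := by positivity
  by_cases hsmall : 1 / (n : ℝ) + 4 * d * δ < h0
  · -- main case
    set h : ℝ := 1 / n with hh
    have hhpos : 0 < h := by positivity
    have hh1 : h ≤ 1 := by rw [hh, div_le_one hn0]; exact hnR
    have hh1' : h < 1 := by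
      have : h0 < 1 := by rw [hh0]; norm_num
      have : 0 ≤ 4 * (d : ℝ) * δ := by positivity
      linarith
    set Mp := MM d (pc + δ) h with hMp
    have hMp0 : 0 ≤ Mp := MM_nonneg _ hhpos.le hh1
    have hMp1 : Mp ≤ 1 := MM_le_one _ hhpos.le hh1
    have hpclt : pc < 1 := by linarith
    have hcmp := MM_compare (d := d) (p := pc) (p' := pc + δ) hpc0.le (by linarith) hpclt hδ1 hhpos.le hh1
    rw [← hMp] at hcmp
    set s := (pc + δ - pc) / (1 - pc) with hs
    have hs0 : 0 ≤ s := div_nonneg (by linarith) (by linarith)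
    have hs2 : s ≤ 2 * δ := by
      rw [hs, div_le_iff₀ (by linarith)]; nlinarith
    set h' := 1 - (1 - h) * (1 - s * Mp) ^ (2 * d) with hh'
    have hs1 : s ≤ 1 := by rw [hs, div_le_one (by linarith)]; linarith
    have hsM1 : s * Mp ≤ 1 := by nlinarith
    have hsM0 : 0 ≤ s * Mp := mul_nonneg hs0 hMp0
    have hbern : 1 - 2 * d * (s * Mp) ≤ (1 - s * Mp) ^ (2 * d) := by
      have := one_add_mul_le_pow (a := -(s * Mp)) (by linarith) (2 * d)
      push_cast at this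
      have e : 1 + -(s * Mp) = 1 - s * Mp := by ring
      rw [e] at this
      linarith
    have hpow1 : (1 - s * Mp) ^ (2 * d) ≤ 1 := pow_le_one₀ (by linarith) (by linarith)
    have hpow0 : 0 ≤ (1 - s * Mp) ^ (2 * d) := pow_nonneg (by linarith) _
    have hh'le : h' ≤ h + 4 * d * δ * Mp := by
      have e1 : s * Mp ≤ 2 * δ * Mp := mul_le_mul_of_nonneg_right hs2 hMp0
      have e2 : 2 * (d : ℝ) * (s * Mp) ≤ 2 * d * (2 * δ * Mp) :=
        mul_le_mul_of_nonneg_left e1 (by positivity)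
      rw [hh']
      nlinarith
    have hh'lt : h' < h0 := by
      have : 4 * (d : ℝ) * δ * Mp ≤ 4 * d * δ * 1 := mul_le_mul_of_nonneg_left hMp1 (by positivity)
      linarith
    have hh'ge : h ≤ h' := by
      rw [hh']
      nlinarith
    have hat := MM_at hpc0 hpc1 hS (by norm_num : (0 : ℝ) < 1 / 40 / 960) le_rfl hd' hL hdiv
      (lt_of_lt_of_le hhpos hh'ge) hh'lt
    have hM2 : Mp ≤ 22 * Real.sqrt h' := hcmp.trans hat
    have hh'0 : 0 ≤ h' := hhpos.le.trans hh'ge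
    have hsq : Mp ^ 2 ≤ 484 * h' := by
      have := mul_self_le_mul_self hMp0 hM2
      have e : 22 * Real.sqrt h' * (22 * Real.sqrt h') = 484 * h' := by
        have := Real.mul_self_sqrt hh'0
        nlinarith
      nlinarith
    have hsq2 : Mp ^ 2 ≤ 484 * h + 1936 * d * δ * Mp := by nlinarith
    have hfin : Mp ≤ 22 * Real.sqrt h + 1936 * d * δ := by
      by_contra hcon
      push Not at hcon
      have hb : 0 ≤ 1936 * (d : ℝ) * δ := by positivity
      have hsh : 0 ≤ 22 * Real.sqrt h := by positivity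
      have e1 : (22 * Real.sqrt h) * (22 * Real.sqrt h) = 484 * h := by
        have := Real.mul_self_sqrt hhpos.le
        nlinarith
      have e2 : Mp ^ 2 > 484 * h + 1936 * d * δ * Mp := by nlinarith
      linarith
    have htail := tail_le_MM (d := d) (pc + δ) hhpos.le hh1 n
    have hhalf : 1 / 2 ≤ 1 - (1 - h) ^ n := by
      have e1 : (1 - h) ^ n ≤ Real.exp (-1) := by
        have e2 : 1 - h ≤ Real.exp (-h) := Real.one_sub_le_exp_neg h
        calc (1 - h) ^ n ≤ Real.exp (-h) ^ n := pow_le_pow_left₀ (by linarith) e2 n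
          _ = Real.exp (-1) := by
            rw [← Real.exp_nat_mul]; congr 1; rw [hh]; field_simp
      have e3 : Real.exp (-1) ≤ 1 / 2 := by
        rw [Real.exp_neg]
        have : (2 : ℝ) ≤ Real.exp 1 := by
          have := Real.add_one_le_exp (1 : ℝ)
          linarith
        rw [inv_eq_one_div]
        exact one_div_le_one_div_of_le (by norm_num) this
      linarith
    have ht0 : 0 ≤ tail d (pc + δ) n := measureReal_nonneg
    have ht2 : tail d (pc + δ) n ≤ 2 * Mp := by nlinarith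
    have hsh : Real.sqrt h = 1 / Real.sqrt n := by
      rw [hh, Real.sqrt_div zero_le_one, Real.sqrt_one]
    have hC1 : 2 * (22 + 1936 * (d : ℝ)) ≤ C := le_max_left _ _
    calc tail d (pc + δ) n ≤ 2 * Mp := ht2
      _ ≤ 2 * (22 * (1 / Real.sqrt n) + 1936 * d * δ) := by rw [← hsh]; linarith
      _ ≤ 2 * (22 + 1936 * d) * (δ + 1 / Real.sqrt n) := by
        have : 0 ≤ 1 / Real.sqrt n := by positivity
        have hd0 : (0 : ℝ) ≤ d := by positivity
        nlinarith [mul_nonneg hd0 this]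
      _ ≤ C * (δ + 1 / Real.sqrt n) := mul_le_mul_of_nonneg_right hC1 hrhs
  · push Not at hsmall
    refine (tail_le_one _ _).trans ?_
    clear_value C
    clear hL hdiv hS
    have hgen : ∀ g : ℝ, g = h0 → 0 < g → g ≤ 1 / n + 4 * d * δ → Real.sqrt (2 / g) ≤ C →
        8 * d / g ≤ C → 1 ≤ C * (δ + 1 / Real.sqrt n) := by
      intro g _ hg hsmall e1 e1'
      by_cases hcase : g / 2 ≤ 1 / n
      · have e2 : Real.sqrt n ≤ Real.sqrt (2 / g) := by
          apply Real.sqrt_le_sqrt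
          rw [le_div_iff₀ hg]
          rw [le_div_iff₀ hn0] at hcase
          linarith
        have e3 : Real.sqrt n ≤ C := e2.trans e1
        have e4 : 1 ≤ C * (1 / Real.sqrt n) := by
          rw [mul_one_div, le_div_iff₀ hsn]; linarith
        have e5 : C * (1 / Real.sqrt n) ≤ C * (δ + 1 / Real.sqrt n) :=
          mul_le_mul_of_nonneg_left (by linarith) hCpos.le
        linarith
      · push Not at hcase
        have e0 : g / 2 ≤ 4 * d * δ := by linarith
        have e2 : 1 ≤ 8 * d / g * δ := by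
          rw [div_mul_eq_mul_div, le_div_iff₀ hg]; linarith
        have e3 : 8 * d / g * δ ≤ C * δ := mul_le_mul_of_nonneg_right e1' hδ
        have e4 : C * δ ≤ C * (δ + 1 / Real.sqrt n) :=
          mul_le_mul_of_nonneg_left (by have : 0 ≤ 1 / Real.sqrt n := by positivity
                                        linarith) hCpos.le
        linarith
    exact hgen h0 rfl hh0pos hsmall (hC ▸ (le_max_left _ _).trans (le_max_right _ _))
      (hC ▸ (le_max_right _ _).trans (le_max_right _ _))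

end Pool.Agent.helper88.FPM
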