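import Pool.Agent.helper88.FPM.MBasic

/-! FP project, module M2b: probability of a branch point. -/

set_option autoImplicit false

open MeasureTheory Set
open scoped ENNReal

namespace Pool.Agent.helper88.FPM

open Pool.Agent.helper55.FP

variable {d : ℕ}

theorem measurableSet_three (p : ℝ) (u v v' x y : V d) :
    MeasurableSet {U : Cfg d | Three (op p U) u v v' x y} := by
  have h : {U : Cfg d | Three (op p U) u v v' x y} =
      {U : Cfg d | Conn (op p U) univ 0 u} ∩ ({U : Cfg d | Conn (op p U) univ v x} ∩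
        ({U : Cfg d | Conn (op p U) univ v' y} ∩ ({U : Cfg d | Conn (op p U) univ 0 v}ᶜ ∩
          ({U : Cfg d | Conn (op p U) univ 0 v'}ᶜ ∩ {U : Cfg d | Conn (op p U) univ v v'}ᶜ)))) :=
    rfl
  rw [h]
  exact (measurableSet_conn _ _ _ _).inter ((measurableSet_conn _ _ _ _).inter
    ((measurableSet_conn _ _ _ _).inter ((measurableSet_conn _ _ _ _).compl.inter
      ((measurableSet_conn _ _ _ _).compl.inter (measurableSet_conn _ _ _ _).compl))))

private theorem meas_conn_diff (p : ℝ) (S : Set (E d)) (W : Set (V d)) (a b : V d) :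
    MeasurableSet {U : Cfg d | Conn (op p U \ S) W a b} := by
  have h : {U : Cfg d | Conn (op p U \ S) W a b} =
      Ev p {K | K ∈ cw W a b ∧ Disjoint (↑K : Set (E d)) S} := by
    ext U
    constructor
    · intro h
      obtain ⟨K, hK, hKU⟩ := conn_iff_wit.1 h
      exact ⟨K, ⟨hK, Set.disjoint_left.2 fun e he => (hKU he).2⟩, fun e he => (hKU he).1⟩
    · rintro ⟨K, ⟨hK, hKS⟩, hKU⟩
      exact conn_iff_wit.2 ⟨K, hK, fun e he => ⟨hKU e he, Set.disjoint_left.1 hKS he⟩⟩
  rw [h]
  exact measurableSet_Ev _ _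

private theorem meas_three_diff (p : ℝ) (S : Set (E d)) (u v v' x y : V d) :
    MeasurableSet {U : Cfg d | Three (op p U \ S) u v v' x y} := by
  have h : {U : Cfg d | Three (op p U \ S) u v v' x y} =
      {U : Cfg d | Conn (op p U \ S) univ 0 u} ∩ ({U : Cfg d | Conn (op p U \ S) univ v x} ∩
        ({U : Cfg d | Conn (op p U \ S) univ v' y} ∩ ({U : Cfg d | Conn (op p U \ S) univ 0 v}ᶜ ∩
          ({U : Cfg d | Conn (op p U \ S) univ 0 v'}ᶜ ∩
            {U : Cfg d | Conn (op p U \ S) univ v v'}ᶜ)))) :=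
    rfl
  rw [h]
  exact (meas_conn_diff _ _ _ _ _).inter ((meas_conn_diff _ _ _ _ _).inter
    ((meas_conn_diff _ _ _ _ _).inter ((meas_conn_diff _ _ _ _ _).compl.inter
      ((meas_conn_diff _ _ _ _ _).compl.inter (meas_conn_diff _ _ _ _ _).compl))))

theorem measurableSet_branch (p : ℝ) (u v v' x y : V d) :
    MeasurableSet {U : Cfg d | Branch (op p U) u v v' x y} := by
  have h : {U : Cfg d | Branch (op p U) u v v' x y} =
      ⋃ f : E d, ⋃ f' : E d, {U : Cfg d | Joins f u v ∧ Joins f' u v'} ∩ ({U : Cfg d | U f ≤ p} ∩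
        ({U : Cfg d | U f' ≤ p} ∩ {U : Cfg d | Three (op p U \ {f, f'}) u v v' x y})) := by
    ext U
    simp only [mem_iUnion]
    constructor
    · rintro ⟨f, f', h1, h2, h3, h4, h5⟩
      exact ⟨f, f', ⟨h1, h2⟩, h3, h4, h5⟩
    · rintro ⟨f, f', ⟨h1, h2⟩, h3, h4, h5⟩
      exact ⟨f, f', h1, h2, h3, h4, h5⟩
  rw [h]
  refine MeasurableSet.iUnion fun f => MeasurableSet.iUnion fun f' => ?_
  exact (MeasurableSet.const _).inter ((measurableSet_le (measurable_pi_apply f)
    measurable_const).inter ((measurableSet_le (measurable_pi_apply f') measurable_const).inter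
      (meas_three_diff _ _ _ _ _ _ _)))

private theorem joins_right_unique {f : E d} {u v v' : V d} (h : Joins f u v) (h' : Joins f u v') :
    v = v' := by
  have hne : f.1 ≠ tip f := Joins.ne (Or.inl ⟨rfl, rfl⟩)
  rcases h with ⟨h1, h2⟩ | ⟨h1, h2⟩ <;> rcases h' with ⟨h3, h4⟩ | ⟨h3, h4⟩
  · rw [h2, h4]
  · exact absurd (h1.symm.trans h4) hne
  · exact absurd (h3.symm.trans h2) hne
  · rw [h1, h3]

/-- opening two edges between three disjoint clusters -/
theorem branch_prob {p : ℝ} (hp : 0 ≤ p) (hp1 : p ≤ 1) {u v v' : V d} (x y : V d) (hv : Adj u v)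
    (hv' : Adj u v') (hne : v ≠ v') :
    ENNReal.ofReal p ^ 2 * P d {U : Cfg d | Three (op p U) u v v' x y} ≤
      P d {U : Cfg d | Branch (op p U) u v v' x y} := by
  obtain ⟨f, hf⟩ := hv
  obtain ⟨f', hf'⟩ := hv'
  have hff : f ≠ f' := by
    rintro rfl
    exact hne (joins_right_unique hf hf')
  set B : Set (Cfg d) := {U : Cfg d | Three (op p U \ {f, f'}) u v v' x y} with hB
  have hBm : MeasurableSet B := meas_three_diff _ _ _ _ _ _ _
  set F : E d → Set (Cfg d) := fun e => {U : Cfg d | 0 < U e ∧ U e ≤ p} with hF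
  have hFm : ∀ e, MeasurableSet (F e) := fun e =>
    (measurableSet_lt measurable_const (measurable_pi_apply e)).inter
      (measurableSet_le (measurable_pi_apply e) measurable_const)
  have hFp : ∀ e, (P d).real (F e) = p := by
    intro e
    have := prob_level (d := d) e le_rfl hp hp1
    rw [sub_zero] at this
    exact this
  have hFd : ∀ e, DependsOn (fun U => U ∈ F e) {e} := by
    intro e U U' h
    have : U e = U' e := h e rfl
    simp only [hF, mem_ofPred_eq, this]
  have hBd : DependsOn (fun U => U ∈ B) ({f, f'} : Set (E d))ᶜ := by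
    intro U U' h
    have h1 : op p U \ {f, f'} = op p U' \ {f, f'} := by
      ext e
      constructor
      · rintro ⟨he, he'⟩
        refine ⟨?_, he'⟩
        have h0 : U e ≤ p := he
        have h2 : U e = U' e := h e he'
        rw [h2] at h0
        exact h0
      · rintro ⟨he, he'⟩
        refine ⟨?_, he'⟩
        have h0 : U' e ≤ p := he
        have h2 : U e = U' e := h e he'
        rw [← h2] at h0
        exact h0
    simp only [hB, mem_ofPred_eq, h1]
  have hFFd : DependsOn (fun U => U ∈ F f ∩ F f') ({f, f'} : Set (E d)) := by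
    intro U U' h
    have h1 : U f = U' f := h f (by simp)
    have h2 : U f' = U' f' := h f' (by simp)
    simp only [hF, mem_inter_iff, mem_ofPred_eq, h1, h2]
  have h1 : (P d).real ((F f ∩ F f') ∩ B) = p ^ 2 * (P d).real B := by
    rw [prob_inter ((hFm f).inter (hFm f')) hBm hFFd hBd disjoint_compl_right,
      prob_inter (hFm f) (hFm f') (hFd f) (hFd f') (by simpa using hff), hFp, hFp]
    ring
  have h2 : (F f ∩ F f') ∩ B ⊆ {U : Cfg d | Branch (op p U) u v v' x y} := by
    rintro U ⟨⟨hU1, hU2⟩, hU3⟩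
    exact ⟨f, f', hf, hf', hU1.2, hU2.2, hU3⟩
  have h3 : {U : Cfg d | Three (op p U) u v v' x y} ⊆ B := by
    intro U hU
    obtain ⟨g1, g2, g3, g4, g5, g6⟩ := hU
    have k1 : f ∉ op p U := fun hfo =>
      g4 (g1.snoc ⟨mem_univ _, mem_univ _, f, hfo, hf⟩)
    have k2 : f' ∉ op p U := fun hfo =>
      g5 (g1.snoc ⟨mem_univ _, mem_univ _, f', hfo, hf'⟩)
    have k3 : op p U \ {f, f'} = op p U := by
      ext e
      constructor
      · exact fun he => he.1
      · intro he
        refine ⟨he, ?_⟩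
        rintro (rfl | rfl)
        · exact k1 he
        · exact k2 he
    show Three (op p U \ {f, f'}) u v v' x y
    rw [k3]
    exact ⟨g1, g2, g3, g4, g5, g6⟩
  calc ENNReal.ofReal p ^ 2 * P d {U : Cfg d | Three (op p U) u v v' x y}
      ≤ ENNReal.ofReal p ^ 2 * P d B := by gcongr
    _ = ENNReal.ofReal (p ^ 2 * (P d).real B) := by
        rw [ENNReal.ofReal_mul (by positivity), ENNReal.ofReal_pow hp, ofReal_measureReal]
    _ = P d ((F f ∩ F f') ∩ B) := by rw [← h1, ofReal_measureReal]
    _ ≤ _ := measure_mono h2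

end Pool.Agent.helper88.FPM
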