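import Pool.Agent.helper88.FPM.MDefs
import Pool.Agent.helper55.FP.LDefs
import Pool.Agent.helper55.FP.Conn
import Pool.Agent.helper55.FP.Paths
import Pool.Agent.helper55.FP.Meas
import Pool.Agent.helper55.FP.Indep
import Pool.Agent.helper55.FP.Resample
import Pool.Agent.helper55.FP.BK
import Pool.Agent.helper55.FP.Symm
import Pool.Agent.helper28.FPS.B

/-! FP project, part M: basic lemmas. -/

set_option autoImplicit false

open MeasureTheory Set
open scoped ENNReal

namespace Pool.Agent.helper88.FPM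

open Pool.Agent.helper55.FP

variable {d : ℕ}

/-! ### connection probabilities -/

theorem cE_eq (p : ℝ) (W : Set (V d)) (a b : V d) : cE p W a b = ENNReal.ofReal (tauW p W a b) := by
  unfold cE tauW
  rw [ofReal_measureReal (measure_ne_top _ _)]

theorem tE_eq (p : ℝ) (x : V d) : tE p x = ENNReal.ofReal (tau p x) := cE_eq p univ 0 x

theorem cE_univ (p : ℝ) (a b : V d) : cE p univ a b = tE p (b - a) := by
  rw [cE_eq, tE_eq, tauW_univ]

theorem cE_le (p : ℝ) (W : Set (V d)) (a b : V d) : cE p W a b ≤ tE p (b - a) := by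
  rw [cE_eq, tE_eq]
  exact ENNReal.ofReal_le_ofReal (tauW_le p W a b)

theorem cE_mono {p q : ℝ} (h : p ≤ q) {W W' : Set (V d)} (hW : W ⊆ W') (a b : V d) :
    cE p W a b ≤ cE q W' a b := by
  rw [cE_eq, cE_eq]
  exact ENNReal.ofReal_le_ofReal (tauW_mono h hW a b)

theorem cE_symm (p : ℝ) (W : Set (V d)) (a b : V d) : cE p W a b = cE p W b a := by
  rw [cE_eq, cE_eq, tauW_symm]

theorem tE_neg (p : ℝ) (x : V d) : tE p (-x) = tE p x := by
  rw [tE_eq, tE_eq, tau_neg]

theorem tE_zero (p : ℝ) : tE p (0 : V d) = 1 := by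
  rw [tE_eq, tau_zero, ENNReal.ofReal_one]

theorem tE_le_one (p : ℝ) (x : V d) : tE p x ≤ 1 := prob_le_one

theorem tE_mono {p q : ℝ} (h : p ≤ q) (x : V d) : tE p x ≤ tE q x := cE_mono h subset_rfl 0 x

theorem one_le_XE (p : ℝ) : 1 ≤ XE d p := by
  rw [← tE_zero (d := d) p]
  exact ENNReal.le_tsum 0

theorem XE_mono {p q : ℝ} (h : p ≤ q) : XE d p ≤ XE d q :=
  ENNReal.tsum_le_tsum fun x => tE_mono h x

/-- BK, extended nonnegative real version -/
theorem bkE (p : ℝ) (𝒜 ℬ : Set (Finset (E d))) :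
    P d (Ev p (dj 𝒜 ℬ)) ≤ P d (Ev p 𝒜) * P d (Ev p ℬ) := by
  refine le_trans ?_ (BK.bk_ennreal p p 𝒜 ℬ)
  apply measure_mono
  rintro U ⟨M, ⟨K, hK, L, hL, hd, hKM, hLM⟩, hM⟩
  exact ⟨K, hK, L, hL, hd, fun e he => hM e (hKM he), fun e he => hM e (hLM he)⟩

theorem cE_eq_Ev (p : ℝ) (W : Set (V d)) (a b : V d) : cE p W a b = P d (Ev p (cw W a b)) := by
  unfold cE
  congr 1
  ext U
  exact conn_op_iff

/-- translation invariance of `P(x ↔ a, x ↔ b)` -/
theorem prob_two_translate (p : ℝ) (z a b : V d) :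
    P d {U | Conn (op p U) univ z a ∧ Conn (op p U) univ z b} =
      P d {U | Conn (op p U) univ 0 (a - z) ∧ Conn (op p U) univ 0 (b - z)} := by
  obtain ⟨A, hA⟩ := exists_translation z
  have hm := measurePreserving_comp A.ψ
  have hms : MeasurableSet {U : Cfg d | Conn (op p U) univ 0 (a - z) ∧ Conn (op p U) univ 0 (b - z)} :=
    (measurableSet_conn p univ 0 (a - z)).inter (measurableSet_conn p univ 0 (b - z))
  rw [← hm.measure_preimage hms.nullMeasurableSet]
  congr 1
  ext U
  have h1 : ∀ c : V d, Conn (op p fun e => U (A.ψ e)) univ 0 (c - z) ↔ Conn (op p U) univ z c := by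
    intro c
    have := conn_aut A p U univ 0 (c - z)
    rw [hA, hA, zero_add, sub_add_cancel, preimage_univ] at this
    exact this
  simp only [mem_setOf_eq, mem_preimage]
  rw [h1, h1]

/-- tree-graph inequality -/
theorem tree3 (p : ℝ) (a b c : V d) :
    P d {U | Conn (op p U) univ a b ∧ Conn (op p U) univ a c} ≤
      ∑' s : V d, tE p (s - a) * tE p (b - s) * tE p (c - s) := by
  have hsub : {U : Cfg d | Conn (op p U) univ a b ∧ Conn (op p U) univ a c} ⊆
      ⋃ s : V d, Ev p (dj (cw univ a s) (dj (cw univ s b) (cw univ s c))) := by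
    classical
    rintro U ⟨h1, h2⟩
    obtain ⟨K, hK, hKo⟩ := conn_iff_wit.1 h1
    obtain ⟨L, hL, hLo⟩ := conn_iff_wit.1 h2
    have hK' : K ∪ L ∈ cw univ a b := Conn.mono (by push_cast; exact subset_union_left) subset_rfl hK
    have hL' : K ∪ L ∈ cw univ a c := Conn.mono (by push_cast; exact subset_union_right) subset_rfl hL
    obtain ⟨s, _, hs⟩ := tree_dj hK' hL'
    refine mem_iUnion.2 ⟨s, K ∪ L, hs, ?_⟩
    intro e he
    rcases Finset.mem_union.1 he with h | h
    · exact hKo h
    · exact hLo h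
  refine (measure_mono hsub).trans ((measure_iUnion_le _).trans (ENNReal.tsum_le_tsum fun s => ?_))
  refine (bkE p _ _).trans ?_
  rw [mul_assoc]
  refine mul_le_mul' ?_ ((bkE p _ _).trans (mul_le_mul' ?_ ?_))
  · rw [← cE_eq_Ev, cE_univ]
  · rw [← cE_eq_Ev, cE_univ]
  · rw [← cE_eq_Ev, cE_univ]

/-- connection off the set `F` -/
theorem cE_off (p : ℝ) (F : Set (V d)) (v y : V d) :
    tE p (y - v) ≤ cE p Fᶜ v y + ∑' a : V d, F.indicator (fun a => tE p (a - v) * tE p (y - a)) a := by
  by_cases hv : v ∈ F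
  · refine le_trans ?_ le_add_self
    refine le_trans ?_ (ENNReal.le_tsum v)
    rw [indicator_of_mem hv, sub_self, tE_zero, one_mul]
  · have hsub : {U : Cfg d | Conn (op p U) univ v y} ⊆ {U : Cfg d | Conn (op p U) Fᶜ v y} ∪
        ⋃ a : V d, {U : Cfg d | a ∈ F ∧ U ∈ Ev p (dj (cw univ v a) (cw univ a y))} := by
      classical
      intro U hU
      by_cases hy : Conn (op p U) Fᶜ v y
      · exact Or.inl hy
      · right
        -- the set of vertices reached off `F`
        set S : Set (V d) := {x | Conn (op p U) Fᶜ v x} with hS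
        have hvS : v ∈ S := Conn.refl hv
        obtain ⟨K, hK, hKo⟩ := conn_iff_wit.1 hU
        obtain ⟨u, hu, w, hw, e, he, hdj⟩ := exit_dj hK hvS hy
        obtain ⟨K1, hK1, K2, ⟨M1, hM1, M2, hM2, hd12, hM1s, hM2s⟩, hd, h1, h2⟩ := hdj
        have heK : e ∈ K := h2 (hM1s hM1)
        have hwF : w ∈ F := by
          by_contra hwF
          have huF : u ∈ Fᶜ := Conn.right hu
          exact hw.2 (Conn.snoc hu ⟨huF, hwF, e, hKo heK, he⟩)
        refine mem_iUnion.2 ⟨w, hwF, K, ?_, hKo⟩
        refine ⟨insert e K1, ?_, M2, hM2, ?_, ?_, h2.trans' hM2s⟩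
        · have hc1 : Conn (↑(insert e K1) : Set (E d)) univ v u :=
            Conn.mono (by push_cast; exact subset_insert _ _) (subset_univ _) hK1
          exact Conn.snoc hc1 ⟨mem_univ _, mem_univ _, e, by simp, he⟩
        · rw [Finset.disjoint_insert_left]
          refine ⟨fun h => Finset.disjoint_left.1 hd12 hM1 h, ?_⟩
          exact Finset.disjoint_of_subset_right hM2s hd
        · exact Finset.insert_subset heK h1
    have h0 : tE p (y - v) = P d {U : Cfg d | Conn (op p U) univ v y} := (cE_univ p v y).symm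
    rw [h0]
    refine (measure_mono hsub).trans ((measure_union_le _ _).trans (add_le_add le_rfl ?_))
    refine (measure_iUnion_le _).trans (ENNReal.tsum_le_tsum fun a => ?_)
    by_cases ha : a ∈ F
    · rw [indicator_of_mem ha]
      refine (measure_mono (t := Ev p (dj (cw univ v a) (cw univ a y))) fun U hU => hU.2).trans ?_
      refine (bkE p _ _).trans (mul_le_mul' ?_ ?_)
      · rw [← cE_eq_Ev, cE_univ]
      · rw [← cE_eq_Ev, cE_univ]
    · have : {U : Cfg d | a ∈ F ∧ U ∈ Ev p (dj (cw univ v a) (cw univ a y))} = ∅ := by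
        ext U
        simp [ha]
      rw [this, measure_empty]
      exact bot_le

/-! ### cluster size -/

theorem sz_cl (p : ℝ) (W : Set (V d)) (a : V d) :
    ∫⁻ U, sz (Cl (op p U) W a) ∂(P d) = ∑' x : V d, cE p W a x := by
  unfold sz
  rw [lintegral_tsum]
  · refine tsum_congr fun x => ?_
    have : (fun U : Cfg d => (Cl (op p U) W a).indicator (1 : V d → ℝ≥0∞) x) =
        {U : Cfg d | Conn (op p U) W a x}.indicator 1 := by
      funext U
      by_cases h : Conn (op p U) W a x
      · rw [indicator_of_mem (show x ∈ Cl (op p U) W a from h),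
          indicator_of_mem (show U ∈ {U : Cfg d | Conn (op p U) W a x} from h)]
        rfl
      · rw [indicator_of_notMem (show x ∉ Cl (op p U) W a from h),
          indicator_of_notMem (show U ∉ {U : Cfg d | Conn (op p U) W a x} from h)]
    rw [this, lintegral_indicator_one (measurableSet_conn p W a x)]
    rfl
  · intro x
    have : (fun U : Cfg d => (Cl (op p U) W a).indicator (1 : V d → ℝ≥0∞) x) =
        {U : Cfg d | Conn (op p U) W a x}.indicator 1 := by
      funext U
      by_cases h : Conn (op p U) W a x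
      · rw [indicator_of_mem (show x ∈ Cl (op p U) W a from h),
          indicator_of_mem (show U ∈ {U : Cfg d | Conn (op p U) W a x} from h)]
        rfl
      · rw [indicator_of_notMem (show x ∉ Cl (op p U) W a from h),
          indicator_of_notMem (show U ∉ {U : Cfg d | Conn (op p U) W a x} from h)]
    rw [this]
    exact (measurable_one.indicator (measurableSet_conn p W a x)).aemeasurable

theorem sz_eq_encard (S : Set (V d)) : sz S = (S.encard : ℝ≥0∞) := by
  unfold sz
  rw [← tsum_subtype]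
  simp only [Pi.one_apply]
  rw [ENNReal.tsum_set_one]

theorem sz_finite {S : Set (V d)} (hS : S.Finite) : sz S = (S.ncard : ℝ≥0∞) := by
  rw [sz_eq_encard, ← hS.cast_ncard_eq]
  rfl

theorem sz_infinite {S : Set (V d)} (hS : S.Infinite) : sz S = ∞ := by
  rw [sz_eq_encard, hS.encard_eq]
  rfl

theorem measurable_sz_cl (p : ℝ) (W : Set (V d)) (a : V d) :
    Measurable fun U : Cfg d => sz (Cl (op p U) W a) := by
  unfold sz
  refine Measurable.ennreal_tsum fun x => ?_
  have : (fun U : Cfg d => (Cl (op p U) W a).indicator (1 : V d → ℝ≥0∞) x) =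
      {U : Cfg d | Conn (op p U) W a x}.indicator 1 := by
    funext U
    by_cases h : Conn (op p U) W a x
    · rw [indicator_of_mem (show x ∈ Cl (op p U) W a from h),
        indicator_of_mem (show U ∈ {U : Cfg d | Conn (op p U) W a x} from h)]
      rfl
    · rw [indicator_of_notMem (show x ∉ Cl (op p U) W a from h),
        indicator_of_notMem (show U ∉ {U : Cfg d | Conn (op p U) W a x} from h)]
  rw [this]
  exact measurable_one.indicator (measurableSet_conn p W a x)

theorem tsum_tE_sub (p : ℝ) (a : V d) : ∑' x : V d, tE p (x - a) = XE d p :=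
  (Equiv.subRight a).tsum_eq (fun x => tE p x)

theorem tsum_tE_sub' (p : ℝ) (a : V d) : ∑' x : V d, tE p (a - x) = XE d p :=
  (Equiv.subLeft a).tsum_eq (fun x => tE p x)

theorem tsum_cE_le (p : ℝ) (W : Set (V d)) (a : V d) : ∑' x : V d, cE p W a x ≤ XE d p := by
  rw [← tsum_tE_sub p a]
  exact ENNReal.tsum_le_tsum fun x => cE_le p W a x

theorem ae_finite {p : ℝ} (hX : XE d p ≠ ∞) (W : Set (V d)) (a : V d) :
    ∀ᵐ U ∂(P d), (Cl (op p U) W a).Finite := by
  have h1 : ∫⁻ U, sz (Cl (op p U) W a) ∂(P d) ≠ ∞ := by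
    rw [sz_cl]
    exact ne_top_of_le_ne_top hX (tsum_cE_le p W a)
  filter_upwards [ae_lt_top (measurable_sz_cl p W a) h1] with U hU
  by_contra h
  rw [sz_infinite h] at hU
  exact lt_irrefl _ hU

/-! ### exploration of a cluster -/

theorem probE_inter {A B : Set (Cfg d)} {S T : Set (E d)} (hA : MeasurableSet A)
    (hB : MeasurableSet B) (hAS : DependsOn (fun U => U ∈ A) S)
    (hBT : DependsOn (fun U => U ∈ B) T) (hST : Disjoint S T) :
    P d (A ∩ B) = P d A * P d B := by
  have h := prob_inter hA hB hAS hBT hST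
  rw [← ofReal_measureReal (measure_ne_top (P d) (A ∩ B)), h,
    ENNReal.ofReal_mul measureReal_nonneg, ofReal_measureReal (measure_ne_top _ _),
    ofReal_measureReal (measure_ne_top _ _)]

/-- given `C_W(a) = F`, events of the edges off `F` are independent of the exploration -/
theorem explore_mul (p : ℝ) {W : Set (V d)} (F : Set (V d)) {a : V d} (ha : a ∈ W) {A : Set (Cfg d)}
    (hA : MeasurableSet A) (hdep : DependsOn (fun U => U ∈ A) (inner Fᶜ)) :
    P d ({U | Cl (op p U) W a = F} ∩ A) = P d {U | Cl (op p U) W a = F} * P d A := by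
  refine probE_inter (measurableSet_cl_eq p W F a) hA (dependsOn_cl_eq p W F a ha) hdep ?_
  rw [Set.disjoint_left]
  rintro e ⟨_, h1⟩ ⟨h2, h3⟩
  rcases h1 with h | h
  · exact h2 h
  · exact h3 h

/-- off `F = C_W(a)`, connections in `W` are connections in `W \ F` -/
theorem conn_off {O : Set (E d)} {W F : Set (V d)} {a v x : V d} (h : Cl O W a = F) (hv : v ∉ F) :
    Conn O W v x ↔ Conn O (W \ F) v x := by
  constructor
  · rintro ⟨hvW, hr⟩
    have key : ∀ z, Relation.ReflTransGen (Step O W) v z → z ∉ F ∧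
        Relation.ReflTransGen (Step O (W \ F)) v z := by
      intro z hz
      induction hz with
      | refl => exact ⟨hv, Relation.ReflTransGen.refl⟩
      | @tail b c hb hbc ih =>
        have hc : c ∉ F := by
          intro hc
          apply ih.1
          rw [← h] at hc ⊢
          obtain ⟨h1, h2, e, he, hj⟩ := hbc
          exact Conn.snoc hc ⟨h2, h1, e, he, hj.symm⟩
        refine ⟨hc, ih.2.tail ?_⟩
        obtain ⟨h1, h2, e, he, hj⟩ := hbc
        exact ⟨⟨h1, ih.1⟩, ⟨h2, hc⟩, e, he, hj⟩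
    exact ⟨⟨hvW, hv⟩, (key x hr).2⟩
  · exact Conn.mono subset_rfl sdiff_subset

/-- decomposition over the values of an almost surely finite cluster -/
theorem explore_sum (p : ℝ) (hX : XE d p ≠ ∞) (W : Set (V d)) (a : V d) {A : Set (Cfg d)}
    (hA : MeasurableSet A) :
    ∑' F : Finset (V d), P d ({U | Cl (op p U) W a = (↑F : Set (V d))} ∩ A) = P d A := by
  rw [← measure_iUnion]
  · apply measure_congr
    filter_upwards [ae_finite hX W a] with U hU
    apply propext
    constructor
    · intro h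
      obtain ⟨F, hF⟩ := mem_iUnion.1 h
      exact hF.2
    · intro h
      refine mem_iUnion.2 ⟨hU.toFinset, ?_, h⟩
      simp only [mem_setOf_eq, Finite.coe_toFinset]
  · intro F G hFG
    rw [Function.onFun, Set.disjoint_left]
    rintro U ⟨h1, _⟩ ⟨h2, _⟩
    apply hFG
    apply Finset.coe_injective
    exact h1.symm.trans h2
  · intro F
    exact (measurableSet_cl_eq p W _ a).inter hA

/-! ### directions -/

theorem mem_dirs {e : V d} : e ∈ dirs d ↔ Adj 0 e := by
  unfold dirs Adj Joins tip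
  simp only [Finset.mem_union, Finset.mem_image, Finset.mem_univ, true_and]
  constructor
  · rintro (⟨i, rfl⟩ | ⟨i, rfl⟩)
    · exact ⟨(0, i), Or.inl ⟨rfl, by simp⟩⟩
    · refine ⟨(Pi.single i (-1), i), Or.inr ⟨rfl, ?_⟩⟩
      simp only
      rw [← Pi.single_add]
      simp
  · rintro ⟨⟨x, i⟩, ⟨h1, h2⟩ | ⟨h1, h2⟩⟩
    · left
      refine ⟨i, ?_⟩
      simp only at h1 h2
      rw [h2, ← h1, zero_add]
    · right
      refine ⟨i, ?_⟩
      simp only at h1 h2
      rw [h1, Pi.single_neg]
      exact neg_eq_of_add_eq_zero_left h2.symm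

theorem adj_iff_dirs {a b : V d} : Adj a b ↔ b - a ∈ dirs d := by
  rw [mem_dirs]
  unfold Adj Joins tip
  constructor
  · rintro ⟨⟨x, i⟩, ⟨h1, h2⟩ | ⟨h1, h2⟩⟩
    · refine ⟨(0, i), Or.inl ⟨rfl, ?_⟩⟩
      simp only at h1 h2 ⊢
      rw [h1, h2]; abel
    · refine ⟨(x - a, i), Or.inr ⟨?_, ?_⟩⟩
      · simp only at h1 h2 ⊢
        rw [h1]
      · simp only at h1 h2 ⊢
        rw [h2]; abel
  · rintro ⟨⟨x, i⟩, ⟨h1, h2⟩ | ⟨h1, h2⟩⟩
    · refine ⟨(a, i), Or.inl ⟨rfl, ?_⟩⟩
      simp only at h1 h2 ⊢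
      rw [← h1, zero_add] at h2
      rw [← h2]; abel
    · refine ⟨(b, i), Or.inr ⟨rfl, ?_⟩⟩
      simp only at h1 h2 ⊢
      rw [← h1] at h2
      have h3 : a = b - (b - a) := by abel
      rw [h3, sub_eq_iff_eq_add]
      have h4 : b + Pi.single i 1 + (b - a) = b + (b - a + Pi.single i 1) := by abel
      rw [h4, ← h2, add_zero]

theorem dirs_ne_zero {e : V d} (h : e ∈ dirs d) : e ≠ 0 := by
  rw [mem_dirs] at h
  obtain ⟨f, hf⟩ := h
  exact hf.ne.symm

theorem card_dirs : (dirs d).card = 2 * d := by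
  unfold dirs
  rw [Finset.card_union_of_disjoint, Finset.card_image_of_injective, Finset.card_image_of_injective,
    Finset.card_univ, Fintype.card_fin]
  · ring
  · intro i j hij
    by_contra h
    have := congrFun hij i
    simp [Pi.single_apply, h] at this
  · intro i j hij
    by_contra h
    have := congrFun hij i
    simp [Pi.single_apply, h] at this
  · rw [Finset.disjoint_left]
    intro x hx hx'
    simp only [Finset.mem_image, Finset.mem_univ, true_and] at hx hx'
    obtain ⟨i, rfl⟩ := hx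
    obtain ⟨j, hj⟩ := hx'
    have := congrFun hj i
    by_cases hij : i = j
    · subst hij
      simp at this
    · simp [Pi.single_apply, hij] at this

/-! ### real versions -/

theorem XE_ne_top {pc : ℝ} (h : SubExp d pc) {p : ℝ} (hp : 0 ≤ p) (hpc : p < pc) : XE d p ≠ ∞ := by
  obtain ⟨C, _, c, hc, hb⟩ := h p hp hpc
  have hs := Pool.Agent.helper28.FPS.summable_tau hc hb
  unfold XE
  simp only [tE_eq]
  exact hs.tsum_ofReal_ne_top

theorem tau_nonneg (p : ℝ) (x : V d) : 0 ≤ tau p x := measureReal_nonneg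

theorem tau_le_one (p : ℝ) (x : V d) : tau p x ≤ 1 := measureReal_le_one

theorem XE_toReal (p : ℝ) : (XE d p).toReal = chi d p := by
  unfold XE chi
  rw [ENNReal.tsum_toReal_eq (fun x => (tE_le_one p x).trans_lt ENNReal.one_lt_top |>.ne)]
  refine tsum_congr fun x => ?_
  rw [tE_eq]
  exact ENNReal.toReal_ofReal (tau_nonneg p x)

theorem one_le_chi {p : ℝ} (hX : XE d p ≠ ∞) : 1 ≤ chi d p := by
  rw [← XE_toReal]
  have := ENNReal.toReal_mono hX (one_le_XE (d := d) p)
  simpa using this

theorem tau_zero_ne {x : V d} (hx : x ≠ 0) : tau 0 x = 0 := by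
  unfold tau tauW
  rw [measureReal_eq_zero_iff]
  have h1 : ∀ᵐ U ∂(P d), ∀ e : E d, 0 < U e := by
    rw [ae_all_iff]
    intro e
    filter_upwards [Pool.Agent.helper28.FPS.ae_pos_le_one e] with U hU
    exact hU.1
  have h2 : ∀ᵐ U ∂(P d), U ∉ {U : Cfg d | Conn (op 0 U) univ 0 x} := by
    filter_upwards [h1] with U hU hc
    obtain ⟨_, hr⟩ := hc
    rcases Relation.ReflTransGen.cases_head hr with h | ⟨c, hc, _⟩
    · exact hx h.symm
    · obtain ⟨_, _, e, he, _⟩ := hc
      exact absurd (hU e) (not_lt.2 he)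
  exact measure_eq_zero_iff_ae_notMem.2 h2

theorem chi_zero : chi d 0 = 1 := by
  unfold chi
  rw [tsum_eq_single 0 (fun x hx => tau_zero_ne hx), tau_zero]

theorem summable_tau {p : ℝ} (hX : XE d p ≠ ∞) : Summable fun x : V d => tau p x := by
  have h := ENNReal.summable_toReal hX
  refine h.congr fun x => ?_
  rw [tE_eq, ENNReal.toReal_ofReal (tau_nonneg p x)]

theorem conv_dirac (f : V d → ℝ) : conv f dirac0 = f := by
  funext x
  unfold conv dirac0
  rw [tsum_eq_single x]
  · simp
  · intro y hy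
    have : x - y ≠ 0 := fun h => hy (sub_eq_zero.1 h).symm
    simp [this]

theorem conv_ofReal {f g : V d → ℝ} (hf : Summable f) (hf0 : ∀ x, 0 ≤ f x) {B : ℝ} (hg0 : ∀ x, 0 ≤ g x)
    (hgB : ∀ x, g x ≤ B) (x : V d) : ENNReal.ofReal (conv f g x) =
      ∑' y : V d, ENNReal.ofReal (f y) * ENNReal.ofReal (g (x - y)) := by
  unfold conv
  have hs : Summable fun y : V d => f y * g (x - y) :=
    Summable.of_nonneg_of_le (fun y => mul_nonneg (hf0 y) (hg0 _))
      (fun y => mul_le_mul_of_nonneg_left (hgB _) (hf0 y)) (hf.mul_right B)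
  rw [ENNReal.ofReal_tsum_of_nonneg (fun y => mul_nonneg (hf0 y) (hg0 _)) hs]
  exact tsum_congr fun y => ENNReal.ofReal_mul (hf0 y)

theorem conv_nonneg {f g : V d → ℝ} (hf0 : ∀ x, 0 ≤ f x) (hg0 : ∀ x, 0 ≤ g x) (x : V d) :
    0 ≤ conv f g x := tsum_nonneg fun y => mul_nonneg (hf0 y) (hg0 _)

theorem conv_le {f g : V d → ℝ} (hf : Summable f) (hf0 : ∀ x, 0 ≤ f x) {B : ℝ} (hg0 : ∀ x, 0 ≤ g x)
    (hgB : ∀ x, g x ≤ B) (x : V d) : conv f g x ≤ (∑' y, f y) * B := by
  unfold conv
  rw [← tsum_mul_right]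
  have hs : Summable fun y : V d => f y * g (x - y) :=
    Summable.of_nonneg_of_le (fun y => mul_nonneg (hf0 y) (hg0 _))
      (fun y => mul_le_mul_of_nonneg_left (hgB _) (hf0 y)) (hf.mul_right B)
  exact hs.tsum_le_tsum (fun y => mul_le_mul_of_nonneg_left (hgB _) (hf0 y)) (hf.mul_right B)

theorem T3_eq {p : ℝ} (hX : XE d p ≠ ∞) (z : V d) :
    T3 p z = ENNReal.ofReal (cpow (tau p) 3 z) := by
  have hs := summable_tau hX
  have h0 := tau_nonneg (d := d) p
  have e1 : cpow (tau p) 3 z = conv (tau p) (conv (tau p) (tau p)) z := by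
    show conv (tau p) (conv (tau p) (conv (tau p) dirac0)) z = _
    rw [conv_dirac]
  rw [e1, conv_ofReal hs h0 (conv_nonneg h0 h0) (conv_le hs h0 h0 (tau_le_one p))]
  unfold T3
  refine tsum_congr fun x => ?_
  rw [conv_ofReal hs h0 h0 (tau_le_one p)]
  have e2 : ∀ y : V d, tE p x * tE p (y - x) * tE p (z - y) =
      tE p x * (tE p (y - x) * tE p (z - y)) := fun y => mul_assoc _ _ _
  simp only [e2]
  rw [ENNReal.tsum_mul_left, ← tE_eq]
  congr 1
  rw [← (Equiv.addRight x).tsum_eq]
  refine tsum_congr fun y => ?_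
  simp only [Equiv.coe_addRight, add_sub_cancel_right]
  rw [← tE_eq, ← tE_eq]
  congr 2
  abel

theorem T3_le {p : ℝ} (hX : XE d p ≠ ∞) {z : V d} {η : ℝ} (h : cpow (tau p) 3 z ≤ η) :
    T3 p z ≤ ENNReal.ofReal η := by
  rw [T3_eq hX]
  exact ENNReal.ofReal_le_ofReal h

end Pool.Agent.helper88.FPM
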