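import Pool.Agent.helper88.FPM.MDefs
import Pool.Agent.helper55.FP.Conn

/-! FP project, module M2a: branch points are unique (deterministic). -/

set_option autoImplicit false

open Set

namespace Pool.Agent.helper88.FPM

open Pool.Agent.helper55.FP

variable {d : ℕ}

namespace MBranch

theorem joins_right {e : E d} {a b c : V d} (h : Joins e a b) (h' : Joins e a c) : b = c := by
  rcases h with ⟨h1, h2⟩ | ⟨h1, h2⟩ <;> rcases h' with ⟨h3, h4⟩ | ⟨h3, h4⟩
  · exact h2.trans h4.symm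
  · exact (Joins.ne (e := e) (Or.inl ⟨rfl, rfl⟩) (h1.symm.trans h4)).elim
  · exact (Joins.ne (e := e) (Or.inl ⟨rfl, rfl⟩) (h3.symm.trans h2)).elim
  · exact h1.trans h3.symm

theorem step_mem {e : E d} {u v a b : V d} (h : Joins e u v) (h' : Joins e a b) :
    a = u ∨ b = u := by
  rcases h with ⟨h1, h2⟩ | ⟨h1, h2⟩ <;> rcases h' with ⟨h3, h4⟩ | ⟨h3, h4⟩
  · exact Or.inl (h3.trans h1.symm)
  · exact Or.inr (h3.trans h1.symm)
  · exact Or.inr (h4.trans h2.symm)
  · exact Or.inl (h4.trans h2.symm)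

/-- a connection avoids a vertex outside the cluster -/
theorem avoid {O : Set (E d)} {a b w : V d} (h : Conn O univ a b) (hw : ¬ Conn O univ a w) :
    Conn O {w}ᶜ a b := by
  obtain ⟨ha, hr⟩ := h
  have haw : a ∈ ({w}ᶜ : Set (V d)) := by
    rintro rfl
    exact hw (Conn.refl (mem_univ _))
  induction hr with
  | refl => exact Conn.refl haw
  | @tail b c hab hbc ih =>
    have hc : c ∈ ({w}ᶜ : Set (V d)) := by
      rintro rfl
      exact hw (Conn.snoc ⟨ha, hab⟩ hbc)
    exact Conn.snoc ih ⟨ih.right, hc, hbc.2.2⟩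

/-- a connection avoiding `u` does not use the edges at `u` -/
theorem drop {O : Set (E d)} {f f' : E d} {u v v' a b : V d} (hf : Joins f u v)
    (hf' : Joins f' u v') (h : Conn O {u}ᶜ a b) : Conn (O \ {f, f'}) univ a b := by
  obtain ⟨ha, hr⟩ := h
  refine ⟨mem_univ _, ?_⟩
  refine Relation.ReflTransGen.mono ?_ _ _ hr
  rintro p q ⟨hp, hq, e, he, hj⟩
  refine ⟨mem_univ _, mem_univ _, e, ⟨he, ?_⟩, hj⟩
  rintro (rfl | rfl)
  · rcases step_mem hf hj with rfl | rfl
    · exact hp rfl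
    · exact hq rfl
  · rcases step_mem hf' hj with rfl | rfl
    · exact hp rfl
    · exact hq rfl

theorem conn_edge {O : Set (E d)} {W : Set (V d)} {e : E d} {a b : V d} (he : e ∈ O)
    (hj : Joins e a b) (ha : a ∈ W) (hb : b ∈ W) : Conn O W a b :=
  Conn.snoc (Conn.refl ha) ⟨ha, hb, e, he, hj⟩

theorem swap {O : Set (E d)} {u v v' x y : V d} (h : Branch O u v v' x y) :
    Branch O u v' v y x := by
  obtain ⟨f, f', h1, h2, h3, h4, h5, h6, h7, h8, h9, h10⟩ := h
  rw [Set.pair_comm] at h5 h6 h7 h8 h9 h10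
  exact ⟨f', f, h2, h1, h4, h3, h5, h7, h6, h9, h8, fun h => h10 h.symm⟩

/-- `u` is on every path between two of `0`, `x`, `y` -/
theorem cut {O : Set (E d)} {u v v' x y : V d} (h : Branch O u v v' x y) :
    ¬ Conn O {u}ᶜ 0 x ∧ ¬ Conn O {u}ᶜ 0 y ∧ ¬ Conn O {u}ᶜ x y := by
  obtain ⟨f, f', h1, h2, h3, h4, h5, h6, h7, h8, h9, h10⟩ := h
  refine ⟨fun h => ?_, fun h => ?_, fun h => ?_⟩
  · exact h8 ((drop h1 h2 h).trans h6.symm)
  · exact h9 ((drop h1 h2 h).trans h7.symm)
  · exact h10 ((h6.trans (drop h1 h2 h)).trans h7.symm)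

/-- other vertices are not -/
theorem not_cut {O : Set (E d)} {u v v' x y w : V d} (h : Branch O u v v' x y) (hw : w ≠ u) :
    Conn O {w}ᶜ 0 x ∨ Conn O {w}ᶜ 0 y ∨ Conn O {w}ᶜ x y := by
  obtain ⟨f, f', h1, h2, h3, h4, h5, h6, h7, h8, h9, h10⟩ := h
  have hsub : O \ {f, f'} ⊆ O := Set.sdiff_subset
  have hu : u ∈ ({w}ᶜ : Set (V d)) := fun h => hw h.symm
  by_cases hv : Conn (O \ {f, f'}) univ v w
  · -- `w` is in the piece of `x`
    have k0 : ¬ Conn (O \ {f, f'}) univ 0 w := fun h => h8 (h.trans hv.symm)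
    have k1 : ¬ Conn (O \ {f, f'}) univ v' w := fun h => h10 (hv.trans h.symm)
    have e1 := (avoid h5 k0).mono hsub subset_rfl
    have e2 := (avoid h7 k1).mono hsub subset_rfl
    exact Or.inr (Or.inl ((e1.trans (conn_edge h4 h2 hu e2.left)).trans e2))
  · by_cases hv' : Conn (O \ {f, f'}) univ v' w
    · have k0 : ¬ Conn (O \ {f, f'}) univ 0 w := fun h => h9 (h.trans hv'.symm)
      have e1 := (avoid h5 k0).mono hsub subset_rfl
      have e2 := (avoid h6 hv).mono hsub subset_rfl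
      exact Or.inl ((e1.trans (conn_edge h3 h1 hu e2.left)).trans e2)
    · have e1 := (avoid h6 hv).mono hsub subset_rfl
      have e2 := (avoid h7 hv').mono hsub subset_rfl
      exact Or.inr (Or.inr (((e1.symm.trans (conn_edge h3 h1 hu e1.left).symm).trans
        (conn_edge h4 h2 hu e2.left)).trans e2))

theorem eq_u {O : Set (E d)} {x y u v v' u₂ v₂ v₂' : V d} (h : Branch O u v v' x y)
    (h₂ : Branch O u₂ v₂ v₂' x y) : u = u₂ := by
  by_contra hne
  obtain ⟨h1, h2, h3⟩ := cut h₂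
  rcases not_cut h (w := u₂) (fun e => hne e.symm) with h4 | h4 | h4
  · exact h1 h4
  · exact h2 h4
  · exact h3 h4

theorem away {O : Set (E d)} {x y u v v' : V d} (h : Branch O u v v' x y) :
    Conn O {u}ᶜ v x := by
  obtain ⟨f, f', h1, h2, h3, h4, h5, h6, h7, h8, h9, h10⟩ := h
  exact (avoid h6 fun h => h8 (h5.trans h.symm)).mono Set.sdiff_subset subset_rfl

theorem eq_v {O : Set (E d)} {x y u v v' v₂ v₂' : V d} (h : Branch O u v v' x y)
    (h₂ : Branch O u v₂ v₂' x y) : v = v₂ := by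
  have a1 := away h
  have a2 := away h₂
  have a3 := a2.trans a1.symm
  obtain ⟨f, -, hf, -, hfO, -⟩ := h
  obtain ⟨f₂, f₂', h1, h2, h3, h4, h5, h6, h7, h8, h9, h10⟩ := h₂
  have a4 := drop h1 h2 a3
  by_cases hff : f = f₂
  · subst hff
    exact joins_right hf h1
  · by_cases hff' : f = f₂'
    · subst hff'
      have : v = v₂' := joins_right hf h2
      rw [this] at a4
      exact (h10 a4).elim
    · have hm : f ∈ O \ {f₂, f₂'} := ⟨hfO, by
        rintro (e | e)
        · exact hff e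
        · exact hff' e⟩
      exact (h8 ((h5.trans (conn_edge hm hf (mem_univ _) (mem_univ _))).trans a4.symm)).elim

end MBranch

open MBranch

theorem Branch.conn {O : Set (E d)} {u v v' x y : V d} (h : Branch O u v v' x y) :
    Conn O univ 0 x ∧ Conn O univ 0 y := by
  obtain ⟨f, f', h1, h2, h3, h4, h5, h6, h7, h8, h9, h10⟩ := h
  have hsub : O \ {f, f'} ⊆ O := Set.sdiff_subset
  have e0 := h5.mono hsub subset_rfl
  exact ⟨(e0.trans (conn_edge h3 h1 (mem_univ _) (mem_univ _))).trans (h6.mono hsub subset_rfl),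
    (e0.trans (conn_edge h4 h2 (mem_univ _) (mem_univ _))).trans (h7.mono hsub subset_rfl)⟩

theorem Branch.unique {O : Set (E d)} {x y u v v' u₂ v₂ v₂' : V d} (h : Branch O u v v' x y)
    (h₂ : Branch O u₂ v₂ v₂' x y) : u = u₂ ∧ v = v₂ ∧ v' = v₂' := by
  obtain rfl := eq_u h h₂
  exact ⟨rfl, eq_v h h₂, eq_v (swap h) (swap h₂)⟩

end Pool.Agent.helper88.FPM
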