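import Pool.Agent.helper55.FP.Defs

/-! FP project, part M (mean-field bound of the tail): definitions. -/

set_option autoImplicit false

open MeasureTheory Set
open scoped ENNReal

namespace Pool.Agent.helper88.FPM

open Pool.Agent.helper55.FP

variable {d : ℕ}

/-- `P_p(a ↔ b in W)` -/
noncomputable def cE (p : ℝ) (W : Set (V d)) (a b : V d) : ℝ≥0∞ := P d {U | Conn (op p U) W a b}

/-- two-point function, extended nonnegative real -/
noncomputable def tE (p : ℝ) (x : V d) : ℝ≥0∞ := cE p univ 0 x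

/-- susceptibility, extended nonnegative real -/
noncomputable def XE (d : ℕ) (p : ℝ) : ℝ≥0∞ := ∑' x : V d, tE p x

/-- the triangle diagram `τ*τ*τ (z)` -/
noncomputable def T3 (p : ℝ) (z : V d) : ℝ≥0∞ :=
  ∑' x : V d, ∑' y : V d, tE p x * tE p (y - x) * tE p (z - y)

/-- number of elements -/
noncomputable def sz (S : Set (V d)) : ℝ≥0∞ := ∑' x : V d, S.indicator 1 x

/-- second moment of the cluster size -/
noncomputable def m2 (d : ℕ) (p : ℝ) : ℝ≥0∞ := ∫⁻ U, sz (Cl (op p U) univ (0 : V d)) ^ 2 ∂(P d)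

/-- third moment of the cluster size -/
noncomputable def m3 (d : ℕ) (p : ℝ) : ℝ≥0∞ := ∫⁻ U, sz (Cl (op p U) univ (0 : V d)) ^ 3 ∂(P d)

/-- the neighbours of the origin -/
noncomputable def dirs (d : ℕ) : Finset (V d) :=
  (Finset.univ.image fun i : Fin d => (Pi.single i (1 : ℤ) : V d)) ∪
    (Finset.univ.image fun i : Fin d => (Pi.single i (-1 : ℤ) : V d))

/-- three pairwise disjoint clusters -/
def Three (O : Set (E d)) (u v v' x y : V d) : Prop :=
  Conn O univ 0 u ∧ Conn O univ v x ∧ Conn O univ v' y ∧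
    ¬ Conn O univ 0 v ∧ ¬ Conn O univ 0 v' ∧ ¬ Conn O univ v v'

/-- `u` is a branch point, with exits `v` (towards `x`) and `v'` (towards `y`) -/
def Branch (O : Set (E d)) (u v v' x y : V d) : Prop :=
  ∃ f f' : E d, Joins f u v ∧ Joins f' u v' ∧ f ∈ O ∧ f' ∈ O ∧ Three (O \ {f, f'}) u v v' x y

open Classical in
/-- `s ^ |S|`, zero if `S` is infinite -/
noncomputable def pw (s : ℝ) (S : Set (V d)) : ℝ := if S.Finite then s ^ S.ncard else 0

/-- magnetisation `1 - E[(1-h)^{|C_p(0)|}]` -/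
noncomputable def MM (d : ℕ) (p h : ℝ) : ℝ := 1 - ∫ U, pw (1 - h) (Cl (op p U) (univ : Set (V d)) 0) ∂(P d)

end Pool.Agent.helper88.FPM
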