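import Pool.Agent.helper88.FPM.MBasic
import Pool.Agent.helper88.FPM.MTree

/-! FP project, module M2c: three disjoint clusters (double exploration). -/

set_option autoImplicit false

open MeasureTheory Set
open scoped ENNReal

namespace Pool.Agent.helper88.FPM

open Pool.Agent.helper55.FP

variable {d : ℕ}

namespace MThree

/-- probability that the cluster of `v` in `W` is `G` -/
noncomputable def qq (p : ℝ) (W : Set (V d)) (v : V d) (G : Finset (V d)) : ℝ≥0∞ :=
  P d {U | Cl (op p U) W v = (↑G : Set (V d))}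

/-- indicator of `G` -/
noncomputable def ii (G : Finset (V d)) (x : V d) : ℝ≥0∞ := (↑G : Set (V d)).indicator 1 x

theorem ii_mem {G : Finset (V d)} {x : V d} (h : x ∈ G) : ii G x = 1 := by
  rw [ii, Set.indicator_of_mem (Finset.mem_coe.2 h)]; rfl

theorem ii_not_mem {G : Finset (V d)} {x : V d} (h : x ∉ G) : ii G x = 0 := by
  rw [ii, Set.indicator_of_notMem (fun h' => h (Finset.mem_coe.1 h'))]

theorem ii_mul (G : Finset (V d)) (f : V d → ℝ≥0∞) (x : V d) :
    (↑G : Set (V d)).indicator f x = ii G x * f x := by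
  by_cases h : x ∈ G
  · rw [ii_mem h, Set.indicator_of_mem (Finset.mem_coe.2 h), one_mul]
  · rw [ii_not_mem h, Set.indicator_of_notMem (fun h' => h (Finset.mem_coe.1 h')), zero_mul]

theorem sum_one (p : ℝ) (hX : XE d p ≠ ∞) (W : Set (V d)) (v x : V d) :
    ∑' G : Finset (V d), qq p W v G * ii G x = cE p W v x := by
  rw [cE, ← explore_sum p hX W v (measurableSet_conn p W v x)]
  refine tsum_congr fun G => ?_
  by_cases h : x ∈ G
  · rw [ii_mem h, mul_one, qq]
    congr 1
    ext U
    constructor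
    · intro hU
      refine ⟨hU, ?_⟩
      have h1 : x ∈ Cl (op p U) W v := by
        rw [show Cl (op p U) W v = ↑G from hU]; exact Finset.mem_coe.2 h
      exact h1
    · exact fun hU => hU.1
  · rw [ii_not_mem h, mul_zero]
    symm
    rw [show ({U | Cl (op p U) W v = (↑G : Set (V d))} ∩ {U | Conn (op p U) W v x} : Set (Cfg d))
      = ∅ from ?_, measure_empty]
    rw [Set.eq_empty_iff_forall_notMem]
    rintro U ⟨h1, h2⟩
    have h3 : x ∈ Cl (op p U) W v := h2
    rw [show Cl (op p U) W v = ↑G from h1] at h3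
    exact h (Finset.mem_coe.1 h3)

theorem sum_two (p : ℝ) (hX : XE d p ≠ ∞) (W : Set (V d)) (v x a : V d) :
    ∑' G : Finset (V d), qq p W v G * (ii G x * ii G a)
      = P d {U | Conn (op p U) W v x ∧ Conn (op p U) W v a} := by
  have hm : MeasurableSet {U : Cfg d | Conn (op p U) W v x ∧ Conn (op p U) W v a} :=
    (measurableSet_conn p W v x).inter (measurableSet_conn p W v a)
  rw [← explore_sum p hX W v hm]
  refine tsum_congr fun G => ?_
  by_cases h : x ∈ G ∧ a ∈ G
  · rw [ii_mem h.1, ii_mem h.2, mul_one, mul_one, qq]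
    congr 1
    ext U
    constructor
    · intro hU
      refine ⟨hU, ?_⟩
      have h1 : ∀ z ∈ G, z ∈ Cl (op p U) W v := by
        intro z hz
        rw [show Cl (op p U) W v = ↑G from hU]; exact Finset.mem_coe.2 hz
      exact ⟨h1 x h.1, h1 a h.2⟩
    · exact fun hU => hU.1
  · have h0 : ii G x * ii G a = 0 := by
      rcases not_and_or.1 h with h | h
      · rw [ii_not_mem h, zero_mul]
      · rw [ii_not_mem h, mul_zero]
    rw [h0, mul_zero]
    symm
    rw [show ({U | Cl (op p U) W v = (↑G : Set (V d))} ∩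
      {U | Conn (op p U) W v x ∧ Conn (op p U) W v a} : Set (Cfg d)) = ∅ from ?_, measure_empty]
    rw [Set.eq_empty_iff_forall_notMem]
    rintro U ⟨h1, h2, h3⟩
    have h4 : x ∈ Cl (op p U) W v := h2
    have h5 : a ∈ Cl (op p U) W v := h3
    rw [show Cl (op p U) W v = ↑G from h1] at h4 h5
    exact h ⟨Finset.mem_coe.1 h4, Finset.mem_coe.1 h5⟩

theorem sum_one' (p : ℝ) (hX : XE d p ≠ ∞) (W : Set (V d)) (v : V d) :
    ∑' G : Finset (V d), qq p W v G * ∑' x, ii G x = ∑' x, cE p W v x := by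
  simp only [← sum_one p hX W v, ← ENNReal.tsum_mul_left]
  exact ENNReal.tsum_comm

theorem sum_two' (p : ℝ) (hX : XE d p ≠ ∞) (W : Set (V d)) (v : V d) (f : V d → V d → ℝ≥0∞) :
    ∑' G : Finset (V d), qq p W v G * ∑' x, ii G x * ∑' a, ii G a * f x a
      = ∑' x, ∑' a, P d {U | Conn (op p U) W v x ∧ Conn (op p U) W v a} * f x a := by
  simp only [← sum_two p hX W v, ← ENNReal.tsum_mul_left, ← ENNReal.tsum_mul_right]
  rw [ENNReal.tsum_comm]
  refine tsum_congr fun x => ?_
  rw [ENNReal.tsum_comm]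
  refine tsum_congr fun a => tsum_congr fun G => ?_
  ring

theorem XE_shift (p : ℝ) (v : V d) : ∑' y : V d, tE p (y - v) = XE d p :=
  Equiv.tsum_eq (Equiv.subRight v) (tE p)

/-- connections off a set, summed over the end point -/
theorem off_sum (p : ℝ) (S : Set (V d)) (v : V d) :
    XE d p ≤ ∑' y, cE p Sᶜ v y + XE d p * ∑' a, S.indicator (fun a => tE p (a - v)) a := by
  rw [← XE_shift p v]
  refine (ENNReal.tsum_le_tsum fun y => cE_off p S v y).trans (le_of_eq ?_)
  rw [ENNReal.tsum_add]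
  congr 1
  rw [ENNReal.tsum_comm, ← ENNReal.tsum_mul_left]
  refine tsum_congr fun a => ?_
  by_cases h : a ∈ S
  · simp only [Set.indicator_of_mem h]
    rw [ENNReal.tsum_mul_left, XE_shift, XE_shift, mul_comm]
  · simp only [Set.indicator_of_notMem h, tsum_zero, mul_zero]

theorem indicator_union_le (F : Set (V d)) (G : Finset (V d)) (f : V d → ℝ≥0∞) :
    ∑' a, (F ∪ ↑G).indicator f a ≤ ∑' a, F.indicator f a + ∑' a, ii G a * f a := by
  rw [← ENNReal.tsum_add]
  refine ENNReal.tsum_le_tsum fun a => ?_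
  rw [← ii_mul]
  by_cases h1 : a ∈ F
  · rw [Set.indicator_of_mem (show a ∈ F ∪ ↑G from Or.inl h1), Set.indicator_of_mem h1]
    exact le_self_add
  · by_cases h2 : a ∈ (↑G : Set (V d))
    · rw [Set.indicator_of_mem (show a ∈ F ∪ ↑G from Or.inr h2), Set.indicator_of_mem h2]
      exact le_add_self
    · rw [Set.indicator_of_notMem (fun h => h.elim h1 h2)]
      exact zero_le

theorem one_le_indicator (p : ℝ) {F : Set (V d)} {v : V d} (h : v ∈ F) :
    1 ≤ ∑' a, F.indicator (fun a => tE p (a - v)) a := by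
  refine le_trans ?_ (ENNReal.le_tsum v)
  rw [Set.indicator_of_mem h, sub_self, tE_zero]

/-- step (ii): the value `G` of the cluster of `v` -/
theorem two_term (p : ℝ) {W : Set (V d)} {v : V d} (hv : v ∈ W) (v' x y : V d)
    (G : Finset (V d)) :
    qq p W v G * (ii G x * cE p (W \ ↑G) v' y) ≤ P d ({U | Cl (op p U) W v = (↑G : Set (V d))} ∩
      {U | Conn (op p U) W v x ∧ Conn (op p U) W v' y ∧ ¬ Conn (op p U) W v v'}) := by
  by_cases hx : x ∈ G
  · by_cases hv' : v' ∈ G
    · have h0 : cE p (W \ ↑G) v' y = 0 := by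
        rw [cE, show ({U | Conn (op p U) (W \ ↑G) v' y} : Set (Cfg d)) = ∅ from ?_, measure_empty]
        rw [Set.eq_empty_iff_forall_notMem]
        rintro U h
        exact h.1.2 (Finset.mem_coe.2 hv')
      rw [h0, mul_zero, mul_zero]
      exact zero_le
    · rw [ii_mem hx, one_mul, qq, cE]
      rw [← explore_mul p (↑G : Set (V d)) hv (measurableSet_conn p (W \ ↑G) v' y)]
      · refine measure_mono ?_
        rintro U ⟨h1, h2⟩
        have h1' : Cl (op p U) W v = ↑G := h1
        refine ⟨h1, ?_, ?_, ?_⟩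
        · have h3 : x ∈ Cl (op p U) W v := by rw [h1']; exact Finset.mem_coe.2 hx
          exact h3
        · exact (conn_off h1' (fun h => hv' (Finset.mem_coe.1 h))).2 h2
        · intro h4
          have h5 : v' ∈ Cl (op p U) W v := h4
          rw [h1'] at h5
          exact hv' (Finset.mem_coe.1 h5)
      · intro U U' h
        have h2 : inner (W \ ↑G) ⊆ inner ((↑G : Set (V d))ᶜ) := fun e he => ⟨he.1.2, he.2.2⟩
        exact dependsOn_conn p (W \ ↑G) v' y fun e he => h e (h2 he)
  · rw [ii_not_mem hx, zero_mul, mul_zero]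
    exact zero_le

/-- step (ii) for the first exploration -/
theorem three_term (p : ℝ) (u v v' x y : V d) (F : Finset (V d)) :
    qq p univ 0 F * (ii F u * P d {U | Conn (op p U) (↑F : Set (V d))ᶜ v x ∧
      Conn (op p U) (↑F : Set (V d))ᶜ v' y ∧ ¬ Conn (op p U) (↑F : Set (V d))ᶜ v v'})
      ≤ P d ({U | Cl (op p U) univ (0 : V d) = (↑F : Set (V d))} ∩
        {U | Three (op p U) u v v' x y}) := by
  by_cases hu : u ∈ F
  · rw [ii_mem hu, one_mul, qq]
    rw [← explore_mul p (↑F : Set (V d)) (mem_univ _)]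
    · refine measure_mono ?_
      rintro U ⟨h1, h2, h3, h4⟩
      have h1' : Cl (op p U) univ 0 = ↑F := h1
      have hv : v ∉ (↑F : Set (V d)) := h2.1
      have hv' : v' ∉ (↑F : Set (V d)) := h3.1
      have huniv : (univ : Set (V d)) \ ↑F = (↑F : Set (V d))ᶜ := by
        ext z; simp
      refine ⟨h1, ?_, ?_, ?_, ?_, ?_, ?_⟩
      · have h3 : u ∈ Cl (op p U) univ 0 := by rw [h1']; exact Finset.mem_coe.2 hu
        exact h3
      · rw [conn_off h1' hv, huniv]; exact h2
      · rw [conn_off h1' hv', huniv]; exact h3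
      · intro h5
        have h6 : v ∈ Cl (op p U) univ 0 := h5
        rw [h1'] at h6
        exact hv h6
      · intro h5
        have h6 : v' ∈ Cl (op p U) univ 0 := h5
        rw [h1'] at h6
        exact hv' h6
      · rw [conn_off h1' hv, huniv]; exact h4
    · exact (measurableSet_conn p _ v x).inter
        ((measurableSet_conn p _ v' y).inter (measurableSet_conn p _ v v').compl)
    · intro U U' h
      have e1 := dependsOn_conn p ((↑F : Set (V d))ᶜ) v x h
      have e2 := dependsOn_conn p ((↑F : Set (V d))ᶜ) v' y h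
      have e3 := dependsOn_conn p ((↑F : Set (V d))ᶜ) v v' h
      simp only at e1 e2 e3
      show (_ ∧ _ ∧ ¬ _) = (_ ∧ _ ∧ ¬ _)
      rw [e1, e2, e3]
  · rw [ii_not_mem hu, zero_mul, mul_zero]
    exact zero_le

end MThree

open MThree

/-- one exploration: the cluster of `v` inside `W`, then connections of `v'` off it -/
theorem two_clusters (p : ℝ) (hX : XE d p ≠ ∞) (F : Set (V d)) (v v' : V d) :
    XE d p * XE d p ≤ (∑' x : V d, ∑' y : V d, P d {U | Conn (op p U) Fᶜ v x ∧ Conn (op p U) Fᶜ v' y ∧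
        ¬ Conn (op p U) Fᶜ v v'}) +
      XE d p * XE d p * ((∑' a : V d, F.indicator (fun a => tE p (a - v)) a) +
        (∑' a : V d, F.indicator (fun a => tE p (a - v')) a) + T3 p (v' - v)) := by
  by_cases hv : v ∈ F
  · refine le_trans ?_ le_add_self
    conv_lhs => rw [← mul_one (XE d p * XE d p)]
    gcongr
    exact (one_le_indicator p hv).trans (le_self_add.trans le_self_add)
  by_cases hv' : v' ∈ F
  · refine le_trans ?_ le_add_self
    conv_lhs => rw [← mul_one (XE d p * XE d p)]
    gcongr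
    exact (one_le_indicator p hv').trans (le_add_self.trans le_self_add)
  have hvW : v ∈ Fᶜ := hv
  set X := XE d p with hXdef
  set A := ∑' a : V d, F.indicator (fun a => tE p (a - v)) a with hA
  set A' := ∑' a : V d, F.indicator (fun a => tE p (a - v')) a with hA'
  set S := ∑' x, cE p Fᶜ v x with hS
  clear_value A A' S
  -- the left-hand side
  have h1 : ∑' G : Finset (V d), qq p Fᶜ v G * ∑' x, ii G x * ∑' y, cE p (Fᶜ \ ↑G) v' y
      ≤ ∑' x : V d, ∑' y : V d, P d {U | Conn (op p U) Fᶜ v x ∧ Conn (op p U) Fᶜ v' y ∧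
        ¬ Conn (op p U) Fᶜ v v'} := by
    have e : ∑' G : Finset (V d), qq p Fᶜ v G * ∑' x, ii G x * ∑' y, cE p (Fᶜ \ ↑G) v' y
        = ∑' x : V d, ∑' y : V d, ∑' G : Finset (V d),
          qq p Fᶜ v G * (ii G x * cE p (Fᶜ \ ↑G) v' y) := by
      simp only [← ENNReal.tsum_mul_left]
      rw [ENNReal.tsum_comm]
      exact tsum_congr fun x => ENNReal.tsum_comm
    rw [e]
    refine ENNReal.tsum_le_tsum fun x => ENNReal.tsum_le_tsum fun y => ?_
    have hm : MeasurableSet {U : Cfg d | Conn (op p U) Fᶜ v x ∧ Conn (op p U) Fᶜ v' y ∧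
        ¬ Conn (op p U) Fᶜ v v'} :=
      (measurableSet_conn p _ v x).inter
        ((measurableSet_conn p _ v' y).inter (measurableSet_conn p _ v v').compl)
    rw [← explore_sum p hX Fᶜ v hm]
    exact ENNReal.tsum_le_tsum fun G => two_term p hvW v' x y G
  -- the main inequality for each `G`
  have h2 : ∀ G : Finset (V d), X ≤ ∑' y, cE p (Fᶜ \ ↑G) v' y
      + X * (A' + ∑' a, ii G a * tE p (a - v')) := by
    intro G
    have h3 := off_sum p (F ∪ ↑G) v'
    have e : (F ∪ ↑G)ᶜ = Fᶜ \ (↑G : Set (V d)) := by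
      rw [Set.compl_union, Set.sdiff_eq]
    rw [e] at h3
    refine h3.trans ?_
    gcongr
    rw [hA']
    exact indicator_union_le F G _
  have h3 : S * X ≤ (∑' G : Finset (V d), qq p Fᶜ v G * ∑' x, ii G x * ∑' y, cE p (Fᶜ \ ↑G) v' y)
      + (X * A' * S + X * ∑' x, ∑' a, P d {U | Conn (op p U) Fᶜ v x ∧ Conn (op p U) Fᶜ v a} *
        tE p (a - v')) := by
    have e1 : S * X = ∑' G : Finset (V d), qq p Fᶜ v G * ∑' x, ii G x * X := by
      rw [hS, ← sum_one' p hX Fᶜ v, ← ENNReal.tsum_mul_right]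
      refine tsum_congr fun G => ?_
      rw [ENNReal.tsum_mul_right, mul_assoc]
    have e2 : ∑' G : Finset (V d), qq p Fᶜ v G * ∑' x, ii G x * X
        ≤ ∑' G : Finset (V d), qq p Fᶜ v G * ∑' x, ii G x *
          (∑' y, cE p (Fᶜ \ ↑G) v' y + X * (A' + ∑' a, ii G a * tE p (a - v'))) := by
      refine ENNReal.tsum_le_tsum fun G => ?_
      gcongr with x
      exact h2 G
    have e3 : ∑' G : Finset (V d), qq p Fᶜ v G * ∑' x, ii G x *
          (∑' y, cE p (Fᶜ \ ↑G) v' y + X * (A' + ∑' a, ii G a * tE p (a - v')))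
        = (∑' G : Finset (V d), qq p Fᶜ v G * ∑' x, ii G x * ∑' y, cE p (Fᶜ \ ↑G) v' y)
          + (X * A' * (∑' G : Finset (V d), qq p Fᶜ v G * ∑' x, ii G x)
          + X * ∑' G : Finset (V d), qq p Fᶜ v G * ∑' x, ii G x * ∑' a, ii G a * tE p (a - v')) := by
      have e4 : ∀ G : Finset (V d), qq p Fᶜ v G * ∑' x, ii G x *
          (∑' y, cE p (Fᶜ \ ↑G) v' y + X * (A' + ∑' a, ii G a * tE p (a - v')))
        = qq p Fᶜ v G * ∑' x, ii G x * ∑' y, cE p (Fᶜ \ ↑G) v' y
          + (X * A' * (qq p Fᶜ v G * ∑' x, ii G x)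
          + X * (qq p Fᶜ v G * ∑' x, ii G x * ∑' a, ii G a * tE p (a - v'))) := by
        intro G
        simp only [ENNReal.tsum_mul_right]
        ring
      rw [tsum_congr e4, ENNReal.tsum_add, ENNReal.tsum_add, ENNReal.tsum_mul_left,
        ENNReal.tsum_mul_left]
    rw [e1]
    refine e2.trans (le_of_eq ?_)
    rw [e3, sum_one' p hX Fᶜ v, sum_two' p hX Fᶜ v (fun _ a => tE p (a - v')), ← hS]
  have h4 : ∑' x, ∑' a, P d {U | Conn (op p U) Fᶜ v x ∧ Conn (op p U) Fᶜ v a} * tE p (a - v')
      ≤ X * T3 p (v' - v) := by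
    refine le_trans ?_ (tri_err' p v v')
    refine ENNReal.tsum_le_tsum fun x => ENNReal.tsum_le_tsum fun a => ?_
    gcongr ?_ * _
    refine measure_mono ?_
    rintro U ⟨h5, h6⟩
    exact ⟨h5.mono subset_rfl (subset_univ _), h6.mono subset_rfl (subset_univ _)⟩
  have h5 : X ≤ S + X * A := by rw [hS, hA]; exact off_sum p F v
  have h6 : S ≤ X := by
    rw [hS, hXdef, ← XE_shift p v]
    exact ENNReal.tsum_le_tsum fun y => cE_le p _ v y
  calc X * X ≤ (S + X * A) * X := by gcongr
    _ = S * X + X * X * A := by ring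
    _ ≤ ((∑' x : V d, ∑' y : V d, P d {U | Conn (op p U) Fᶜ v x ∧ Conn (op p U) Fᶜ v' y ∧
        ¬ Conn (op p U) Fᶜ v v'}) + (X * A' * X + X * (X * T3 p (v' - v)))) + X * X * A := by
        gcongr
        refine h3.trans ?_
        gcongr
    _ = _ := by ring

theorem three_sum (p : ℝ) (hX : XE d p ≠ ∞) (e e' : V d) :
    XE d p ^ 3 ≤ (∑' u : V d, ∑' x : V d, ∑' y : V d,
        P d {U | Three (op p U) u (u + e) (u + e') x y}) +
      XE d p ^ 3 * (T3 p e + T3 p e' + T3 p (e' - e)) := by
  set X := XE d p with hXdef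
  -- abbreviation for the two cluster sums
  set g : Finset (V d) → V d → V d → V d → ℝ≥0∞ := fun F u x y =>
    P d {U | Conn (op p U) (↑F : Set (V d))ᶜ (u + e) x ∧
      Conn (op p U) (↑F : Set (V d))ᶜ (u + e') y ∧
      ¬ Conn (op p U) (↑F : Set (V d))ᶜ (u + e) (u + e')} with hg
  have h1 : ∑' F : Finset (V d), qq p univ 0 F * ∑' u, ii F u * ∑' x, ∑' y, g F u x y
      ≤ ∑' u : V d, ∑' x : V d, ∑' y : V d, P d {U | Three (op p U) u (u + e) (u + e') x y} := by
    have e1 : ∑' F : Finset (V d), qq p univ 0 F * ∑' u, ii F u * ∑' x, ∑' y, g F u x y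
        = ∑' u : V d, ∑' x : V d, ∑' y : V d, ∑' F : Finset (V d),
          qq p univ 0 F * (ii F u * g F u x y) := by
      simp only [← ENNReal.tsum_mul_left]
      rw [ENNReal.tsum_comm]
      refine tsum_congr fun u => ?_
      rw [ENNReal.tsum_comm]
      exact tsum_congr fun x => ENNReal.tsum_comm
    rw [e1]
    refine ENNReal.tsum_le_tsum fun u => ENNReal.tsum_le_tsum fun x =>
      ENNReal.tsum_le_tsum fun y => ?_
    have hm : MeasurableSet {U : Cfg d | Three (op p U) u (u + e) (u + e') x y} :=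
      (measurableSet_conn p _ _ _).inter ((measurableSet_conn p _ _ _).inter
        ((measurableSet_conn p _ _ _).inter ((measurableSet_conn p _ _ _).compl.inter
          ((measurableSet_conn p _ _ _).compl.inter (measurableSet_conn p _ _ _).compl))))
    rw [← explore_sum p hX univ 0 hm]
    exact ENNReal.tsum_le_tsum fun F => three_term p u (u + e) (u + e') x y F
  -- two clusters for each `F`, `u`
  have h2 : ∀ (F : Finset (V d)) (u : V d), X * X ≤ ∑' x, ∑' y, g F u x y
      + X * X * ((∑' a, ii F a * tE p (a - (u + e))) + (∑' a, ii F a * tE p (a - (u + e')))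
        + T3 p (e' - e)) := by
    intro F u
    have h3 := two_clusters p hX (↑F : Set (V d)) (u + e) (u + e')
    simp only [ii_mul] at h3
    rw [show u + e' - (u + e) = e' - e by abel] at h3
    exact h3
  have hsum : ∑' F : Finset (V d), qq p univ (0 : V d) F * ∑' u, ii F u = X := by
    rw [sum_one' p hX univ 0]
    rfl
  have e1 : X ^ 3 = ∑' F : Finset (V d), qq p univ 0 F * ∑' u, ii F u * (X * X) := by
    calc X ^ 3 = X * (X * X) := by ring
      _ = (∑' F : Finset (V d), qq p univ (0 : V d) F * ∑' u, ii F u) * (X * X) := by rw [hsum]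
      _ = _ := by
        rw [← ENNReal.tsum_mul_right]
        refine tsum_congr fun F => ?_
        rw [ENNReal.tsum_mul_right, mul_assoc]
  have e2 : ∑' F : Finset (V d), qq p univ 0 F * ∑' u, ii F u * (X * X)
      ≤ ∑' F : Finset (V d), qq p univ 0 F * ∑' u, ii F u * (∑' x, ∑' y, g F u x y
      + X * X * ((∑' a, ii F a * tE p (a - (u + e))) + (∑' a, ii F a * tE p (a - (u + e')))
        + T3 p (e' - e))) := by
    refine ENNReal.tsum_le_tsum fun F => ?_
    gcongr with u
    exact h2 F u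
  have e3 : ∑' F : Finset (V d), qq p univ 0 F * ∑' u, ii F u * (∑' x, ∑' y, g F u x y
      + X * X * ((∑' a, ii F a * tE p (a - (u + e))) + (∑' a, ii F a * tE p (a - (u + e')))
        + T3 p (e' - e)))
      = (∑' F : Finset (V d), qq p univ 0 F * ∑' u, ii F u * ∑' x, ∑' y, g F u x y)
        + X * X * ((∑' F : Finset (V d), qq p univ 0 F * ∑' u, ii F u *
            ∑' a, ii F a * tE p (a - (u + e)))
          + (∑' F : Finset (V d), qq p univ 0 F * ∑' u, ii F u *
            ∑' a, ii F a * tE p (a - (u + e')))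
          + (∑' F : Finset (V d), qq p univ 0 F * ∑' u, ii F u) * T3 p (e' - e)) := by
    have e5 : ∀ F : Finset (V d), qq p univ 0 F * ∑' u, ii F u * (∑' x, ∑' y, g F u x y
      + X * X * ((∑' a, ii F a * tE p (a - (u + e))) + (∑' a, ii F a * tE p (a - (u + e')))
        + T3 p (e' - e)))
      = qq p univ 0 F * ∑' u, ii F u * ∑' x, ∑' y, g F u x y
        + (X * X) * ((qq p univ 0 F * ∑' u, ii F u * ∑' a, ii F a * tE p (a - (u + e)))
          + (qq p univ 0 F * ∑' u, ii F u * ∑' a, ii F a * tE p (a - (u + e')))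
          + (qq p univ 0 F * ∑' u, ii F u) * T3 p (e' - e)) := ?_
    · rw [tsum_congr e5, ENNReal.tsum_add, ENNReal.tsum_mul_left, ENNReal.tsum_add,
        ENNReal.tsum_add, ENNReal.tsum_mul_right]
    intro F
    have e4 : ∀ u, ii F u * (∑' x, ∑' y, g F u x y
      + X * X * ((∑' a, ii F a * tE p (a - (u + e))) + (∑' a, ii F a * tE p (a - (u + e')))
        + T3 p (e' - e))) = ii F u * ∑' x, ∑' y, g F u x y
        + X * X * (ii F u * (∑' a, ii F a * tE p (a - (u + e)))
          + ii F u * (∑' a, ii F a * tE p (a - (u + e'))) + ii F u * T3 p (e' - e)) := by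
      intro u; ring
    simp only [e4]
    rw [ENNReal.tsum_add, ENNReal.tsum_mul_left, ENNReal.tsum_add, ENNReal.tsum_add,
      ENNReal.tsum_mul_right]
    ring
  rw [hsum, sum_two' p hX univ 0 (fun u a => tE p (a - (u + e))),
    sum_two' p hX univ 0 (fun u a => tE p (a - (u + e')))] at e3
  rw [e1]
  refine e2.trans ?_
  rw [e3, ← e1]
  calc _ ≤ (∑' u : V d, ∑' x : V d, ∑' y : V d,
        P d {U | Three (op p U) u (u + e) (u + e') x y})
        + X * X * (X * T3 p e + X * T3 p e' + X * T3 p (e' - e)) := by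
        gcongr
        · exact tri_err p e
        · exact tri_err p e'
    _ = _ := by ring

end Pool.Agent.helper88.FPM
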