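import Pool.Agent.helper88.FPM.MTree
import Pool.Agent.helper88.FPM.MBranch
import Pool.Agent.helper88.FPM.MBProb
import Pool.Agent.helper88.FPM.MThree

/-! FP project, module M2d: lower bound of the second moment. -/

set_option autoImplicit false

open MeasureTheory Set
open scoped ENNReal

namespace Pool.Agent.helper88.FPM

open Pool.Agent.helper55.FP

variable {d : ℕ}

theorem MSecond_card : (((dirs d).offDiag.card : ℕ) : ℝ≥0∞) =
    (2 * d) * ((2 * d - 1 : ℕ) : ℝ≥0∞) := by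
  rw [Finset.offDiag_card, card_dirs]
  have h : 2 * d * (2 * d) - 2 * d = 2 * d * (2 * d - 1) := by
    rw [Nat.mul_sub, mul_one]
  rw [h]
  push_cast
  ring

theorem MSecond_disj (p : ℝ) (x y : V d) :
    ∑ e ∈ (dirs d).offDiag, ∑' u : V d,
      P d {U : Cfg d | Branch (op p U) u (u + e.1) (u + e.2) x y} ≤
    P d {U : Cfg d | Conn (op p U) univ 0 x ∧ Conn (op p U) univ 0 y} := by
  rw [← Finset.tsum_subtype (dirs d).offDiag (fun e => ∑' u : V d,
      P d {U : Cfg d | Branch (op p U) u (u + e.1) (u + e.2) x y}),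
    ← ENNReal.tsum_prod (f := fun (e : {e // e ∈ (dirs d).offDiag}) (u : V d) =>
      P d {U : Cfg d | Branch (op p U) u (u + e.1.1) (u + e.1.2) x y}),
    ← measure_iUnion]
  · apply measure_mono
    intro U hU
    obtain ⟨i, hi⟩ := mem_iUnion.1 hU
    exact Branch.conn hi
  · rintro ⟨⟨⟨e1, e2⟩, he⟩, u⟩ ⟨⟨⟨e1', e2'⟩, he'⟩, u'⟩ hne
    rw [Function.onFun, Set.disjoint_left]
    intro U h1 h2
    obtain ⟨h3, h4, h5⟩ := Branch.unique h1 h2
    apply hne
    simp only at h3 h4 h5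
    subst h3
    have h6 : e1 = e1' := add_left_cancel h4
    have h7 : e2 = e2' := add_left_cancel h5
    subst h6
    subst h7
    rfl
  · intro i
    exact measurableSet_branch p _ _ _ x y

theorem MSecond_sum_le {p : ℝ} (hp : 0 ≤ p) (hp1 : p ≤ 1) :
    ∑ e ∈ (dirs d).offDiag, ENNReal.ofReal p ^ 2 * ∑' u : V d, ∑' x : V d, ∑' y : V d,
      P d {U : Cfg d | Three (op p U) u (u + e.1) (u + e.2) x y} ≤ m2 d p := by
  have h1 : ∀ e ∈ (dirs d).offDiag, ENNReal.ofReal p ^ 2 * ∑' u : V d, ∑' x : V d, ∑' y : V d,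
      P d {U : Cfg d | Three (op p U) u (u + e.1) (u + e.2) x y} ≤
      ∑' x : V d, ∑' y : V d, ∑' u : V d,
        P d {U : Cfg d | Branch (op p U) u (u + e.1) (u + e.2) x y} := by
    intro e he
    obtain ⟨he1, he2, hne⟩ := Finset.mem_offDiag.1 he
    have h2 : ∑' x : V d, ∑' y : V d, ∑' u : V d,
        P d {U : Cfg d | Branch (op p U) u (u + e.1) (u + e.2) x y} =
        ∑' u : V d, ∑' x : V d, ∑' y : V d,
        P d {U : Cfg d | Branch (op p U) u (u + e.1) (u + e.2) x y} := by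
      rw [ENNReal.tsum_comm (f := fun (u x : V d) => ∑' y : V d,
        P d {U : Cfg d | Branch (op p U) u (u + e.1) (u + e.2) x y})]
      refine tsum_congr fun x => ?_
      exact ENNReal.tsum_comm
    rw [h2, ← ENNReal.tsum_mul_left]
    refine ENNReal.tsum_le_tsum fun u => ?_
    rw [← ENNReal.tsum_mul_left]
    refine ENNReal.tsum_le_tsum fun x => ?_
    rw [← ENNReal.tsum_mul_left]
    refine ENNReal.tsum_le_tsum fun y => ?_
    refine branch_prob hp hp1 x y ?_ ?_ ?_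
    · rw [adj_iff_dirs, add_sub_cancel_left]
      exact he1
    · rw [adj_iff_dirs, add_sub_cancel_left]
      exact he2
    · intro h
      exact hne (add_left_cancel h)
  refine (Finset.sum_le_sum h1).trans ?_
  rw [m2_eq]
  have h3 : ∑ e ∈ (dirs d).offDiag, ∑' x : V d, ∑' y : V d, ∑' u : V d,
        P d {U : Cfg d | Branch (op p U) u (u + e.1) (u + e.2) x y} =
      ∑' x : V d, ∑' y : V d, ∑ e ∈ (dirs d).offDiag, ∑' u : V d,
        P d {U : Cfg d | Branch (op p U) u (u + e.1) (u + e.2) x y} := by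
    rw [← Summable.tsum_finsetSum fun _ _ => ENNReal.summable]
    refine tsum_congr fun x => ?_
    rw [← Summable.tsum_finsetSum fun _ _ => ENNReal.summable]
  rw [h3]
  exact ENNReal.tsum_le_tsum fun x => ENNReal.tsum_le_tsum fun y => MSecond_disj p x y

theorem m2_ge {p : ℝ} (hp : 0 ≤ p) (hp1 : p ≤ 1) (hX : XE d p ≠ ∞) (η : ℝ≥0∞)
    (hη : ∀ z : V d, z ≠ 0 → T3 p z ≤ η) :
    ENNReal.ofReal p ^ 2 * (2 * d) * ((2 * d - 1 : ℕ) : ℝ≥0∞) * XE d p ^ 3 ≤
      m2 d p + ENNReal.ofReal p ^ 2 * (2 * d) * ((2 * d - 1 : ℕ) : ℝ≥0∞) * (3 * η) * XE d p ^ 3 := by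
  have h1 : ∀ e ∈ (dirs d).offDiag, ENNReal.ofReal p ^ 2 * XE d p ^ 3 ≤
      ENNReal.ofReal p ^ 2 * (∑' u : V d, ∑' x : V d, ∑' y : V d,
        P d {U : Cfg d | Three (op p U) u (u + e.1) (u + e.2) x y}) +
      ENNReal.ofReal p ^ 2 * (XE d p ^ 3 * (3 * η)) := by
    intro e he
    obtain ⟨he1, he2, hne⟩ := Finset.mem_offDiag.1 he
    rw [← mul_add]
    refine mul_le_mul' le_rfl ((three_sum p hX e.1 e.2).trans (add_le_add le_rfl ?_))
    refine mul_le_mul' le_rfl ?_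
    have h2 := hη e.1 (dirs_ne_zero he1)
    have h3 := hη e.2 (dirs_ne_zero he2)
    have h4 := hη (e.2 - e.1) (sub_ne_zero.2 hne.symm)
    calc T3 p e.1 + T3 p e.2 + T3 p (e.2 - e.1) ≤ η + η + η := by gcongr
      _ = 3 * η := by ring
  have h2 := Finset.sum_le_sum h1
  rw [Finset.sum_add_distrib, Finset.sum_const, Finset.sum_const, nsmul_eq_mul, nsmul_eq_mul,
    MSecond_card] at h2
  calc ENNReal.ofReal p ^ 2 * (2 * d) * ((2 * d - 1 : ℕ) : ℝ≥0∞) * XE d p ^ 3
      = (2 * d) * ((2 * d - 1 : ℕ) : ℝ≥0∞) * (ENNReal.ofReal p ^ 2 * XE d p ^ 3) := by ring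
    _ ≤ _ := h2
    _ ≤ m2 d p + (2 * d) * ((2 * d - 1 : ℕ) : ℝ≥0∞) *
        (ENNReal.ofReal p ^ 2 * (XE d p ^ 3 * (3 * η))) :=
        add_le_add (MSecond_sum_le hp hp1) le_rfl
    _ = _ := by ring

end Pool.Agent.helper88.FPM
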