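import Pool.Agent.helper88.FPM.MBasic
import Pool.Agent.helper55.FP.Sprinkle

/-! FP project, module M3a: upper bound of the increments of the susceptibility. -/

set_option autoImplicit false

open MeasureTheory Set
open scoped ENNReal

namespace Pool.Agent.helper88.FPM

open Pool.Agent.helper55.FP

variable {d : ℕ}

/-- summation over the neighbours of `u` -/
theorem tsum_adj (u : V d) (f : V d → ℝ≥0∞) :
    ∑' v : V d, {v : V d | Adj u v}.indicator f v = ∑ e ∈ dirs d, f (u + e) := by
  rw [← (Equiv.addLeft u).tsum_eq]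
  rw [tsum_eq_sum (s := dirs d)]
  · refine Finset.sum_congr rfl fun e he => ?_
    rw [Equiv.coe_addLeft, indicator_of_mem]
    show Adj u (u + e)
    rw [adj_iff_dirs, add_sub_cancel_left]
    exact he
  · intro e he
    rw [Equiv.coe_addLeft, indicator_of_notMem]
    intro h
    apply he
    have h' : Adj u (u + e) := h
    rwa [adj_iff_dirs, add_sub_cancel_left] at h'

theorem XE_upper {p q : ℝ} (hp : 0 ≤ p) (hpq : p ≤ q) (hq : q ≤ 1) :
    XE d q ≤ XE d p + ENNReal.ofReal (q - p) * (2 * d) * XE d p * XE d q := by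
  have h1 : ∀ x : V d, tE q x ≤ tE p x + ENNReal.ofReal (q - p) *
      ∑' u : V d, ∑' v : V d, {v : V d | Adj u v}.indicator (fun v => tE p u * tE q (x - v)) v := by
    intro x
    have hsub : {U : Cfg d | Conn (op q U) univ 0 x} ⊆ {U : Cfg d | Conn (op p U) univ 0 x} ∪
        {U : Cfg d | Conn (op q U) univ 0 x ∧ ¬ Conn (op p U) univ 0 x} := by
      intro U hU
      by_cases h : Conn (op p U) univ 0 x
      · exact Or.inl h
      · exact Or.inr ⟨hU, h⟩
    refine (measure_mono hsub).trans ((measure_union_le _ _).trans (add_le_add le_rfl ?_))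
    refine (sprinkle hp hpq hq univ 0 x).trans ?_
    refine mul_le_mul' le_rfl (le_of_eq ?_)
    rw [ENNReal.tsum_prod']
    refine tsum_congr fun u => tsum_congr fun v => ?_
    by_cases h : Adj u v
    · rw [indicator_of_mem (show (u, v) ∈ {x : V d × V d | x.1 ∈ univ ∧ x.2 ∈ univ ∧ Adj x.1 x.2} from
        ⟨mem_univ _, mem_univ _, h⟩), indicator_of_mem (show v ∈ {v : V d | Adj u v} from h)]
      rw [ENNReal.ofReal_mul (show 0 ≤ tauW p univ 0 (u, v).1 from measureReal_nonneg), ← cE_eq, ← cE_eq,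
        cE_univ, cE_univ, sub_zero]
    · rw [indicator_of_notMem (show (u, v) ∉ {x : V d × V d | x.1 ∈ univ ∧ x.2 ∈ univ ∧ Adj x.1 x.2} from
        fun h' => h h'.2.2), indicator_of_notMem (show v ∉ {v : V d | Adj u v} from h)]
  have h2 : XE d q ≤ ∑' x : V d, (tE p x + ENNReal.ofReal (q - p) *
      ∑' u : V d, ∑' v : V d, {v : V d | Adj u v}.indicator (fun v => tE p u * tE q (x - v)) v) :=
    ENNReal.tsum_le_tsum h1
  refine h2.trans (le_of_eq ?_)
  rw [ENNReal.tsum_add, ENNReal.tsum_mul_left]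
  congr 1
  rw [mul_assoc, mul_assoc]
  congr 1
  have h3 : ∀ x u : V d, ∑' v : V d, {v : V d | Adj u v}.indicator (fun v => tE p u * tE q (x - v)) v =
      ∑ e ∈ dirs d, tE p u * tE q (x - (u + e)) := fun x u => tsum_adj u _
  simp only [h3]
  rw [ENNReal.tsum_comm]
  have h4 : ∀ u : V d, ∑' x : V d, ∑ e ∈ dirs d, tE p u * tE q (x - (u + e)) =
      tE p u * (2 * d * XE d q) := by
    intro u
    rw [Summable.tsum_finsetSum (fun _ _ => ENNReal.summable)]
    have h5 : ∀ e ∈ dirs d, ∑' x : V d, tE p u * tE q (x - (u + e)) = tE p u * XE d q := by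
      intro e _
      rw [ENNReal.tsum_mul_left, tsum_tE_sub]
    rw [Finset.sum_congr rfl h5, Finset.sum_const, card_dirs, nsmul_eq_mul]
    push_cast
    ring
  simp only [h4]
  rw [ENNReal.tsum_mul_right]
  show XE d p * _ = _
  ring

end Pool.Agent.helper88.FPM
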